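import Pool.Agent.P.MP_098a67_ag.T3.Gen

namespace Pool.Agent.P.MP_098a67_ag.T3

open Module

section Basic

variable {V W V' W' ι ι' : Type} [AddCommGroup V] [Module ℂ V] [AddCommGroup W] [Module ℂ W]
  [AddCommGroup V'] [Module ℂ V'] [AddCommGroup W'] [Module ℂ W']

/-- A family of linear maps lies in the span of at most `r` maps of rank one. -/
def RK (f : ι → V →ₗ[ℂ] W) (r : ℕ) : Prop :=
  ∃ (s : Type) (_ : Fintype s), Fintype.card s ≤ r ∧
    ∃ (φ : s → V →ₗ[ℂ] ℂ) (w : s → W) (c : s → ι → ℂ), ∀ k v, f k v = ∑ l, (c l k * φ l v) • w l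

theorem RK.mono {f : ι → V →ₗ[ℂ] W} {r r' : ℕ} (h : RK f r) (hr : r ≤ r') : RK f r' := by
  obtain ⟨s, i, h1, h2⟩ := h
  exact ⟨s, i, h1.trans hr, h2⟩

theorem RK.of {f : ι → V →ₗ[ℂ] W} {g : ι' → V' →ₗ[ℂ] W'} {r : ℕ} (h : RK f r) (j : ι' → ι)
    (L : W →ₗ[ℂ] W') (R : V' →ₗ[ℂ] V) (hg : ∀ k v, g k v = L (f (j k) (R v))) : RK g r := by
  obtain ⟨s, i, h1, φ, w, c, h2⟩ := h
  refine ⟨s, i, h1, fun l => φ l ∘ₗ R, fun l => L (w l), fun l k => c l (j k), fun k v => ?_⟩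
  rw [hg, h2]
  simp

theorem RK.re {f : ι → V →ₗ[ℂ] W} {g : ι' → V →ₗ[ℂ] W} {r : ℕ} (h : RK f r) (j : ι' → ι)
    (hg : ∀ k v, g k v = f (j k) v) : RK g r :=
  h.of j LinearMap.id LinearMap.id hg

theorem RK.add {f g u : ι → V →ₗ[ℂ] W} {r r' : ℕ} (h : RK f r) (h' : RK g r')
    (hu : ∀ k v, u k v = f k v + g k v) : RK u (r + r') := by
  obtain ⟨s, i, h1, φ, w, c, h2⟩ := h
  obtain ⟨s', i', h1', φ', w', c', h2'⟩ := h'
  refine ⟨s ⊕ s', inferInstance, by rw [Fintype.card_sum]; omega, Sum.elim φ φ', Sum.elim w w',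
    Sum.elim c c', fun k v => ?_⟩
  rw [hu, h2, h2', Fintype.sum_sum_type]
  rfl

theorem rk_one [Module.Finite ℂ W] (f : V →ₗ[ℂ] W) :
    RK (fun a : ℂ => a • f) (dm (LinearMap.range f)) := by
  let b := Module.finBasis ℂ (LinearMap.range f)
  refine ⟨Fin (finrank ℂ (LinearMap.range f)), inferInstance, by simp [dm],
    fun l => b.coord l ∘ₗ f.rangeRestrict, fun l => b l, fun _ a => a, fun a v => ?_⟩
  have := congrArg Subtype.val (b.sum_repr (f.rangeRestrict v))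
  simp only [Submodule.coe_sum, Submodule.coe_smul, LinearMap.codRestrict_apply,
    LinearMap.rangeRestrict] at this
  simp only [LinearMap.smul_apply, ← smul_smul, ← Finset.smul_sum]
  congr 1
  exact this.symm

/-- Rank of a pencil. -/
def RK2 (P Q : V →ₗ[ℂ] W) (r : ℕ) : Prop := RK (fun p : ℂ × ℂ => p.1 • P + p.2 • Q) r

theorem rk2_of {s : Type} [Fintype s] {P Q : V →ₗ[ℂ] W} (φ : s → V →ₗ[ℂ] ℂ) (w : s → W)
    (α β : s → ℂ) (hP : ∀ v, P v = ∑ l, (α l * φ l v) • w l)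
    (hQ : ∀ v, Q v = ∑ l, (β l * φ l v) • w l) : RK2 P Q (Fintype.card s) := by
  refine ⟨s, inferInstance, le_rfl, φ, w, fun l p => p.1 * α l + p.2 * β l, fun p v => ?_⟩
  simp only [LinearMap.add_apply, LinearMap.smul_apply, hP, hQ, Finset.smul_sum, smul_smul,
    ← Finset.sum_add_distrib, ← add_smul]
  refine Finset.sum_congr rfl fun l _ => ?_
  congr 1
  ring

theorem RK2.of {P Q : V →ₗ[ℂ] W} {P' Q' : V' →ₗ[ℂ] W'} {r : ℕ} (h : RK2 P Q r)
    (L : W →ₗ[ℂ] W') (R : V' →ₗ[ℂ] V) (hP : ∀ v, P' v = L (P (R v)))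
    (hQ : ∀ v, Q' v = L (Q (R v))) : RK2 P' Q' r :=
  RK.of h id L R fun p v => by simp [hP, hQ]

theorem RK2.swap {P Q : V →ₗ[ℂ] W} {r : ℕ} (h : RK2 P Q r) : RK2 Q P r :=
  RK.re h Prod.swap fun p v => by simp [add_comm]

/-- A pencil without Jordan chains is diagonalisable. -/
theorem rk2_diag [Module.Finite ℂ V] [Module.Finite ℂ W] {P Q : V →ₗ[ℂ] W}
    (hd : finrank ℂ V = finrank ℂ W) (hQ : ∀ v, Q v = 0 → v = 0)
    (hJ : ∀ (μ : ℂ) v w, P v + μ • Q v = 0 → P w + μ • Q w = Q v → v = 0) :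
    RK2 P Q (finrank ℂ V) := by
  have hi : Function.Injective Q := LinearMap.ker_eq_bot.1 (LinearMap.ker_eq_bot'.2 hQ)
  let e : V ≃ₗ[ℂ] W := LinearEquiv.ofBijective Q
    ⟨hi, (LinearMap.injective_iff_surjective_of_finrank_eq_finrank hd).1 hi⟩
  let f : Module.End ℂ V := e.symm.toLinearMap ∘ₗ P
  have hf : ∀ v, Q (f v) = P v := fun v => e.apply_symm_apply (P v)
  have h1 : ∀ (μ : ℂ) (k : ℕ) x, ((f - μ • 1) ^ (k + 1)) x = 0 → (f - μ • 1) x = 0 := by
    intro μ k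
    induction k with
    | zero => intro x hx; simpa using hx
    | succ k ih =>
      intro x hx
      rw [pow_succ, Module.End.mul_apply] at hx
      have h2 := ih _ hx
      have h3 : ∀ y, P y + (-μ) • Q y = Q ((f - μ • 1) y) := fun y => by
        simp [hf, sub_eq_add_neg]
      exact hJ (-μ) _ x (by rw [h3, h2, map_zero]) (h3 x)
  have h2 : ⊤ ≤ Submodule.span ℂ {v | ∃ μ : ℂ, f v = μ • v} := by
    rw [← Module.End.iSup_maxGenEigenspace_eq_top f]
    refine iSup_le fun μ x hx => Submodule.subset_span ⟨μ, ?_⟩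
    obtain ⟨k, hk⟩ := (Module.End.mem_maxGenEigenspace f μ x).1 hx
    have := h1 μ k x (by rw [pow_succ', Module.End.mul_apply, hk, map_zero])
    simpa [sub_eq_zero] using this
  obtain ⟨t, ht1, ht2, ht3⟩ := exists_linearIndependent ℂ {v | ∃ μ : ℂ, f v = μ • v}
  have hfin : Finite t := ht3.finite
  have := Fintype.ofFinite t
  let b : Basis t ℂ V := Basis.mk ht3 (by rw [Subtype.range_coe, ht2]; exact h2)
  choose μ hμ using fun l : t => ht1 l.2
  rw [Module.finrank_eq_card_basis b]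
  refine rk2_of (fun l => b.coord l) (fun l => Q (b l)) μ (fun _ => 1) (fun v => ?_) fun v => ?_
  · conv_lhs => rw [← b.sum_repr v]
    rw [map_sum]
    refine Finset.sum_congr rfl fun l _ => ?_
    have : b l = l := Basis.mk_apply _ _ _
    rw [map_smul, ← hf, this, hμ l, map_smul, smul_smul, mul_comm]
    rfl
  · conv_lhs => rw [← b.sum_repr v]
    rw [map_sum]
    refine Finset.sum_congr rfl fun l _ => ?_
    rw [map_smul, one_mul]
    rfl

end Basic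

section Tr

variable {m n ι : Type} [Fintype m] [Fintype n] [DecidableEq m] [DecidableEq n]

theorem RK.tr {f : ι → (n → ℂ) →ₗ[ℂ] (m → ℂ)} {r : ℕ} (h : RK f r) :
    RK (fun k => tr (f k)) r := by
  obtain ⟨s, i, h1, φ, w, c, h2⟩ := h
  refine ⟨s, i, h1, fun l => dotProductEquiv ℂ m (w l), fun l => (dotProductEquiv ℂ n).symm (φ l),
    c, fun k ξ => eq_of_dot fun v => ?_⟩
  rw [tr_dot, h2, dotProduct_sum, sum_dotProduct]
  refine Finset.sum_congr rfl fun l _ => ?_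
  have : (dotProductEquiv ℂ n).symm (φ l) ⬝ᵥ v = φ l v :=
    LinearMap.congr_fun ((dotProductEquiv ℂ n).apply_symm_apply (φ l)) v
  rw [dotProduct_smul, smul_dotProduct, this, smul_eq_mul, smul_eq_mul]
  show _ = c l k * (w l ⬝ᵥ ξ) * _
  rw [dotProduct_comm ξ]
  ring

theorem RK.of_tr {f : ι → (n → ℂ) →ₗ[ℂ] (m → ℂ)} {r : ℕ} (h : RK (fun k => T3.tr (f k)) r) :
    RK f r := by
  have := h.tr
  simpa only [tr_tr] using this

theorem RK2.of_tr {P Q : (n → ℂ) →ₗ[ℂ] (m → ℂ)} {r : ℕ} (h : RK2 (tr P) (tr Q) r) :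
    RK2 P Q r :=
  RK.of_tr (by simpa only [RK2, tr_add, tr_smul] using h)

end Tr

section Border

variable {W : Type} [AddCommGroup W] [Module ℂ W] [Co W] {n : Type} [Fintype n]

theorem two_surj {a b : ℂ} (hab : a ≠ 0 ∨ b ≠ 0) {y : n → ℂ} (hy : y ≠ 0) (w : W) :
    ∃ x : (n → W) × (n → W), a • lin x.1 y + b • lin x.2 y = w := by
  rcases hab with h | h
  · obtain ⟨Φ, _, h2⟩ := exists_cols1 hy (S := ⊤) (w := a⁻¹ • w) trivial
    refine ⟨(Φ, 0), ?_⟩
    simp [h2, lin_apply, smul_smul, mul_inv_cancel₀ h]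
  · obtain ⟨Φ, _, h2⟩ := exists_cols1 hy (S := ⊤) (w := b⁻¹ • w) trivial
    refine ⟨(0, Φ), ?_⟩
    simp [h2, lin_apply, smul_smul, mul_inv_cancel₀ h]

/-- Generic new rows make all members injective. -/
theorem border_rows (P Q : (n → ℂ) →ₗ[ℂ] W) (κ : ℕ)
    (h : ∀ a b : ℂ, a ≠ 0 ∨ b ≠ 0 → dm (LinearMap.ker (a • P + b • Q)) ≤ κ) :
    ∃ C D : (n → ℂ) →ₗ[ℂ] (Fin (κ + 2) → ℂ), ∀ a b : ℂ, a ≠ 0 ∨ b ≠ 0 → ∀ v,
      a • P v + b • Q v = 0 → a • C v + b • D v = 0 → v = 0 := by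
  obtain ⟨E, x, ⟨rP, rQ⟩, hx⟩ := exists_genIn
    (⊤ : Submodule ℂ ((n → Fin (κ + 2) → ℂ) × (n → Fin (κ + 2) → ℂ))) ((ev_rm P).and (ev_rm Q))
  refine ⟨lin x.1, lin x.2, fun a b hab v h1 h2 => ?_⟩
  by_contra hv
  obtain ⟨E1, e1, ha, hb⟩ := ext2 E a b
  obtain ⟨ω, o1, o2, E2, s, e2, o3, o4⟩ := pv1 (D := ℂ ∙ v) (Z := ⊥)
    (RS.ker (((rP.mono e1.le).smul ha).add ((rQ.mono e1.le).smul hb)))
    ((Submodule.span_singleton_le_iff_mem _ _).2 h1)
    fun h => hv (h (Submodule.mem_span_singleton_self v))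
  obtain ⟨c, rfl⟩ := Submodule.mem_span_singleton.1 o1
  have := ((hx.ext e1).ext e2).ga0
    ((((RM.ev o4).comp RM.fst).smul (e2.le ha)).add (((RM.ev o4).comp RM.snd).smul (e2.le hb)))
    RV.zero (T := ⊤) (by
      show a • lin x.1 (c • v) + b • lin x.2 (c • v) = 0
      rw [map_smul, map_smul, smul_comm a, smul_comm b, ← smul_add, h2, smul_zero])
    fun w _ => by
      obtain ⟨z, hz⟩ := two_surj hab o2 w
      exact ⟨z, trivial, hz⟩
  have h3 := h a b hab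
  rw [dm_span_single hv] at o3
  rw [dm_top, Module.finrank_fintype_fun_eq_card, Fintype.card_fin] at this
  omega

/-- Generic new columns make the pencil diagonalisable. -/
theorem border_cols (P Q : (n → ℂ) →ₗ[ℂ] W)
    (h : ∀ a b : ℂ, a ≠ 0 ∨ b ≠ 0 → ∀ v, a • P v + b • Q v = 0 → v = 0) :
    RK2 P Q (finrank ℂ W) := by
  have hle : Fintype.card n ≤ finrank ℂ W := by
    have h1 := dm_range_eq (f := P) fun v hv => h 1 0 (Or.inl one_ne_zero) v (by simp [hv])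
    have h2 := dm_le (LinearMap.range P)
    rw [Module.finrank_fintype_fun_eq_card] at h1
    omega
  obtain ⟨k, hk⟩ := Nat.exists_eq_add_of_le hle
  have hd : finrank ℂ ((n → ℂ) × (Fin k → ℂ)) = finrank ℂ W := by
    rw [Module.finrank_prod, hk]; simp
  obtain ⟨E, x, ⟨rP, rQ⟩, hx⟩ := exists_genIn
    (⊤ : Submodule ℂ ((Fin k → W) × (Fin k → W))) ((ev_rm P).and (ev_rm Q))
  have hQ : ∀ v, Q.coprod (lin x.2) v = 0 → v = 0 := by
    intro v hv
    by_contra hv0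
    obtain ⟨c, hc, E1, s, e1, o1, o2⟩ := pv_norm E hv0
    have hv2 : (c • v).2 ≠ 0 := by
      intro h0
      have h1 : v.2 = 0 := (smul_eq_zero.1 h0).resolve_left hc
      rw [LinearMap.coprod_apply, h1, map_zero, add_zero] at hv
      exact hv0 (Prod.ext (h 0 1 (Or.inr one_ne_zero) _ (by simp [hv])) h1)
    have := (hx.ext e1).ga0 ((RM.ev o2.snd).comp RM.snd) ((rQ.mono e1.le).rv o2.fst).neg (T := ⊤)
      (by
        show lin x.2 (c • v).2 = -Q (c • v).1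
        rw [eq_neg_iff_add_eq_zero, add_comm, ← LinearMap.coprod_apply, map_smul, hv, smul_zero])
      fun w _ => by
        obtain ⟨Φ, _, h2⟩ := exists_cols1 hv2 (S := ⊤) (w := w) trivial
        exact ⟨(0, Φ), trivial, h2⟩
    rw [dm_top] at this
    omega
  have key := rk2_diag (P := P.coprod (lin x.1)) hd hQ fun μ v w h1 h2 => by
    by_contra hv0
    obtain ⟨E1, e1, hμ⟩ := ext1 E μ
    let M := P.coprod (lin x.1) + μ • Q.coprod (lin x.2)
    let D : Submodule ℂ (((n → ℂ) × (Fin k → ℂ)) × ((n → ℂ) × (Fin k → ℂ))) :=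
      LinearMap.ker ((M ∘ₗ LinearMap.fst ℂ _ _).prod
        (M ∘ₗ LinearMap.snd ℂ _ _ - Q.coprod (lin x.2) ∘ₗ LinearMap.fst ℂ _ _))
    have mD : ∀ z, z ∈ D ↔ M z.1 = 0 ∧ M z.2 - Q.coprod (lin x.2) z.1 = 0 := fun z => Prod.ext_iff
    have m1 : (v, w) ∈ D := (mD _).2 ⟨h1, sub_eq_zero.2 h2⟩
    have m2 : (0, v) ∈ D := (mD _).2 ⟨map_zero _, by rw [map_zero, sub_zero]; exact h1⟩
    have d2 : 2 ≤ dm D := by
      have a1 : dm (ℂ ∙ ((0 : (n → ℂ) × (Fin k → ℂ)), v)) < dm D :=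
        dm_lt ((Submodule.span_singleton_le_iff_mem _ _).2 m2) m1 fun hm => by
          obtain ⟨a, ha⟩ := Submodule.mem_span_singleton.1 hm
          exact hv0 (by simpa using (Prod.ext_iff.1 ha).1.symm)
      rw [dm_span_single fun h0 => hv0 (Prod.ext_iff.1 h0).2] at a1
      omega
    obtain ⟨ω, o1, o2, E2, s, e2, o3, o4⟩ := pv1 (D := D)
      (Z := LinearMap.ker (LinearMap.snd ℂ _ _ ∘ₗ LinearMap.fst ℂ _ _)) (RS.top (E := E1)) le_top
      fun hle => by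
        have h3 : v.2 = 0 := hle m1
        simp only [LinearMap.coprod_apply, h3, map_zero, add_zero] at h1
        exact hv0 (Prod.ext (h 1 μ (Or.inl one_ne_zero) _ (by rw [one_smul]; exact h1)) h3)
    obtain ⟨q1, q2⟩ := (mD ω).1 o1
    have hμ2 := e2.le hμ
    have r1 := (rP.mono e1.le).mono e2.le
    have r2 := (rQ.mono e1.le).mono e2.le
    have := ((hx.ext e1).ext e2).ga0
      ((((RM.ev o4.fst.snd).comp RM.fst).add (((RM.ev o4.fst.snd).comp RM.snd).smul hμ2)).prod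
        ((((RM.ev o4.snd.snd).comp RM.fst).add (((RM.ev o4.snd.snd).comp RM.snd).smul hμ2)).sub
          ((RM.ev o4.fst.snd).comp RM.snd)))
      (((r1.rv o4.fst.fst).add ((r2.rv o4.fst.fst).smul hμ2)).neg.mk
        ((r2.rv o4.fst.fst).sub ((r1.rv o4.snd.fst).add ((r2.rv o4.snd.fst).smul hμ2)))) (T := ⊤)
      (by
        simp only [M, LinearMap.add_apply, LinearMap.smul_apply, LinearMap.coprod_apply] at q1 q2
        refine Prod.ext ?_ ?_
        · show lin x.1 ω.1.2 + μ • lin x.2 ω.1.2 = -(P ω.1.1 + μ • Q ω.1.1)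
          linear_combination (norm := module) q1
        · show lin x.1 ω.2.2 + μ • lin x.2 ω.2.2 - lin x.2 ω.1.2 =
            Q ω.1.1 - (P ω.2.1 + μ • Q ω.2.1)
          linear_combination (norm := module) q2)
      fun z _ => by
        obtain ⟨Φ, _, h3⟩ := exists_cols1 (y := ω.1.2) o2 (S := ⊤) (w := z.1) trivial
        obtain ⟨Ψ, _, h4⟩ := exists_cols1 (y := ω.1.2) o2 (S := ⊤) (w := lin Φ ω.2.2 - z.2) trivial
        refine ⟨(Φ - μ • Ψ, Ψ), trivial, Prod.ext ?_ ?_⟩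
        · show ev ω.1.2 (Φ - μ • Ψ) + μ • ev ω.1.2 Ψ = z.1
          rw [map_sub, map_smul, sub_add_cancel, ev_apply, h3]
        · show ev ω.2.2 (Φ - μ • Ψ) + μ • ev ω.2.2 Ψ - ev ω.1.2 Ψ = z.2
          rw [map_sub, map_smul, sub_add_cancel, ev_apply, ev_apply, h4, sub_sub_cancel]
    rw [dm_top, Module.finrank_prod] at this o3
    omega
  rw [hd] at key
  exact key.of LinearMap.id (LinearMap.inl ℂ _ _) (fun v => by simp) fun v => by simp

theorem pt_core (P Q : (n → ℂ) →ₗ[ℂ] W) (κ : ℕ)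
    (h : ∀ a b : ℂ, a ≠ 0 ∨ b ≠ 0 → dm (LinearMap.ker (a • P + b • Q)) ≤ κ) :
    RK2 P Q (finrank ℂ W + κ + 2) := by
  obtain ⟨C, D, hCD⟩ := border_rows P Q κ h
  have := border_cols (P.prod C) (Q.prod D) fun a b hab v hv =>
    hCD a b hab v (Prod.ext_iff.1 hv).1 (Prod.ext_iff.1 hv).2
  rw [Module.finrank_prod, Module.finrank_fintype_fun_eq_card, Fintype.card_fin] at this
  exact this.of (LinearMap.fst ℂ _ _) LinearMap.id (fun _ => rfl) fun _ => rfl

end Border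

end Pool.Agent.P.MP_098a67_ag.T3
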