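import Pool.Agent.P.MP_098a67_ag.T3.GL

namespace Pool.Agent.P.MP_098a67_ag.T3

open Module
open LinearMap (ker range)

variable {V W Y κ κ' : Type} [AddCommGroup V] [Module ℂ V] [Co V] [AddCommGroup W] [Module ℂ W]
  [Co W] [AddCommGroup Y] [Module ℂ Y] [Co Y] [Fintype κ] [Fintype κ'] {E : Subfield ℂ} {s : ℕ}

theorem GenIn.swap {x : V} {y : W} {S : Submodule ℂ V} {T : Submodule ℂ W}
    (h : GenIn E (x, y) (S.prod T) s) : GenIn E (y, x) (T.prod S) s := by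
  refine ⟨⟨h.1.2, h.1.1⟩, fun π hπ v hv => ?_, fun E' m e r => ?_⟩
  · have := h.2.1 π hπ (v.2, v.1) ⟨hv.2, hv.1⟩
    exact ⟨this.2, this.1⟩
  · have := h.2.2 E' m e (r.snd.mk r.fst)
    rw [dm_prod] at this ⊢
    omega

theorem GenIn.fst {x : V} {y : W} {S : Submodule ℂ V} {T : Submodule ℂ W}
    (h : GenIn E (x, y) (S.prod T) s) : GenIn E x S s := by
  refine ⟨h.1.1, fun π hπ v hv => (h.2.1 π hπ (v, 0) ⟨hv, T.zero_mem⟩).1, fun E' m e r => ?_⟩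
  have rT : RS E T := fun π hπ v hv => (h.2.1 π hπ (0, v) ⟨S.zero_mem, hv⟩).2
  obtain ⟨E2, e2, r2⟩ := cost (rT.mono e.le) (x := y) RV.zero (by rw [sub_zero]; exact h.1.2)
  have := h.2.2 E2 _ (e.trans e2) ((r.mono e2.le).mk r2)
  rw [dm_prod] at this
  omega

theorem GenIn.snd {x : V} {y : W} {S : Submodule ℂ V} {T : Submodule ℂ W}
    (h : GenIn E (x, y) (S.prod T) s) : GenIn E y T s := h.swap.fst

variable {Φ : κ → V} {Ψ : κ' → V} {S S' : Submodule ℂ V}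

theorem gm (h : GenIn E Φ (cols κ S) s) {f : V →ₗ[ℂ] W} (rf : RM E f) {ν : Y →ₗ[ℂ] (κ → ℂ)}
    (rν : RM E ν) {ρ : Y →ₗ[ℂ] W} (rρ : RM E ρ) {C : Submodule ℂ W} (rC : RS E C)
    {Ω D : Submodule ℂ Y} (rΩ : RS E Ω) (hD : D ≤ Ω) (hm : ∀ ω ∈ D, f (lin Φ (ν ω)) - ρ ω ∈ C)
    (h0 : ¬ D ≤ ker ν) : dm (S.map f ⊔ C) + dm D ≤ dm C + s + dm Ω := by
  obtain ⟨ω, o1, o2, E1, s1, e1, o3, o4⟩ := pv1 rΩ hD h0
  have := g0 (h.ext e1) (rf.mono e1.le) (rC.mono e1.le) ((rν.mono e1.le).rv o4) o2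
    ((rρ.mono e1.le).rv o4) (hm ω o1)
  omega

theorem gj (h : GenIn E (Φ, Ψ) ((cols κ S).prod (cols κ' S')) s) {f g : V →ₗ[ℂ] W} (rf : RM E f)
    (rg : RM E g) {C : Submodule ℂ W} (rC : RS E C) {y : κ → ℂ} {z : κ' → ℂ} (ry : RV E y)
    (rz : RV E z) (hy : y ≠ 0) (hz : z ≠ 0) {ρ : W} (rρ : RV E ρ)
    (hm : f (lin Φ y) + g (lin Ψ z) - ρ ∈ C) : dm (S.map f ⊔ S'.map g ⊔ C) ≤ dm C + s :=
  h.ga ((rf.comp ((RM.ev ry).comp RM.fst)).add (rg.comp ((RM.ev rz).comp RM.snd))) rC rρ hm (by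
    intro w hw
    obtain ⟨_, ⟨a, ha, rfl⟩, _, ⟨b, hb, rfl⟩, rfl⟩ := Submodule.mem_sup.1 hw
    obtain ⟨A, h1, h2⟩ := exists_cols1 hy ha
    obtain ⟨B, h3, h4⟩ := exists_cols1 hz hb
    exact ⟨(A, B), ⟨h1, h3⟩, by rw [← h2, ← h4]; rfl⟩)

theorem gm2 (h : GenIn E (Φ, Ψ) ((cols κ S).prod (cols κ' S')) s) {f g : V →ₗ[ℂ] W}
    (rf : RM E f) (rg : RM E g) {ν : Y →ₗ[ℂ] (κ → ℂ)} (rν : RM E ν) {μ : Y →ₗ[ℂ] (κ' → ℂ)}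
    (rμ : RM E μ) {ρ : Y →ₗ[ℂ] W} (rρ : RM E ρ) {C : Submodule ℂ W} (rC : RS E C)
    {Ω D : Submodule ℂ Y} (rΩ : RS E Ω) (hD : D ≤ Ω)
    (hm : ∀ ω ∈ D, f (lin Φ (ν ω)) + g (lin Ψ (μ ω)) - ρ ω ∈ C)
    (h0 : ¬ D ≤ ker ν) (h1 : ¬ D ≤ ker μ) :
    dm (S.map f ⊔ S'.map g ⊔ C) + dm D ≤ dm C + s + dm Ω := by
  obtain ⟨ω, o1, o2, o2', E1, s1, e1, o3, o4⟩ := pv2 rΩ hD h0 h1
  have := gj (h.ext e1) (rf.mono e1.le) (rg.mono e1.le) (rC.mono e1.le) ((rν.mono e1.le).rv o4)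
    ((rμ.mono e1.le).rv o4) o2 o2' ((rρ.mono e1.le).rv o4) (hm ω o1)
  omega

theorem gf2 {n : Type} [Fintype n] [DecidableEq n] {Φ : κ → n → ℂ} {Ψ : κ' → n → ℂ}
    {S S' : Submodule ℂ (n → ℂ)} (h : GenIn E (Φ, Ψ) ((cols κ S).prod (cols κ' S')) s)
    {f g : W →ₗ[ℂ] (n → ℂ)} (rf : RM E f) (rg : RM E g) {Ω D : Submodule ℂ W} (rΩ : RS E Ω)
    (hD : D ≤ Ω) (h2 : ∀ η ∈ D, f η ∈ perp (range (lin Φ)))
    (h3 : ∀ η ∈ D, g η ∈ perp (range (lin Ψ))) (h0 : ¬ D ≤ (perp S).comap f)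
    (h1 : ¬ D ≤ (perp S').comap g) : dm D + Fintype.card κ + Fintype.card κ' ≤ dm Ω + s := by
  obtain ⟨η, o1, o2, o2', E1, s1, e1, o3, o4⟩ := pv2 rΩ hD h0 h1
  have := (h.ext e1).ga0 (((RM.pairC ((rf.mono e1.le).rv o4)).comp RM.fst).prod
    ((RM.pairC ((rg.mono e1.le).rv o4)).comp RM.snd)) RV.zero
    (Prod.ext (pairC_eq_zero (h2 η o1)) (pairC_eq_zero (h3 η o1))) (T := ⊤) fun z _ => by
      obtain ⟨A, a1, a2⟩ := pairC_surj o2 z.1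
      obtain ⟨B, b1, b2⟩ := pairC_surj o2' z.2
      exact ⟨(A, B), ⟨a1, b1⟩, Prod.ext a2 b2⟩
  rw [dm_top, Module.finrank_prod, card_fun, card_fun] at this
  omega

end Pool.Agent.P.MP_098a67_ag.T3
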