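import Pool.Agent.P.MP_098a67_ag.T3.Gen

namespace Pool.Agent.P.MP_098a67_ag.T3

open Module

variable {V W κ : Type} [AddCommGroup V] [Module ℂ V] [Co V] [AddCommGroup W] [Module ℂ W] [Co W]
  [Fintype κ] {E : Subfield ℂ} {Φ : κ → V} {S : Submodule ℂ V} {s : ℕ}

theorem card_fun : finrank ℂ (κ → ℂ) = Fintype.card κ := Module.finrank_fintype_fun_eq_card ℂ

/-- One rational coefficient vector. -/
theorem g0 (h : GenIn E Φ (cols κ S) s) {f : V →ₗ[ℂ] W} (rf : RM E f) {D : Submodule ℂ W}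
    (rD : RS E D) {y : κ → ℂ} (ry : RV E y) (hy : y ≠ 0) {ρ : W} (rρ : RV E ρ)
    (hm : f (lin Φ y) - ρ ∈ D) : dm (S.map f ⊔ D) ≤ dm D + s :=
  h.ga (rf.comp (RM.ev ry)) rD rρ hm (by
    rintro _ ⟨w, hw, rfl⟩
    obtain ⟨Ψ, h1, h2⟩ := exists_cols1 hy hw
    exact ⟨Ψ, h1, by rw [← h2]; rfl⟩)

/-- The coefficient vectors mapped into a rational subspace. -/
theorem g1 (h : GenIn E Φ (cols κ S) s) {f : V →ₗ[ℂ] W} (rf : RM E f) {D : Submodule ℂ W}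
    (rD : RS E D) : dm (D.comap (f ∘ₗ lin Φ)) = 0 ∨
      dm (S.map f ⊔ D) + dm (D.comap (f ∘ₗ lin Φ)) ≤ dm D + s + Fintype.card κ := by
  by_cases h0 : D.comap (f ∘ₗ lin Φ) ≤ ⊥
  · exact Or.inl (dm_zero h0)
  · right
    obtain ⟨y, o1, o2, E1, s1, e1, o3, o4⟩ := pv1 (RS.top (E := E)) le_top h0
    have := g0 (h.ext e1) (rf.mono e1.le) (rD.mono e1.le) o4 o2 RV.zero
      (by rw [sub_zero]; exact o1)
    rw [dm_top, card_fun] at o3
    omega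

theorem g1e (h : GenIn E Φ (cols κ S) s) {f : V →ₗ[ℂ] W} (rf : RM E f) {D : Submodule ℂ W}
    (rD : RS E D) {y : κ → ℂ} (hm : f (lin Φ y) ∈ D)
    (hd : dm D + s + Fintype.card κ ≤ dm (S.map f ⊔ D)) : y = 0 := by
  have : dm (D.comap (f ∘ₗ lin Φ)) = 0 := by
    rcases g1 h rf rD with h1 | h1 <;> omega
  have h2 : y ∈ D.comap (f ∘ₗ lin Φ) := hm
  rwa [dm_eq_zero.1 this] at h2

/-- Two rational coefficient vectors. -/
theorem g2 (h : GenIn E Φ (cols κ S) s) {f g : V →ₗ[ℂ] W} (rf : RM E f) (rg : RM E g)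
    {D : Submodule ℂ W} (rD : RS E D) {y z : κ → ℂ} (ry : RV E y) (rz : RV E z) (hy : y ∉ ℂ ∙ z)
    (hm : f (lin Φ y) + g (lin Φ z) ∈ D) : dm (S.map f ⊔ D) ≤ dm D + s :=
  h.ga ((rf.comp (RM.ev ry)).add (rg.comp (RM.ev rz))) rD RV.zero (by rw [sub_zero]; exact hm) (by
    rintro _ ⟨w, hw, rfl⟩
    obtain ⟨Ψ, h1, h2, h3⟩ := exists_cols hy hw
    refine ⟨Ψ, h1, ?_⟩
    show f (lin Ψ y) + g (lin Ψ z) = f w
    rw [h2, h3 z (Submodule.mem_span_singleton_self z), map_zero, add_zero])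

theorem g2' (h : GenIn E Φ (cols κ S) s) {f g : V →ₗ[ℂ] W} (rf : RM E f) (rg : RM E g)
    {D : Submodule ℂ W} (rD : RS E D) {y z : κ → ℂ} (hm : f (lin Φ y) + g (lin Φ z) ∈ D)
    (hd : dm D + s + 2 * Fintype.card κ < dm (S.map f)) : ∃ a : ℂ, a • z = y := by
  by_contra hy
  obtain ⟨E1, e1, ry⟩ := ext_vec E y
  obtain ⟨E2, e2, rz⟩ := ext_vec E1 z
  have l := e1.le.trans e2.le
  have a1 := g2 ((h.ext e1).ext e2) (rf.mono l) (rg.mono l) (rD.mono l) (ry.mono e2.le) rz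
    (fun hm => hy (Submodule.mem_span_singleton.1 hm)) hm
  have a2 := dm_mono (le_sup_left : S.map f ≤ S.map f ⊔ D)
  omega

/-- Three coefficient vectors. -/
theorem g3' (h : GenIn E Φ (cols κ S) s) {f g k : V →ₗ[ℂ] W} (rf : RM E f) (rg : RM E g)
    (rk : RM E k) {y z u : κ → ℂ} (hm : f (lin Φ y) + g (lin Φ z) + k (lin Φ u) = 0)
    (hd : s + 3 * Fintype.card κ < dm (S.map f)) : ∃ a b : ℂ, a • z + b • u = y := by
  by_contra hy
  obtain ⟨E1, e1, ry⟩ := ext_vec E y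
  obtain ⟨E2, e2, rz⟩ := ext_vec E1 z
  obtain ⟨E3, e3, ru⟩ := ext_vec E2 u
  have l := (e1.le.trans e2.le).trans e3.le
  have a1 := (((h.ext e1).ext e2).ext e3).ga0
    ((((rf.mono l).comp (RM.ev ((ry.mono e2.le).mono e3.le))).add
      ((rg.mono l).comp (RM.ev (rz.mono e3.le)))).add ((rk.mono l).comp (RM.ev ru))) RV.zero hm
    (T := S.map f) (by
      rintro _ ⟨w, hw, rfl⟩
      obtain ⟨Ψ, h1, h2, h3⟩ := exists_cols (y := y) (Z := Submodule.span ℂ {z, u})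
        (fun hm => hy (Submodule.mem_span_pair.1 hm)) hw
      refine ⟨Ψ, h1, ?_⟩
      show f (lin Ψ y) + g (lin Ψ z) + k (lin Ψ u) = f w
      rw [h2, h3 z (Submodule.subset_span (by simp)), h3 u (Submodule.subset_span (by simp)),
        map_zero, map_zero, add_zero, add_zero])
  omega

section Dot

variable {n : Type} [Fintype n] [DecidableEq n]

/-- Pairing of a vector with all columns. -/
noncomputable def pairC (κ : Type) (η : n → ℂ) : (κ → n → ℂ) →ₗ[ℂ] (κ → ℂ) :=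
  (dotProductEquiv ℂ n η).compLeft κ

theorem pairC_apply (η : n → ℂ) (Φ : κ → n → ℂ) (j : κ) : pairC κ η Φ j = η ⬝ᵥ Φ j := rfl

theorem RM.pairC {η : n → ℂ} (h : RV E η) : RM E (pairC κ η) := fun π hπ Φ => by
  ext j
  show π (∑ i, η i * Φ j i) = ∑ i, η i * π (Φ j i)
  rw [map_sum]
  exact Finset.sum_congr rfl fun i _ => hπ _ (rv_C.1 (rv_pi.1 h i)) _

theorem pairC_eq_zero {η : n → ℂ} {Φ : κ → n → ℂ} (h : η ∈ perp (LinearMap.range (lin Φ))) :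
    pairC κ η Φ = 0 := by
  classical
  ext j
  exact h _ ⟨Pi.single j 1, by simp [lin]⟩

theorem pairC_surj {η : n → ℂ} {S : Submodule ℂ (n → ℂ)} (h : η ∉ perp S) (z : κ → ℂ) :
    ∃ Ψ ∈ cols κ S, pairC κ η Ψ = z := by
  have : ∃ w ∈ S, η ⬝ᵥ w ≠ 0 := by
    by_contra hc
    exact h fun w hw => by_contra fun h0 => hc ⟨w, hw, h0⟩
  obtain ⟨w, hw, h0⟩ := this
  refine ⟨fun j => (z j * (η ⬝ᵥ w)⁻¹) • w, mem_cols.2 fun j => S.smul_mem _ hw, ?_⟩
  ext j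
  rw [pairC_apply, dotProduct_smul, smul_eq_mul, mul_assoc, inv_mul_cancel₀ h0, mul_one]

/-- A rational vector orthogonal to generic columns. -/
theorem gf0 {Φ : κ → n → ℂ} {S : Submodule ℂ (n → ℂ)} (h : GenIn E Φ (cols κ S) s)
    {η : n → ℂ} (rη : RV E η) (h1 : η ∉ perp S) (h2 : η ∈ perp (LinearMap.range (lin Φ))) :
    Fintype.card κ ≤ s := by
  have := h.ga0 (RM.pairC rη) RV.zero (pairC_eq_zero h2) (T := ⊤) fun z _ => pairC_surj h1 z
  rwa [dm_top, card_fun] at this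

/-- Vectors whose image is orthogonal to generic columns. -/
theorem gf {Φ : κ → n → ℂ} {S : Submodule ℂ (n → ℂ)} (h : GenIn E Φ (cols κ S) s)
    {g : W →ₗ[ℂ] (n → ℂ)} (rg : RM E g) {Ω D : Submodule ℂ W} (rΩ : RS E Ω) (hD : D ≤ Ω)
    (h2 : ∀ η ∈ D, g η ∈ perp (LinearMap.range (lin Φ))) :
    D ≤ (perp S).comap g ∨ dm D + Fintype.card κ ≤ dm Ω + s := by
  by_cases h0 : D ≤ (perp S).comap g
  · exact Or.inl h0
  · right
    obtain ⟨η, o1, o2, E1, s1, e1, o3, o4⟩ := pv1 rΩ hD h0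
    have := gf0 (h.ext e1) ((rg.mono e1.le).rv o4) o2 (h2 η o1)
    omega

theorem perp_top : perp (⊤ : Submodule ℂ (n → ℂ)) = ⊥ :=
  dm_eq_zero.1 (by
    have := dm_perp (⊤ : Submodule ℂ (n → ℂ))
    rw [dm_top, card_fun] at this
    omega)

end Dot

end Pool.Agent.P.MP_098a67_ag.T3
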