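import Pool.Agent.P.MP_098a67_ag.T3.LemA
import Pool.Agent.P.MP_098a67_ag.T3.GL

namespace Pool.Agent.P.MP_098a67_ag.T3

open Module
open LinearMap (ker range)

section

variable {V W : Type} [AddCommGroup V] [Module ℂ V] [AddCommGroup W] [Module ℂ W]

theorem rk3_free {S P Q Y1 Y2 : V →ₗ[ℂ] W} {ρ r : ℕ} (h1 : RK3 S Y1 Y2 ρ)
    (h2 : RK2 (P - Y1) (Q - Y2) r) : RK3 S P Q (ρ + r) := by
  refine RK.add h1 (h2.re (g := fun x : ℂ × ℂ × ℂ => x.2.1 • (P - Y1) + x.2.2 • (Q - Y2))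
    Prod.snd fun _ _ => rfl) fun x v => ?_
  simp only [LinearMap.add_apply, LinearMap.smul_apply, LinearMap.sub_apply]
  module

theorem rk3_first [Module.Finite ℂ W] {A B P Q : V →ₗ[ℂ] W} {k r : ℕ}
    (h1 : dm (range (A - B)) ≤ k) (h2 : RK3 B P Q r) : RK3 A P Q (k + r) := by
  refine RK.add (((rk_one (A - B)).mono h1).re (g := fun x : ℂ × ℂ × ℂ => x.1 • (A - B))
    Prod.fst fun _ _ => rfl) h2 fun x v => ?_
  simp only [LinearMap.add_apply, LinearMap.smul_apply, LinearMap.sub_apply]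
  module

theorem case0 [Module.Finite ℂ V] (S P Q : V →ₗ[ℂ] V) (h : ℕ) (hn : finrank ℂ V = 4 * h)
    (hS : dm (range S) ≤ h) : RK3 S P Q (7 * h + 1) := by
  have h2 : RK3 0 P Q (6 * h + 1) := (rk2_square P Q h hn).re Prod.snd fun x v => by simp
  exact RK.mono (rk3_first (B := 0) (k := h) (by rwa [sub_zero]) h2) (by omega)

end

variable {n : Type} [Fintype n] [DecidableEq n]

theorem gen_rank {E : Subfield ℂ} {h : ℕ} {G : Fin h → n → ℂ}
    (hG : GenIn E G (cols (Fin h) ⊤) 0) {S P : (n → ℂ) →ₗ[ℂ] (n → ℂ)} (rS : RM E S) (rP : RM E P)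
    {a b : ℂ} (hr : h ≤ dm (range (a • S + b • P))) :
    h ≤ dm ((range (lin G)).map (a • S + b • P)) + 2 := by
  obtain ⟨E1, e1, ha, hb⟩ := ext2 E a b
  have a1 := g1 (hG.ext e1) (((rS.mono e1.le).smul ha).add ((rP.mono e1.le).smul hb)) RS.bot
  have a2 := dm_range_ker ((a • S + b • P) ∘ₗ lin G)
  rw [LinearMap.range_comp, card_fun, Fintype.card_fin] at a2
  rw [Submodule.comap_bot, sup_bot_eq, ← LinearMap.range_eq_map, dm_bot, Fintype.card_fin] at a1
  omega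

theorem lemC (A S P : (n → ℂ) →ₗ[ℂ] (n → ℂ)) (h : ℕ) (hn : Fintype.card n = 4 * h)
    (K Ξ : Submodule ℂ (n → ℂ)) (hK : ∀ v ∈ K, S v = 0 ∧ P v = 0) (dK : dm K = h)
    (hΞ : ∀ ξ ∈ Ξ, tr S ξ = 0 ∧ tr P ξ = 0) (dΞ : dm Ξ = h) (hA : ∀ ξ ∈ Ξ, tr A ξ = 0 → ξ = 0)
    (hr : ∀ a b : ℂ, a ≠ 0 ∨ b ≠ 0 → h ≤ dm (range (a • S + b • P))) :
    RK3 A S P (7 * h + 6) := by
  obtain ⟨E, Gc, ⟨⟨⟨rA, rS⟩, rP⟩, rΞ⟩, hc⟩ := exists_genIn (cols (Fin h) (⊤ : Submodule ℂ (n → ℂ)))
    ((((ev_rm A).and (ev_rm S)).and (ev_rm P)).and (ev_rs (perp Ξ)))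
  have pΞ := dm_perp Ξ
  have c1 : ∀ y, A (lin Gc y) ∈ perp Ξ → y = 0 := fun y hy => g1e hc rA rΞ hy (by
    rw [← LinearMap.range_eq_map, eq_top_of_perp (S := range A ⊔ perp Ξ) fun ξ hξ => by
      rw [perp_sup, perp_perp, perp_range] at hξ
      exact hA ξ hξ.2 hξ.1, dm_top, card_fun, Fintype.card_fin]
    omega)
  have c2 : dm ((K ⊔ range (lin Gc)).map A ⊓ perp Ξ) ≤ h := by
    have a1 := dm_sup_inf ((K ⊔ range (lin Gc)).map A) (perp Ξ)
    have a2 := dm_map_le A (K ⊔ range (lin Gc))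
    have a3 := dm_sup_le K (range (lin Gc))
    have a4 := dm_range_le (lin Gc)
    have a5 : dm (range (A ∘ₗ lin Gc) ⊔ perp Ξ) ≤ dm ((K ⊔ range (lin Gc)).map A ⊔ perp Ξ) := by
      rw [LinearMap.range_comp]
      exact dm_mono (sup_le_sup_right (Submodule.map_mono le_sup_right) _)
    rw [dm_sup_eq (by rintro _ ⟨y, rfl⟩ hy; rw [c1 y hy, map_zero]),
      dm_range_eq (f := A ∘ₗ lin Gc) fun y hy => c1 y (by
        rw [show A (lin Gc y) = 0 from hy]; exact Submodule.zero_mem _)] at a5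
    rw [card_fun, Fintype.card_fin] at a4 a5
    omega
  obtain ⟨E', Gr, ⟨⟨rS', rP'⟩, rT⟩, hg⟩ := exists_genIn (cols (Fin h) (⊤ : Submodule ℂ (n → ℂ)))
    (((ev_rm (tr S)).and (ev_rm (tr P))).and (ev_rs ((K ⊔ range (lin Gc)).map A ⊓ perp Ξ)))
  have r1 : ∀ v ∈ perp Ξ ⊓ perp (range (lin Gr)), v ∈ (K ⊔ range (lin Gc)).map A → v = 0 := by
    intro v h1 h2
    have hv : v ∈ ((K ⊔ range (lin Gc)).map A ⊓ perp Ξ) ⊓ perp (range (lin Gr)) := ⟨⟨h2, h1.1⟩, h1.2⟩
    rcases gf hg RM.id rT (D := ((K ⊔ range (lin Gc)).map A ⊓ perp Ξ) ⊓ perp (range (lin Gr)))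
      inf_le_left (fun η hη => hη.2) with h3 | h3
    · have := h3 hv
      rwa [perp_top] at this
    · rw [Fintype.card_fin] at h3
      rwa [dm_eq_zero.1 (Nat.le_zero.1 (by omega) :
        dm (((K ⊔ range (lin Gc)).map A ⊓ perp Ξ) ⊓ perp (range (lin Gr))) = 0)] at hv
  obtain ⟨π, p1, p2, p3⟩ := exists_proj r1
  have rk1 : dm (range (A - π ∘ₗ A)) ≤ 2 * h := by
    have a1 : range (A - π ∘ₗ A) ≤ range (LinearMap.id - π) := by
      rintro _ ⟨v, rfl⟩
      exact ⟨A v, rfl⟩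
    have a2 := dm_range_ker (LinearMap.id - π)
    have a3 : dm (perp Ξ ⊓ perp (range (lin Gr))) ≤ dm (ker (LinearMap.id - π)) :=
      dm_mono fun v hv => sub_eq_zero.2 (p1 v hv).symm
    have a4 := dm_inf_ge (perp Ξ) (perp (range (lin Gr)))
    have a5 := dm_perp (range (lin Gr))
    have a6 := dm_range_le (lin Gr)
    have a7 := dm_mono a1
    rw [card_fun] at a2 a4 a6
    rw [Fintype.card_fin] at a6
    omega
  obtain ⟨E2, Y1, Y2, ⟨s1, s2⟩, y1, y2, y3, y4⟩ := lemA (π ∘ₗ A) ((ev_rm S).and (ev_rm P))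
  have hρ := dm_range_ker (π ∘ₗ A)
  rw [card_fun] at hρ
  have hin : range (π ∘ₗ A) ≤ perp Ξ ⊓ perp (range (lin Gr)) := by
    rintro _ ⟨v, rfl⟩
    exact p3 _
  have hker : K ⊔ range (lin Gc) ≤ ker (π ∘ₗ A) := fun v hv => p2 _ ⟨v, hv, rfl⟩
  have hρ2 : dm (range (π ∘ₗ A)) ≤ 3 * h := by
    have := dm_mono (hin.trans inf_le_left)
    omega
  have key : RK2 (S - Y1) (P - Y2) (5 * h + 6 - dm (range (π ∘ₗ A))) := by
    refine pt0 _ _ (perp Ξ) K (3 * h + 4 - dm (range (π ∘ₗ A))) _ (fun v => ?_) (fun v => ?_)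
      (fun u hu => ?_) (fun a b hab => ?_) (by omega)
    · refine Submodule.sub_mem _ (fun ξ hξ => ?_) (hin (y3 v).1).1
      rw [dotProduct_comm, ← tr_dot, (hΞ ξ hξ).1, zero_dotProduct]
    · refine Submodule.sub_mem _ (fun ξ hξ => ?_) (hin (y3 v).2).1
      rw [dotProduct_comm, ← tr_dot, (hΞ ξ hξ).2, zero_dotProduct]
    · have := y2 u (hker (Submodule.mem_sup_left hu))
      simp [(hK u hu).1, (hK u hu).2, this.1, this.2]
    · obtain ⟨E3, e3, ha, hb⟩ := ext2 E2 a b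
      rcases y4 E3 2 a b e3 ha hb hab (n → ℂ) LinearMap.id (a • S + b • P) ⊤
        (ker (a • (S - Y1) + b • (P - Y2))) RM.id
        (((s1.mono e3.le).smul ha).add ((s2.mono e3.le).smul hb)) RS.top le_top (fun x hx => by
          have : a • (S x - Y1 x) + b • (P x - Y2 x) = 0 := hx
          show a • S x + b • P x = a • Y1 x + b • Y2 x
          linear_combination (norm := module) this) with h1 | h1
      · have a1 := dm_map_ker (a • S + b • P) (ker (π ∘ₗ A))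
        have a2 := gen_rank hc rS rP (hr a b hab)
        have a3 := dm_mono (Submodule.map_mono (f := a • S + b • P) (le_sup_right.trans hker))
        rw [top_inf_eq, LinearMap.comp_id] at h1
        omega
      · have a1 := dm_perp ((perp (range (lin Gr))).comap (a • S + b • P))
        have a2 := gen_rank hg rS' rP' (a := a) (b := b) (by
          rw [← tr_smul, ← tr_smul, ← tr_add, dm_range_tr]; exact hr a b hab)
        have a3 := dm_mono (Submodule.comap_mono (f := a • S + b • P) (hin.trans inf_le_right))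
        rw [perp_comap, perp_perp, tr_add, tr_smul, tr_smul] at a1
        rw [top_inf_eq] at h1
        omega
  exact RK.mono (rk3_first rk1 (rk3_free y1 key)) (by omega)

theorem two_images {V : Type} [AddCommGroup V] [Module ℂ V] [Module.Finite ℂ V]
    (P Q : V →ₗ[ℂ] V) (N : Submodule ℂ V) (hc : ∀ v ∈ N, P v = 0 → Q v = 0 → v = 0) :
    dm N ≤ 2 * dm (N.map P ⊔ (N ⊓ ker P).map Q) := by
  have a1 := dm_map_ker P N
  have a2 := dm_map_eq (f := Q) (S := N ⊓ ker P) fun v hv h0 => hc v hv.1 hv.2 h0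
  have a3 := dm_mono (le_sup_left : N.map P ≤ N.map P ⊔ (N ⊓ ker P).map Q)
  have a4 := dm_mono (le_sup_right : (N ⊓ ker P).map Q ≤ N.map P ⊔ (N ⊓ ker P).map Q)
  omega

theorem caseI (S P Q : (n → ℂ) →ₗ[ℂ] (n → ℂ)) (h : ℕ) (hn : Fintype.card n = 4 * h)
    (hc : 2 * h ≤ dm (ker S))
    (hk : ∀ a b : ℂ, b ≠ 0 → dm (ker S ⊓ ker (a • P + b • Q)) + h ≤ dm (ker S))
    (hl : ∀ a b : ℂ, a ≠ 0 → dm (ker (tr S) ⊓ ker (tr (a • P + b • Q))) + h ≤ dm (ker S))
    (c1 : ∀ v, S v = 0 → P v = 0 → Q v = 0 → v = 0)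
    (c2 : ∀ v, tr S v = 0 → tr Q v = 0 → tr P v = 0 → v = 0) : RK3 S P Q (7 * h + 4) := by
  obtain ⟨E, Y1, Y2, ⟨⟨⟨rS, rP⟩, rQ⟩, rX⟩, y1, y2, y3, y4⟩ := lemA S
    ((((ev_rm S).and (ev_rm P)).and (ev_rm Q)).and
      (ev_rs (perp ((ker (tr S) ⊓ ker (tr Q)).map (tr P)))))
  have hρ := dm_range_ker S
  rw [card_fun] at hρ
  have key : RK2 (P - Y1) (Q - Y2) (7 * h + 4 - dm (range S)) := by
    refine pt2 _ _ (dm (range S) + h - 2) _ (fun a b ha0 hb0 => ?_) ?_ ?_ ?_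
    · obtain ⟨E3, e3, ha, hb⟩ := ext2 E a b
      have a0 := dm_range_ker (a • (P - Y1) + b • (Q - Y2))
      rw [card_fun] at a0
      rcases y4 E3 2 a b e3 ha hb (Or.inl ha0) (n → ℂ) LinearMap.id (a • P + b • Q) ⊤
        (ker (a • (P - Y1) + b • (Q - Y2))) RM.id
        (((rP.mono e3.le).smul ha).add ((rQ.mono e3.le).smul hb)) RS.top le_top (fun x hx => by
          have : a • (P x - Y1 x) + b • (Q x - Y2 x) = 0 := hx
          show a • P x + b • Q x = a • Y1 x + b • Y2 x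
          linear_combination (norm := module) this) with h1 | h1
      · have a1 := hk a b hb0
        rw [top_inf_eq, LinearMap.comp_id] at h1
        omega
      · have a1 := hl a b ha0
        have a2 := dm_comap_top (a • P + b • Q) (range S)
        have a3 := dm_range_sup (a • P + b • Q) S
        rw [inf_comm] at a3
        rw [card_fun] at a2
        rw [top_inf_eq] at h1
        omega
    · have a0 := dm_map_ker ((P - Y1).coprod (Q - Y2)) (Submodule.prod ⊤ (ker S ⊓ ker P))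
      have a1 : dm ((Submodule.prod ⊤ (ker S ⊓ ker P)).map ((P - Y1).coprod (Q - Y2))) ≤
          dm (range (P - Y1) ⊔ (ker (P - Y1)).map (Q - Y2)) := by
        refine dm_mono ?_
        rintro _ ⟨x, hx, rfl⟩
        refine Submodule.add_mem_sup ⟨x.1, rfl⟩ ⟨x.2, ?_, rfl⟩
        show P x.2 - Y1 x.2 = 0
        rw [(y2 _ hx.2.1).1, show P x.2 = 0 from hx.2.2, sub_zero]
      rw [dm_prod, dm_top, card_fun] at a0
      rcases y4 E 0 1 0 (Ext.refl E) (one_mem E) (zero_mem E) (Or.inl one_ne_zero)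
        ((n → ℂ) × (n → ℂ)) (LinearMap.fst ℂ _ _) (P.coprod Q) (Submodule.prod ⊤ (ker S ⊓ ker P))
        (Submodule.prod ⊤ (ker S ⊓ ker P) ⊓ ker ((P - Y1).coprod (Q - Y2))) RM.fst (rP.coprod rQ)
        (RS.top.prod ((RS.ker rS).inf (RS.ker rP))) inf_le_left (fun x hx => by
          have h1 : P x.1 - Y1 x.1 + (Q x.2 - Y2 x.2) = 0 := hx.2
          rw [(y2 _ hx.1.2.1).2] at h1
          show P x.1 + Q x.2 = (1 : ℂ) • Y1 x.1 + (0 : ℂ) • Y2 x.1
          linear_combination (norm := module) h1) with h1 | h1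
      · have a2 := dm_map_ker (P.coprod Q) ((ker S).prod (ker S ⊓ ker P))
        have a3 : dm (Submodule.prod ⊤ (ker S ⊓ ker P) ⊓ ker (S ∘ₗ LinearMap.fst ℂ _ _) ⊓
            ker (P.coprod Q)) ≤ dm ((ker S).prod (ker S ⊓ ker P) ⊓ ker (P.coprod Q)) :=
          dm_mono fun x hx => ⟨⟨hx.1.2, hx.1.1.2⟩, hx.2⟩
        have a4 := two_images P Q (ker S) c1
        rw [LinearMap.map_coprod_prod, dm_prod] at a2
        omega
      · have a2 := dm_comap (P.coprod Q) (Submodule.prod ⊤ (ker S ⊓ ker P)) (range S)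
        have a3 := hl 1 0 one_ne_zero
        have a4 := dm_range_sup P S
        have a5 : dm (range P ⊔ range S) ≤
            dm ((Submodule.prod ⊤ (ker S ⊓ ker P)).map (P.coprod Q) ⊔ range S) := by
          refine dm_mono (sup_le_sup_right ?_ _)
          rintro _ ⟨v, rfl⟩
          exact ⟨(v, 0), ⟨trivial, Submodule.zero_mem _⟩, by simp⟩
        rw [one_smul, zero_smul, add_zero, inf_comm] at a3
        rw [dm_prod, dm_top, card_fun] at a2
        omega
    · have hY : ∀ ξ, tr S ξ = 0 → tr Y1 ξ = 0 ∧ tr Y2 ξ = 0 := fun ξ hξ => by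
        have h1 : ξ ∈ perp (range S) := by rw [perp_range]; exact hξ
        constructor
        · exact eq_of_dot fun v => by rw [tr_dot, h1 _ (y3 v).1, zero_dotProduct]
        · exact eq_of_dot fun v => by rw [tr_dot, h1 _ (y3 v).2, zero_dotProduct]
      have a0 := dm_perp (range (tr (Q - Y2)) ⊔ (ker (tr S) ⊓ ker (tr Q)).map (tr P))
      have a1 : dm (range (tr (Q - Y2)) ⊔ (ker (tr S) ⊓ ker (tr Q)).map (tr P)) ≤
          dm (range (tr (Q - Y2)) ⊔ (ker (tr (Q - Y2))).map (tr (P - Y1))) := by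
        refine dm_mono (sup_le_sup_left ?_ _)
        rintro _ ⟨ξ, hξ, rfl⟩
        refine ⟨ξ, ?_, ?_⟩
        · show tr (Q - Y2) ξ = 0
          rw [tr_sub, LinearMap.sub_apply, (hY ξ hξ.1).2, show tr Q ξ = 0 from hξ.2, sub_zero]
        · rw [tr_sub, LinearMap.sub_apply, (hY ξ hξ.1).1, sub_zero]
      rw [perp_sup, perp_range, tr_tr, inf_comm (ker (Q - Y2))] at a0
      rcases y4 E 0 0 1 (Ext.refl E) (zero_mem E) (one_mem E) (Or.inr one_ne_zero)
        (n → ℂ) LinearMap.id Q _ (perp ((ker (tr S) ⊓ ker (tr Q)).map (tr P)) ⊓ ker (Q - Y2))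
        RM.id rQ rX inf_le_left (fun x hx => by
          have h1 : Q x - Y2 x = 0 := hx.2
          show Q x = (0 : ℂ) • Y1 x + (1 : ℂ) • Y2 x
          linear_combination (norm := module) h1) with h1 | h1
      · have a2 := hk 0 1 one_ne_zero
        rw [one_smul, zero_smul, zero_add] at a2
        have a3 : dm (perp ((ker (tr S) ⊓ ker (tr Q)).map (tr P)) ⊓ ker (S ∘ₗ LinearMap.id) ⊓
            ker Q) ≤ dm (ker S ⊓ ker Q) := dm_mono fun x hx => ⟨hx.1.2, hx.2⟩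
        omega
      · have a2 := dm_perp (perp ((ker (tr S) ⊓ ker (tr Q)).map (tr P)) ⊓ (range S).comap Q)
        have a3 := two_images (tr Q) (tr P) (ker (tr S)) c2
        rw [perp_inf, perp_perp, perp_comap, perp_range, sup_comm] at a2
        rw [dm_ker_tr] at a3
        omega
    · have := dm_le (range (P - Y1) ⊔ range (Q - Y2))
      rw [card_fun] at this
      omega
  exact RK.mono (rk3_free y1 key) (by omega)

end Pool.Agent.P.MP_098a67_ag.T3
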