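import Mathlib

namespace Pool.Agent.P.MP_098a67_ag.T3

open Module

/-- A complex vector space with chosen coordinates. -/
class Co (V : Type) [AddCommGroup V] [Module ℂ V] where
  ι : Type
  fin : Fintype ι
  e : V ≃ₗ[ℂ] (ι → ℂ)

noncomputable instance coC : Co ℂ where
  ι := Unit
  fin := inferInstance
  e :=
    { toFun := fun z _ => z
      invFun := fun g => g ()
      map_add' := fun _ _ => rfl
      map_smul' := fun _ _ => rfl
      left_inv := fun _ => rfl
      right_inv := fun _ => rfl }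

noncomputable instance coProd (V W : Type) [AddCommGroup V] [Module ℂ V] [AddCommGroup W]
    [Module ℂ W] [a : Co V] [b : Co W] : Co (V × W) where
  ι := a.ι ⊕ b.ι
  fin := @instFintypeSum _ _ a.fin b.fin
  e :=
    { toFun := fun x => Sum.elim (a.e x.1) (b.e x.2)
      invFun := fun g => (a.e.symm (fun i => g (Sum.inl i)), b.e.symm (fun i => g (Sum.inr i)))
      map_add' := fun x y => by ext i; cases i <;> simp
      map_smul' := fun c x => by ext i; cases i <;> simp
      left_inv := fun x => by simp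
      right_inv := fun g => by ext i; cases i <;> simp }

noncomputable instance coPi (κ V : Type) [k : Fintype κ] [AddCommGroup V] [Module ℂ V] [a : Co V] :
    Co (κ → V) where
  ι := κ × a.ι
  fin := @instFintypeProd _ _ k a.fin
  e :=
    { toFun := fun x p => a.e (x p.1) p.2
      invFun := fun g j => a.e.symm (fun i => g (j, i))
      map_add' := fun x y => by ext i; simp
      map_smul' := fun c x => by ext i; simp
      left_inv := fun x => by ext j; simp
      right_inv := fun g => by ext i; simp }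

variable {V W X : Type} [AddCommGroup V] [Module ℂ V] [Co V] [AddCommGroup W] [Module ℂ W] [Co W]
  [AddCommGroup X] [Module ℂ X] [Co X]

instance coFin : Fintype (Co.ι V) := Co.fin

instance coFinite : Module.Finite ℂ V := Module.Finite.equiv (Co.e (V := V)).symm

/-- Apply an additive map to all coordinates. -/
noncomputable def act (π : ℂ →+ ℂ) : V →+ V where
  toFun v := Co.e.symm fun i => π (Co.e v i)
  map_zero' := by
    apply (Co.e (V := V)).injective
    ext i
    simp
  map_add' x y := by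
    apply (Co.e (V := V)).injective
    ext i
    simp

theorem e_act (π : ℂ →+ ℂ) (v : V) (i : Co.ι V) : Co.e (act π v) i = π (Co.e v i) := by
  simp [act]

theorem act_C (π : ℂ →+ ℂ) (z : ℂ) : act π z = π z := rfl

theorem act_prod (π : ℂ →+ ℂ) (x : V × W) : act π x = (act π x.1, act π x.2) := rfl

theorem act_pi {κ : Type} [Fintype κ] (π : ℂ →+ ℂ) (x : κ → V) (j : κ) :
    act π x j = act π (x j) := rfl

def EL (E : Subfield ℂ) (π : ℂ →+ ℂ) : Prop := ∀ a ∈ E, ∀ z, π (a * z) = a * π z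

def RV (E : Subfield ℂ) (v : V) : Prop := ∀ i, Co.e v i ∈ E

def RM (E : Subfield ℂ) (f : V →ₗ[ℂ] W) : Prop :=
  ∀ π, EL E π → ∀ v, act π (f v) = f (act π v)

def RS (E : Subfield ℂ) (S : Submodule ℂ V) : Prop := ∀ π, EL E π → ∀ v ∈ S, act π v ∈ S

variable {E E' : Subfield ℂ}

theorem EL.mono (h : E ≤ E') {π : ℂ →+ ℂ} (hπ : EL E' π) : EL E π := fun a ha => hπ a (h ha)

theorem RV.mono {v : V} (hv : RV E v) (h : E ≤ E') : RV E' v := fun i => h (hv i)

theorem RM.mono {f : V →ₗ[ℂ] W} (hf : RM E f) (h : E ≤ E') : RM E' f :=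
  fun π hπ => hf π (hπ.mono h)

theorem RS.mono {S : Submodule ℂ V} (hS : RS E S) (h : E ≤ E') : RS E' S :=
  fun π hπ => hS π (hπ.mono h)

theorem rv_C {z : ℂ} : RV E z ↔ z ∈ E := ⟨fun h => h (), fun h _ => h⟩

theorem rv_prod {x : V × W} : RV E x ↔ RV E x.1 ∧ RV E x.2 :=
  ⟨fun h => ⟨fun i => h (Sum.inl i), fun i => h (Sum.inr i)⟩,
    fun h i => by cases i with
      | inl i => exact h.1 i
      | inr i => exact h.2 i⟩

theorem RV.fst {x : V × W} (h : RV E x) : RV E x.1 := (rv_prod.1 h).1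

theorem RV.snd {x : V × W} (h : RV E x) : RV E x.2 := (rv_prod.1 h).2

theorem RV.mk {v : V} {w : W} (hv : RV E v) (hw : RV E w) : RV E (v, w) := rv_prod.2 ⟨hv, hw⟩

theorem rv_pi {κ : Type} [Fintype κ] {x : κ → V} : RV E x ↔ ∀ j, RV E (x j) :=
  ⟨fun h j i => h (j, i), fun h p => h p.1 p.2⟩

theorem RV.zero : RV E (0 : V) := fun i => by simp

theorem RV.add {v w : V} (hv : RV E v) (hw : RV E w) : RV E (v + w) := fun i => by
  simpa using add_mem (hv i) (hw i)

theorem RV.neg {v : V} (hv : RV E v) : RV E (-v) := fun i => by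
  simpa using hv i

theorem RV.sub {v w : V} (hv : RV E v) (hw : RV E w) : RV E (v - w) := fun i => by
  simpa using sub_mem (hv i) (hw i)

theorem RV.smul {a : ℂ} {v : V} (ha : a ∈ E) (hv : RV E v) : RV E (a • v) := fun i => by
  simpa using mul_mem ha (hv i)

theorem RV.sum {κ : Type} (s : Finset κ) {v : κ → V} (h : ∀ j ∈ s, RV E (v j)) :
    RV E (∑ j ∈ s, v j) := fun i => by
  simpa using sum_mem fun j hj => h j hj i

theorem act_smul {π : ℂ →+ ℂ} (hπ : EL E π) {a : ℂ} (ha : a ∈ E) (v : V) :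
    act π (a • v) = a • act π v := by
  apply (Co.e (V := V)).injective
  ext i
  simp [e_act, hπ a ha]

theorem act_smul_rv {π : ℂ →+ ℂ} (hπ : EL E π) (z : ℂ) {v : V} (hv : RV E v) :
    act π (z • v) = π z • v := by
  apply (Co.e (V := V)).injective
  ext i
  simp only [e_act, map_smul, Pi.smul_apply, smul_eq_mul]
  rw [mul_comm z, hπ _ (hv i), mul_comm]

theorem RV.act_eq {π : ℂ →+ ℂ} (hπ : EL E π) {v : V} (hv : RV E v) : act π v = π 1 • v := by
  rw [← act_smul_rv hπ 1 hv, one_smul]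

theorem exists_pi0 (E : Subfield ℂ) : ∃ π : ℂ →+ ℂ, EL E π ∧ π 1 = 1 ∧ ∀ z, π z ∈ E := by
  obtain ⟨g, hg⟩ := (Algebra.linearMap E ℂ).exists_leftInverse_of_injective
    (LinearMap.ker_eq_bot.2 Subtype.val_injective)
  refine ⟨((Algebra.linearMap E ℂ).comp g).toAddMonoidHom, fun a ha z => ?_, ?_,
    fun z => (g z).2⟩
  · have := g.map_smul (⟨a, ha⟩ : E) z
    have h2 : ((⟨a, ha⟩ : E) • z : ℂ) = a * z := rfl
    rw [h2] at this
    show ((g (a * z) : E) : ℂ) = a * (g z : E)
    rw [this]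
    rfl
  · have := LinearMap.congr_fun hg 1
    have h2 : g 1 = 1 := by simpa using this
    show ((g 1 : E) : ℂ) = 1
    rw [h2]
    rfl

theorem rv_act {π : ℂ →+ ℂ} (h : ∀ z, π z ∈ E) (v : V) : RV E (act π v) := fun i => by
  rw [e_act]; exact h _

theorem RM.rv {f : V →ₗ[ℂ] W} (hf : RM E f) {v : V} (hv : RV E v) : RV E (f v) := by
  obtain ⟨π, h1, h2, h3⟩ := exists_pi0 E
  have : act π (f v) = f v := by rw [hf π h1, hv.act_eq h1, h2, one_smul]
  rw [← this]
  exact rv_act h3 _

/-- A rational injective map reflects rationality. -/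
theorem RM.rv_of_inj {f : V →ₗ[ℂ] W} (hf : RM E f) (hi : Function.Injective f) {v : V}
    (hv : RV E (f v)) : RV E v := by
  obtain ⟨π, h1, h2, h3⟩ := exists_pi0 E
  have : act π v = v := by
    apply hi
    rw [← hf π h1, hv.act_eq h1, h2, one_smul]
  rw [← this]
  exact rv_act h3 _

theorem RM.id : RM E (LinearMap.id : V →ₗ[ℂ] V) := fun _ _ _ => rfl

theorem RM.zero : RM E (0 : V →ₗ[ℂ] W) := fun _ _ _ => by simp

theorem RM.comp {g : W →ₗ[ℂ] X} {f : V →ₗ[ℂ] W} (hg : RM E g) (hf : RM E f) : RM E (g ∘ₗ f) :=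
  fun π hπ v => by simp only [LinearMap.comp_apply]; rw [hg π hπ, hf π hπ]

theorem RM.add {f g : V →ₗ[ℂ] W} (hf : RM E f) (hg : RM E g) : RM E (f + g) :=
  fun π hπ v => by simp only [LinearMap.add_apply, map_add]; rw [hg π hπ, hf π hπ]

theorem RM.neg {f : V →ₗ[ℂ] W} (hf : RM E f) : RM E (-f) :=
  fun π hπ v => by simp only [LinearMap.neg_apply, map_neg]; rw [hf π hπ]

theorem RM.sub {f g : V →ₗ[ℂ] W} (hf : RM E f) (hg : RM E g) : RM E (f - g) :=
  fun π hπ v => by simp only [LinearMap.sub_apply, map_sub]; rw [hg π hπ, hf π hπ]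

theorem RM.smul {a : ℂ} (ha : a ∈ E) {f : V →ₗ[ℂ] W} (hf : RM E f) : RM E (a • f) :=
  fun π hπ v => by simp only [LinearMap.smul_apply]; rw [act_smul hπ ha, hf π hπ]

theorem RM.fst : RM E (LinearMap.fst ℂ V W) := fun _ _ _ => rfl

theorem RM.snd : RM E (LinearMap.snd ℂ V W) := fun _ _ _ => rfl

theorem RM.inl : RM E (LinearMap.inl ℂ V W) := fun π _ v => by simp [act_prod]

theorem RM.inr : RM E (LinearMap.inr ℂ V W) := fun π _ v => by simp [act_prod]

theorem RM.prod {f : V →ₗ[ℂ] W} {g : V →ₗ[ℂ] X} (hf : RM E f) (hg : RM E g) : RM E (f.prod g) :=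
  fun π hπ v => Prod.ext (hf π hπ v) (hg π hπ v)

theorem RM.coprod {f : V →ₗ[ℂ] X} {g : W →ₗ[ℂ] X} (hf : RM E f) (hg : RM E g) :
    RM E (f.coprod g) :=
  fun π hπ v => by
    simp only [LinearMap.coprod_apply, act_prod, map_add]; rw [hg π hπ, hf π hπ]

theorem RS.top : RS E (⊤ : Submodule ℂ V) := fun _ _ _ _ => trivial

theorem RS.bot : RS E (⊥ : Submodule ℂ V) := fun π _ v hv => by
  rw [Submodule.mem_bot] at hv ⊢
  simp [hv]

theorem RS.inf {S T : Submodule ℂ V} (hS : RS E S) (hT : RS E T) : RS E (S ⊓ T) :=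
  fun π hπ v hv => ⟨hS π hπ v hv.1, hT π hπ v hv.2⟩

theorem RS.sup {S T : Submodule ℂ V} (hS : RS E S) (hT : RS E T) : RS E (S ⊔ T) :=
  fun π hπ v hv => by
    obtain ⟨a, ha, b, hb, rfl⟩ := Submodule.mem_sup.1 hv
    rw [map_add]
    exact Submodule.add_mem_sup (hS π hπ a ha) (hT π hπ b hb)

theorem RS.comap {f : V →ₗ[ℂ] W} {S : Submodule ℂ W} (hf : RM E f) (hS : RS E S) :
    RS E (S.comap f) := fun π hπ v hv => by
  rw [Submodule.mem_comap, ← hf π hπ]
  exact hS π hπ _ hv

theorem RS.map {f : V →ₗ[ℂ] W} {S : Submodule ℂ V} (hf : RM E f) (hS : RS E S) :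
    RS E (S.map f) := fun π hπ v hv => by
  obtain ⟨a, ha, rfl⟩ := hv
  rw [hf π hπ]
  exact ⟨_, hS π hπ a ha, rfl⟩

theorem RS.ker {f : V →ₗ[ℂ] W} (hf : RM E f) : RS E (LinearMap.ker f) := RS.comap hf RS.bot

theorem RS.range {f : V →ₗ[ℂ] W} (hf : RM E f) : RS E (LinearMap.range f) := by
  rw [LinearMap.range_eq_map]; exact RS.map hf RS.top

theorem RS.prod {S : Submodule ℂ V} {T : Submodule ℂ W} (hS : RS E S) (hT : RS E T) :
    RS E (S.prod T) := fun π hπ v hv => ⟨hS π hπ _ hv.1, hT π hπ _ hv.2⟩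

theorem RS.span_single {v : V} (hv : RV E v) : RS E (ℂ ∙ v) := fun π hπ w hw => by
  obtain ⟨a, rfl⟩ := Submodule.mem_span_singleton.1 hw
  rw [act_smul_rv hπ a hv]
  exact Submodule.smul_mem _ _ (Submodule.mem_span_singleton_self v)

/-- Families of vectors in a subspace. -/
def cols (κ : Type) (S : Submodule ℂ V) : Submodule ℂ (κ → V) := Submodule.pi Set.univ fun _ => S

theorem mem_cols {κ : Type} {S : Submodule ℂ V} {Φ : κ → V} : Φ ∈ cols κ S ↔ ∀ j, Φ j ∈ S := by
  simp [cols, Submodule.mem_pi]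

theorem RS.cols {κ : Type} [Fintype κ] {S : Submodule ℂ V} (hS : RS E S) : RS E (cols κ S) :=
  fun π hπ v hv => mem_cols.2 fun j => hS π hπ _ (mem_cols.1 hv j)

/-- The linear map with given columns. -/
noncomputable def lin {κ : Type} [Fintype κ] (Φ : κ → V) : (κ → ℂ) →ₗ[ℂ] V :=
  Fintype.linearCombination ℂ Φ

theorem lin_apply {κ : Type} [Fintype κ] (Φ : κ → V) (y : κ → ℂ) : lin Φ y = ∑ j, y j • Φ j := by
  simp [lin, Fintype.linearCombination_apply]

/-- Evaluation of a family of columns at a coefficient vector. -/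
noncomputable def ev {κ : Type} [Fintype κ] (y : κ → ℂ) : (κ → V) →ₗ[ℂ] V where
  toFun Φ := lin Φ y
  map_add' a b := by simp [lin_apply, Finset.sum_add_distrib]
  map_smul' c a := by simp [lin_apply, Finset.smul_sum, smul_comm c]

theorem ev_apply {κ : Type} [Fintype κ] (y : κ → ℂ) (Φ : κ → V) : ev y Φ = lin Φ y := rfl

theorem lin_mem {κ : Type} [Fintype κ] {S : Submodule ℂ V} {Φ : κ → V} (h : Φ ∈ cols κ S)
    (y : κ → ℂ) : lin Φ y ∈ S := by
  rw [lin_apply]
  exact S.sum_mem fun j _ => S.smul_mem _ (mem_cols.1 h j)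

theorem RM.lin {κ : Type} [Fintype κ] {Φ : κ → V} (h : RV E Φ) : RM E (lin Φ) := fun π hπ y => by
  simp only [lin_apply, map_sum]
  exact Finset.sum_congr rfl fun j _ => act_smul_rv hπ _ (rv_pi.1 h j)

theorem RM.ev {κ : Type} [Fintype κ] {y : κ → ℂ} (h : RV E y) :
    RM E (ev y : (κ → V) →ₗ[ℂ] V) := fun π hπ Φ => by
  simp only [ev_apply, lin_apply, map_sum]
  exact Finset.sum_congr rfl fun j _ => act_smul hπ (rv_C.1 (rv_pi.1 h j)) _

/-- A rational subspace is spanned by its rational vectors. -/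
theorem RS.le_span {S : Submodule ℂ V} (hS : RS E S) :
    S ≤ Submodule.span ℂ {v | v ∈ S ∧ RV E v} := by
  classical
  intro v hv
  let b := Basis.ofVectorSpace E ℂ
  let π : Basis.ofVectorSpaceIndex E ℂ → ℂ →+ ℂ := fun α =>
    ((Algebra.linearMap E ℂ).comp (b.coord α)).toAddMonoidHom
  have hπ : ∀ α, EL E (π α) := fun α a ha z => by
    have := (b.coord α).map_smul (⟨a, ha⟩ : E) z
    have h2 : ((⟨a, ha⟩ : E) • z : ℂ) = a * z := rfl
    rw [h2] at this
    show ((b.coord α (a * z) : E) : ℂ) = a * (b.coord α z : E)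
    rw [this]
    rfl
  let s := Finset.univ.biUnion fun i : Co.ι V => (b.repr (Co.e v i)).support
  have key : v = ∑ α ∈ s, b α • act (π α) v := by
    apply (Co.e (V := V)).injective
    ext i
    simp only [map_sum, map_smul, Finset.sum_apply, Pi.smul_apply, e_act, smul_eq_mul]
    have h1 := b.linearCombination_repr (Co.e v i)
    rw [Finsupp.linearCombination_apply, Finsupp.sum_of_support_subset _ (s := s)
      (Finset.subset_biUnion_of_mem (fun i : Co.ι V => (b.repr (Co.e v i)).support)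
        (Finset.mem_univ i)) _ (by simp)] at h1
    rw [← h1]
    refine Finset.sum_congr rfl fun α _ => ?_
    rw [h1]
    exact mul_comm _ _
  rw [key]
  exact Submodule.sum_mem _ fun α _ => Submodule.smul_mem _ _
    (Submodule.subset_span ⟨hS _ (hπ α) v hv, rv_act (fun z => (b.coord α z).2) v⟩)

/-- A rational subspace has a rational basis. -/
theorem RS.basis {S : Submodule ℂ V} (hS : RS E S) :
    ∃ b : Fin (finrank ℂ S) → V, RV E b ∧ Function.Injective (lin b) ∧
      LinearMap.range (lin b) = S := by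
  have hsp : Submodule.span ℂ {v | v ∈ S ∧ RV E v} = S :=
    le_antisymm (Submodule.span_le.2 fun v hv => hv.1) hS.le_span
  obtain ⟨t, ht1, ht2, ht3⟩ := exists_linearIndependent ℂ {v | v ∈ S ∧ RV E v}
  have hfin : Finite t := ht3.finite
  have := Fintype.ofFinite t
  have hc : Fintype.card t = finrank ℂ S := by
    have h1 := finrank_span_eq_card ht3
    rw [Subtype.range_coe, ht2, hsp] at h1
    exact h1.symm
  let q := (Fintype.equivFinOfCardEq hc).symm
  refine ⟨fun j => (q j : V), rv_pi.2 fun j => (ht1 (q j).2).2, ?_, ?_⟩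
  · exact linearIndependent_iff_injective_fintypeLinearCombination.1 (ht3.comp q q.injective)
  · rw [lin, Fintype.range_linearCombination]
    refine Eq.trans ?_ (ht2.trans hsp)
    congr 1
    ext v
    constructor
    · rintro ⟨j, rfl⟩
      exact (q j).2
    · intro hv
      exact ⟨q.symm ⟨v, hv⟩, by simp⟩

end Pool.Agent.P.MP_098a67_ag.T3
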