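import Mathlib

namespace Pool.Agent.P.MP_098a67_ag.T3

open Module Submodule

variable {V W X : Type} [AddCommGroup V] [Module ℂ V] [Module.Finite ℂ V]
  [AddCommGroup W] [Module ℂ W] [Module.Finite ℂ W] [AddCommGroup X] [Module ℂ X]
  [Module.Finite ℂ X]

/-- Dimension of a subspace. -/
noncomputable def dm (S : Submodule ℂ V) : ℕ := finrank ℂ S

theorem dm_mono {S T : Submodule ℂ V} (h : S ≤ T) : dm S ≤ dm T := Submodule.finrank_mono h

theorem dm_bot : dm (⊥ : Submodule ℂ V) = 0 := finrank_bot ℂ V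

theorem dm_top : dm (⊤ : Submodule ℂ V) = finrank ℂ V := finrank_top ℂ V

theorem dm_le (S : Submodule ℂ V) : dm S ≤ finrank ℂ V := S.finrank_le

theorem dm_eq_zero {S : Submodule ℂ V} : dm S = 0 ↔ S = ⊥ := Submodule.finrank_eq_zero

theorem dm_zero {S : Submodule ℂ V} (h : ∀ v ∈ S, v = 0) : dm S = 0 :=
  dm_eq_zero.2 ((Submodule.eq_bot_iff S).2 h)

theorem dm_sup_inf (S T : Submodule ℂ V) : dm (S ⊔ T) + dm (S ⊓ T) = dm S + dm T :=
  Submodule.finrank_sup_add_finrank_inf_eq S T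

theorem dm_sup_le (S T : Submodule ℂ V) : dm (S ⊔ T) ≤ dm S + dm T := by
  have := dm_sup_inf S T; omega

theorem dm_sup_eq {S T : Submodule ℂ V} (h : ∀ v ∈ S, v ∈ T → v = 0) :
    dm (S ⊔ T) = dm S + dm T := by
  have h1 := dm_sup_inf S T
  have h2 : dm (S ⊓ T) = 0 := dm_zero fun v hv => h v hv.1 hv.2
  omega

theorem eq_of_dm_le {S T : Submodule ℂ V} (h : S ≤ T) (hd : dm T ≤ dm S) : S = T :=
  Submodule.eq_of_le_of_finrank_le h hd

theorem eq_top_of_dm {S : Submodule ℂ V} (hd : finrank ℂ V ≤ dm S) : S = ⊤ :=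
  eq_of_dm_le le_top (by rw [dm_top]; exact hd)

theorem dm_lt {S T : Submodule ℂ V} (h : S ≤ T) {v : V} (hv : v ∈ T) (hn : v ∉ S) :
    dm S < dm T :=
  Submodule.finrank_lt_finrank_of_lt (lt_of_le_of_ne h fun e => hn (e ▸ hv))

theorem dm_span_single {v : V} (hv : v ≠ 0) : dm (ℂ ∙ v) = 1 := finrank_span_singleton hv

theorem dm_span_le (v : V) : dm (ℂ ∙ v) ≤ 1 := by
  by_cases hv : v = 0
  · rw [hv, Submodule.span_zero_singleton, dm_bot]; omega
  · exact (dm_span_single hv).le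

theorem dm_map_ker (f : V →ₗ[ℂ] W) (S : Submodule ℂ V) :
    dm (S.map f) + dm (S ⊓ LinearMap.ker f) = dm S := by
  have h := (f.domRestrict S).finrank_range_add_finrank_ker
  rw [LinearMap.range_domRestrict, LinearMap.ker_domRestrict,
    ← Submodule.finrank_map_subtype_eq, Submodule.map_comap_subtype] at h
  exact h

theorem dm_range_ker (f : V →ₗ[ℂ] W) :
    dm (LinearMap.range f) + dm (LinearMap.ker f) = finrank ℂ V :=
  f.finrank_range_add_finrank_ker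

theorem dm_map_le (f : V →ₗ[ℂ] W) (S : Submodule ℂ V) : dm (S.map f) ≤ dm S := by
  have := dm_map_ker f S; omega

theorem dm_range_le (f : V →ₗ[ℂ] W) : dm (LinearMap.range f) ≤ finrank ℂ V := by
  have := dm_range_ker f; omega

theorem dm_le_map_add (f : V →ₗ[ℂ] W) (S : Submodule ℂ V) :
    dm S ≤ dm (S.map f) + dm (LinearMap.ker f) := by
  have h1 := dm_map_ker f S
  have h2 := dm_mono (inf_le_right : S ⊓ LinearMap.ker f ≤ _)
  omega

theorem dm_map_eq {f : V →ₗ[ℂ] W} {S : Submodule ℂ V} (h : ∀ v ∈ S, f v = 0 → v = 0) :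
    dm (S.map f) = dm S := by
  have h1 := dm_map_ker f S
  have h2 : dm (S ⊓ LinearMap.ker f) = 0 := dm_zero fun v hv => h v hv.1 hv.2
  omega

theorem dm_range_eq {f : V →ₗ[ℂ] W} (h : ∀ v, f v = 0 → v = 0) :
    dm (LinearMap.range f) = finrank ℂ V := by
  rw [LinearMap.range_eq_map, dm_map_eq fun v _ => h v, dm_top]

/-- An injection of subspaces. -/
theorem dm_le_of_inj (f : V →ₗ[ℂ] W) {S : Submodule ℂ V} {T : Submodule ℂ W}
    (h1 : ∀ v ∈ S, f v ∈ T) (h2 : ∀ v ∈ S, f v = 0 → v = 0) : dm S ≤ dm T := by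
  rw [← dm_map_eq h2]
  exact dm_mono (Submodule.map_le_iff_le_comap.2 h1)

/-- Image plus kernel; the kernel injects into another space. -/
theorem dm_le_add (f : V →ₗ[ℂ] W) (g : V →ₗ[ℂ] X) {S : Submodule ℂ V} {T : Submodule ℂ W}
    {K : Submodule ℂ X} (h1 : ∀ v ∈ S, f v ∈ T) (h2 : ∀ v ∈ S, f v = 0 → g v ∈ K)
    (h3 : ∀ v ∈ S, f v = 0 → g v = 0 → v = 0) : dm S ≤ dm T + dm K := by
  have a1 := dm_map_ker f S
  have a2 : dm (S.map f) ≤ dm T := dm_mono (Submodule.map_le_iff_le_comap.2 h1)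
  have a3 : dm (S ⊓ LinearMap.ker f) ≤ dm K :=
    dm_le_of_inj g (fun v hv => h2 v hv.1 hv.2) fun v hv => h3 v hv.1 hv.2
  omega

/-- A surjection of subspaces. -/
theorem dm_le_of_surj (f : V →ₗ[ℂ] W) {S : Submodule ℂ V} {T : Submodule ℂ W}
    (h : ∀ w ∈ T, ∃ v ∈ S, f v = w) : dm T ≤ dm S :=
  (dm_mono (show T ≤ S.map f from fun w hw => h w hw)).trans (dm_map_le f S)

theorem dm_comap (f : V →ₗ[ℂ] W) (S : Submodule ℂ V) (D : Submodule ℂ W) :
    dm (S ⊓ D.comap f) + dm (S.map f ⊔ D) = dm S + dm D := by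
  have a1 := dm_map_ker f S
  have a2 := dm_map_ker f (S ⊓ D.comap f)
  have a3 := dm_sup_inf (S.map f) D
  have e1 : (S ⊓ D.comap f).map f = S.map f ⊓ D := by
    apply le_antisymm
    · rintro _ ⟨v, hv, rfl⟩
      exact ⟨⟨v, hv.1, rfl⟩, hv.2⟩
    · rintro _ ⟨⟨v, hv, rfl⟩, h2⟩
      exact ⟨v, ⟨hv, h2⟩, rfl⟩
  have e2 : S ⊓ D.comap f ⊓ LinearMap.ker f = S ⊓ LinearMap.ker f := by
    apply le_antisymm
    · exact fun v hv => ⟨hv.1.1, hv.2⟩
    · refine fun v hv => ⟨⟨hv.1, ?_⟩, hv.2⟩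
      have : f v = 0 := hv.2
      show f v ∈ D
      rw [this]; exact D.zero_mem
  rw [e1, e2] at a2
  omega

theorem dm_comap_top (f : V →ₗ[ℂ] W) (D : Submodule ℂ W) :
    dm (D.comap f) + dm (LinearMap.range f ⊔ D) = finrank ℂ V + dm D := by
  have := dm_comap f ⊤ D
  rwa [top_inf_eq, ← LinearMap.range_eq_map, dm_top] at this

theorem dm_comap_le (f : V →ₗ[ℂ] W) (D : Submodule ℂ W) :
    dm (D.comap f) ≤ dm (LinearMap.ker f) + dm D := by
  have a1 := dm_comap_top f D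
  have a2 := dm_range_ker f
  have a3 := dm_mono (le_sup_left : LinearMap.range f ≤ LinearMap.range f ⊔ D)
  omega

theorem dm_comap_sup_le (f : V →ₗ[ℂ] W) (D G : Submodule ℂ W) :
    dm ((D ⊔ G).comap f) ≤ dm (D.comap f) + dm G := by
  have a1 := dm_comap_top f D
  have a2 := dm_comap_top f (D ⊔ G)
  have a3 := dm_mono (sup_le_sup_left (le_sup_left : D ≤ D ⊔ G) (LinearMap.range f))
  have a4 := dm_sup_le D G
  omega

theorem dm_inf_ge (S T : Submodule ℂ V) : dm S + dm T ≤ finrank ℂ V + dm (S ⊓ T) := by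
  have a1 := dm_sup_inf S T
  have a2 := dm_le (S ⊔ T)
  omega

theorem dm_prod (S : Submodule ℂ V) (T : Submodule ℂ W) : dm (S.prod T) = dm S + dm T := by
  have a1 := dm_map_ker (LinearMap.fst ℂ V W) (S.prod T)
  have e1 : (S.prod T).map (LinearMap.fst ℂ V W) = S := Submodule.prod_map_fst S T
  have e2 : S.prod T ⊓ LinearMap.ker (LinearMap.fst ℂ V W) = T.map (LinearMap.inr ℂ V W) := by
    apply le_antisymm
    · rintro ⟨v, w⟩ ⟨h1, h2⟩
      have : v = 0 := h2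
      exact ⟨w, h1.2, by simp [this]⟩
    · rintro _ ⟨w, hw, rfl⟩
      exact ⟨⟨S.zero_mem, hw⟩, rfl⟩
  rw [e1, e2, dm_map_eq (f := LinearMap.inr ℂ V W) fun v _ h => (Prod.ext_iff.1 h).2] at a1
  exact a1.symm

/-- The image of a bigger space is not much bigger. -/
theorem dm_map_sup_le (f : V →ₗ[ℂ] W) (S : Submodule ℂ V) (D : Submodule ℂ W) :
    dm (LinearMap.range f ⊔ D) + dm S ≤ dm (S.map f ⊔ D) + finrank ℂ V := by
  have a1 := dm_comap f S D
  have a2 := dm_comap_top f D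
  have a3 := dm_mono (inf_le_right : S ⊓ D.comap f ≤ _)
  omega

theorem exists_le_dm (S : Submodule ℂ V) {d : ℕ} (h : d ≤ dm S) :
    ∃ T, T ≤ S ∧ dm T = d := by
  obtain ⟨f, hf⟩ := exists_linearIndependent_of_le_finrank (R := ℂ) (M := S) h
  refine ⟨(Submodule.span ℂ (Set.range f)).map S.subtype, Submodule.map_subtype_le _ _, ?_⟩
  rw [dm, Submodule.finrank_map_subtype_eq, finrank_span_eq_card hf, Fintype.card_fin]

/-- A projection onto `D` killing `Z`. -/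
theorem exists_proj {D Z : Submodule ℂ V} (h : ∀ v ∈ D, v ∈ Z → v = 0) :
    ∃ p : V →ₗ[ℂ] V, (∀ d ∈ D, p d = d) ∧ (∀ z ∈ Z, p z = 0) ∧ ∀ v, p v ∈ D := by
  have hd : Disjoint Z D := Submodule.disjoint_def.2 fun v h1 h2 => h v h2 h1
  obtain ⟨Z', h1, h2⟩ := hd.exists_isCompl
  exact ⟨D.projection Z' h2.symm, fun d hd => Submodule.projection_apply_of_mem_left _ hd,
    fun z hz => (Submodule.projection_apply_eq_zero_iff _).2 (h1 hz),
    fun v => Submodule.projection_apply_mem _ v⟩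

/-- A linear map with a given kernel. -/
theorem exists_ker (Z : Submodule ℂ V) : ∃ p : V →ₗ[ℂ] V, LinearMap.ker p = Z := by
  obtain ⟨D, h⟩ := Z.exists_isCompl
  exact ⟨D.projection Z h.symm, Submodule.ker_projection _⟩

/-- A relative complement. -/
theorem exists_compl_in {S T : Submodule ℂ V} (h : S ≤ T) :
    ∃ C, C ≤ T ∧ (∀ v ∈ S, v ∈ C → v = 0) ∧ S ⊔ C = T := by
  obtain ⟨D, hD⟩ := S.exists_isCompl
  refine ⟨D ⊓ T, inf_le_right, fun v h1 h2 => Submodule.disjoint_def.1 hD.disjoint v h1 h2.1, ?_⟩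
  rw [← sup_inf_assoc_of_le D h, hD.sup_eq_top, top_inf_eq]

/-- A generalized inverse. -/
theorem exists_ginv (f : V →ₗ[ℂ] W) : ∃ σ : W →ₗ[ℂ] V, ∀ v, f (σ (f v)) = f v := by
  obtain ⟨p, h1, _, h3⟩ := exists_proj (D := LinearMap.range f) (Z := ⊥) fun _ _ h => h
  obtain ⟨g, hg⟩ := f.rangeRestrict.exists_rightInverse_of_surjective f.range_rangeRestrict
  refine ⟨g ∘ₗ p.codRestrict _ h3, fun v => ?_⟩
  have := congrArg Subtype.val (LinearMap.congr_fun hg (p.codRestrict _ h3 (f v)))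
  simp only [LinearMap.comp_apply, LinearMap.id_apply, LinearMap.codRestrict_apply,
    LinearMap.rangeRestrict] at this ⊢
  rw [this, h1 _ ⟨v, rfl⟩]

/-- A functional separating a vector from a subspace. -/
theorem exists_fun {Z : Submodule ℂ V} {v : V} (h : v ∉ Z) :
    ∃ φ : V →ₗ[ℂ] ℂ, φ v = 1 ∧ ∀ z ∈ Z, φ z = 0 := by
  obtain ⟨φ, h1, h2⟩ := Z.exists_dual_map_eq_bot_of_notMem h inferInstance
  refine ⟨(φ v)⁻¹ • φ, by simp [h1], fun z hz => ?_⟩
  have : φ z ∈ Z.map φ := ⟨z, hz, rfl⟩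
  rw [h2, Submodule.mem_bot] at this
  simp [this]

section Perp

variable {m n k : Type} [Fintype m] [Fintype n] [Fintype k] [DecidableEq m] [DecidableEq n]
  [DecidableEq k]

/-- The annihilator for the standard bilinear form. -/
def perp (S : Submodule ℂ (n → ℂ)) : Submodule ℂ (n → ℂ) where
  carrier := {ξ | ∀ v ∈ S, ξ ⬝ᵥ v = 0}
  add_mem' ha hb v hv := by rw [add_dotProduct, ha v hv, hb v hv, add_zero]
  zero_mem' v _ := zero_dotProduct v
  smul_mem' c a ha v hv := by rw [smul_dotProduct, ha v hv, smul_zero]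

theorem mem_perp {S : Submodule ℂ (n → ℂ)} {ξ : n → ℂ} : ξ ∈ perp S ↔ ∀ v ∈ S, ξ ⬝ᵥ v = 0 :=
  Iff.rfl

theorem dm_perp (S : Submodule ℂ (n → ℂ)) : dm S + dm (perp S) = Fintype.card n := by
  have e : perp S = S.dualAnnihilator.comap (dotProductEquiv ℂ n).toLinearMap := by
    ext ξ
    simp [mem_perp, Submodule.mem_dualAnnihilator]
  have h := Subspace.finrank_add_finrank_dualAnnihilator_eq S
  rw [Module.finrank_fintype_fun_eq_card] at h
  rw [e, dm, dm, ← h, Submodule.comap_equiv_eq_map_symm, LinearEquiv.finrank_map_eq]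

theorem perp_anti {S T : Submodule ℂ (n → ℂ)} (h : S ≤ T) : perp T ≤ perp S :=
  fun _ hξ v hv => hξ v (h hv)

theorem le_perp_perp (S : Submodule ℂ (n → ℂ)) : S ≤ perp (perp S) :=
  fun v hv ξ hξ => by rw [dotProduct_comm]; exact hξ v hv

theorem perp_perp (S : Submodule ℂ (n → ℂ)) : perp (perp S) = S := by
  refine (eq_of_dm_le (le_perp_perp S) ?_).symm
  have a1 := dm_perp S
  have a2 := dm_perp (perp S)
  omega

theorem perp_sup (S T : Submodule ℂ (n → ℂ)) : perp (S ⊔ T) = perp S ⊓ perp T := by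
  apply le_antisymm (le_inf (perp_anti le_sup_left) (perp_anti le_sup_right))
  intro ξ hξ v hv
  obtain ⟨a, ha, b, hb, rfl⟩ := Submodule.mem_sup.1 hv
  rw [dotProduct_add, hξ.1 a ha, hξ.2 b hb, add_zero]

theorem perp_inf (S T : Submodule ℂ (n → ℂ)) : perp (S ⊓ T) = perp S ⊔ perp T := by
  rw [← perp_perp (perp S ⊔ perp T), perp_sup, perp_perp, perp_perp]

theorem eq_top_of_perp {S : Submodule ℂ (n → ℂ)} (h : ∀ ξ ∈ perp S, ξ = 0) : S = ⊤ := by
  apply eq_top_of_dm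
  have a1 := dm_perp S
  have a2 := dm_zero h
  rw [Module.finrank_fintype_fun_eq_card]
  omega

theorem le_of_perp {S T : Submodule ℂ (n → ℂ)} (h : perp T ≤ perp S) : S ≤ T := by
  rw [← perp_perp S, ← perp_perp T]; exact perp_anti h

/-- The transpose of a linear map. -/
noncomputable def tr (f : (n → ℂ) →ₗ[ℂ] (m → ℂ)) : (m → ℂ) →ₗ[ℂ] (n → ℂ) :=
  Matrix.toLin' (LinearMap.toMatrix' f).transpose

theorem tr_dot (f : (n → ℂ) →ₗ[ℂ] (m → ℂ)) (ξ : m → ℂ) (v : n → ℂ) :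
    tr f ξ ⬝ᵥ v = ξ ⬝ᵥ f v := by
  rw [tr, Matrix.toLin'_apply, Matrix.mulVec_transpose, ← Matrix.dotProduct_mulVec,
    LinearMap.toMatrix'_mulVec]

theorem eq_of_dot {a b : n → ℂ} (h : ∀ v, a ⬝ᵥ v = b ⬝ᵥ v) : a = b := by
  ext i
  simpa using h (Pi.single i 1)

theorem tr_tr (f : (n → ℂ) →ₗ[ℂ] (m → ℂ)) : tr (tr f) = f := by simp [tr]

theorem tr_add (f g : (n → ℂ) →ₗ[ℂ] (m → ℂ)) : tr (f + g) = tr f + tr g := by
  simp [tr, Matrix.transpose_add]

theorem tr_sub (f g : (n → ℂ) →ₗ[ℂ] (m → ℂ)) : tr (f - g) = tr f - tr g := by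
  simp [tr, Matrix.transpose_sub]

theorem tr_smul (c : ℂ) (f : (n → ℂ) →ₗ[ℂ] (m → ℂ)) : tr (c • f) = c • tr f := by
  simp [tr, Matrix.transpose_smul]

theorem tr_zero : tr (0 : (n → ℂ) →ₗ[ℂ] (m → ℂ)) = 0 := by simp [tr]

theorem tr_id : tr (LinearMap.id : (n → ℂ) →ₗ[ℂ] (n → ℂ)) = LinearMap.id := by simp [tr]

theorem tr_comp (g : (m → ℂ) →ₗ[ℂ] (k → ℂ)) (f : (n → ℂ) →ₗ[ℂ] (m → ℂ)) :
    tr (g ∘ₗ f) = tr f ∘ₗ tr g := by
  refine LinearMap.ext fun ξ => ?_
  apply eq_of_dot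
  intro v
  simp only [tr_dot, LinearMap.comp_apply]

theorem perp_map (f : (n → ℂ) →ₗ[ℂ] (m → ℂ)) (S : Submodule ℂ (n → ℂ)) :
    perp (S.map f) = (perp S).comap (tr f) := by
  ext ξ
  simp only [mem_perp, Submodule.mem_comap, tr_dot]
  constructor
  · exact fun h v hv => h _ ⟨v, hv, rfl⟩
  · rintro h _ ⟨v, hv, rfl⟩
    exact h v hv

theorem perp_range (f : (n → ℂ) →ₗ[ℂ] (m → ℂ)) :
    perp (LinearMap.range f) = LinearMap.ker (tr f) := by
  ext ξ
  simp only [mem_perp, LinearMap.mem_ker]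
  constructor
  · intro h
    apply eq_of_dot
    intro v
    rw [tr_dot, h _ ⟨v, rfl⟩, zero_dotProduct]
  · rintro h _ ⟨v, rfl⟩
    rw [← tr_dot, h, zero_dotProduct]

theorem perp_comap (f : (n → ℂ) →ₗ[ℂ] (m → ℂ)) (D : Submodule ℂ (m → ℂ)) :
    perp (D.comap f) = (perp D).map (tr f) := by
  rw [← perp_perp ((perp D).map (tr f)), perp_map, perp_perp, tr_tr]

theorem dm_range_tr (f : (n → ℂ) →ₗ[ℂ] (m → ℂ)) :
    dm (LinearMap.range (tr f)) = dm (LinearMap.range f) := by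
  have a1 := dm_perp (LinearMap.range f)
  have a2 := dm_range_ker (tr f)
  rw [perp_range] at a1
  rw [Module.finrank_fintype_fun_eq_card] at a2
  omega

theorem dm_ker_tr (f : (n → ℂ) →ₗ[ℂ] (n → ℂ)) :
    dm (LinearMap.ker (tr f)) = dm (LinearMap.ker f) := by
  have a1 := dm_range_tr f
  have a2 := dm_range_ker (tr f)
  have a3 := dm_range_ker f
  omega

theorem dm_range_sup (f g : (n → ℂ) →ₗ[ℂ] (m → ℂ)) :
    dm (LinearMap.range f ⊔ LinearMap.range g) +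
      dm (LinearMap.ker (tr f) ⊓ LinearMap.ker (tr g)) = Fintype.card m := by
  rw [← perp_range, ← perp_range, ← perp_sup, dm_perp]

end Perp

end Pool.Agent.P.MP_098a67_ag.T3
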