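import Pool.Agent.P.MP_098a67_ag.T3.Co
import Pool.Agent.P.MP_098a67_ag.T3.LA

namespace Pool.Agent.P.MP_098a67_ag.T3

open Module

variable {V W X : Type} [AddCommGroup V] [Module ℂ V] [Co V] [AddCommGroup W] [Module ℂ W] [Co W]
  [AddCommGroup X] [Module ℂ X] [Co X] {E E' E'' : Subfield ℂ}

/-- `E'` lies in an extension of `E` by at most `s` elements. -/
def Ext (E E' : Subfield ℂ) (s : ℕ) : Prop :=
  E ≤ E' ∧ ∃ S : Finset ℂ, S.card ≤ s ∧ E' ≤ Subfield.closure ((E : Set ℂ) ∪ S)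

theorem Ext.le {s : ℕ} (h : Ext E E' s) : E ≤ E' := h.1

theorem Ext.refl (E : Subfield ℂ) : Ext E E 0 :=
  ⟨le_rfl, ∅, le_rfl, fun _ hx => Subfield.subset_closure (Or.inl hx)⟩

theorem Ext.trans {s t : ℕ} (h : Ext E E' s) (h' : Ext E' E'' t) : Ext E E'' (s + t) := by
  classical
  obtain ⟨h1, S, hS, h2⟩ := h
  obtain ⟨h3, T, hT, h4⟩ := h'
  refine ⟨h1.trans h3, S ∪ T, (Finset.card_union_le _ _).trans (by omega), h4.trans ?_⟩
  rw [Subfield.closure_le]
  rintro x (hx | hx)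
  · refine Subfield.closure_mono ?_ (h2 hx)
    exact Set.union_subset_union_right _ (by simp)
  · exact Subfield.subset_closure (Or.inr (by simp [Finset.mem_coe.1 hx]))

theorem ext_fun {κ : Type} [Fintype κ] (E : Subfield ℂ) (c : κ → ℂ) :
    ∃ E', Ext E E' (Fintype.card κ) ∧ ∀ j, c j ∈ E' := by
  classical
  refine ⟨Subfield.closure ((E : Set ℂ) ∪ (Finset.univ.image c : Finset ℂ)),
    ⟨fun x hx => Subfield.subset_closure (Or.inl hx), _, Finset.card_image_le, le_rfl⟩,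
    fun j => Subfield.subset_closure (Or.inr (by simp))⟩

theorem ext1 (E : Subfield ℂ) (a : ℂ) : ∃ E', Ext E E' 1 ∧ a ∈ E' := by
  obtain ⟨E', h1, h2⟩ := ext_fun E fun _ : Unit => a
  exact ⟨E', h1, h2 ()⟩

theorem ext2 (E : Subfield ℂ) (a b : ℂ) : ∃ E', Ext E E' 2 ∧ a ∈ E' ∧ b ∈ E' := by
  obtain ⟨E', h1, h2⟩ := ext_fun E ![a, b]
  exact ⟨E', h1, h2 0, h2 1⟩

theorem ext3 (E : Subfield ℂ) (a b c : ℂ) : ∃ E', Ext E E' 3 ∧ a ∈ E' ∧ b ∈ E' ∧ c ∈ E' := by
  obtain ⟨E', h1, h2⟩ := ext_fun E ![a, b, c]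
  exact ⟨E', h1, h2 0, h2 1, h2 2⟩

theorem ext_vec {κ : Type} [Fintype κ] (E : Subfield ℂ) (y : κ → ℂ) :
    ∃ E', Ext E E' (Fintype.card κ) ∧ RV E' y := by
  obtain ⟨E', h1, h2⟩ := ext_fun E y
  exact ⟨E', h1, rv_pi.2 fun j => rv_C.2 (h2 j)⟩

/-- A point of a rational affine subspace costs at most its dimension. -/
theorem cost {S : Submodule ℂ V} (hS : RS E S) {x x0 : V} (h0 : RV E x0) (h : x - x0 ∈ S) :
    ∃ E', Ext E E' (dm S) ∧ RV E' x := by
  obtain ⟨b, h1, _, h3⟩ := hS.basis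
  rw [← h3] at h
  obtain ⟨c, hc⟩ := h
  obtain ⟨E', e1, e2⟩ := ext_vec E c
  rw [Fintype.card_fin] at e1
  refine ⟨E', e1, ?_⟩
  have : x = lin b c + x0 := by rw [hc]; simp
  rw [this]
  exact ((RM.lin (h1.mono e1.le)).rv e2).add (h0.mono e1.le)

theorem exists_indep (E : Subfield ℂ) (hE : Countable E) (d : ℕ) :
    ∃ c : Fin d → ℂ, ∀ E' s, Ext E E' s → (∀ j, c j ∈ E') → d ≤ s := by
  classical
  obtain ⟨B, hB⟩ := exists_isTranscendenceBasis E ℂ
  have hc : Cardinal.aleph0 < Cardinal.mk ℂ := by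
    rw [Cardinal.mk_complex]; exact Cardinal.aleph0_lt_continuum
  have h1 := IsAlgClosed.cardinal_eq_cardinal_transcendence_basis_of_aleph0_lt' _ hB
    Cardinal.mk_le_aleph0 hc
  have hinf : Infinite B := Cardinal.aleph0_le_mk_iff.1 (h1 ▸ hc.le)
  let j : Fin d ↪ B := Fin.valEmbedding.trans (Infinite.natEmbedding B)
  refine ⟨fun i => j i, fun E' s hs hm => ?_⟩
  obtain ⟨_, S, hS, h2⟩ := hs
  have hind : (AlgebraicIndependent.matroid E ℂ).Indep (Set.range fun i => (j i : ℂ)) := by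
    refine Matroid.Indep.subset (J := B) hB.1 ?_
    rintro _ ⟨i, rfl⟩
    exact (j i).2
  have hsub : (Set.range fun i => (j i : ℂ)) ⊆ (AlgebraicIndependent.matroid E ℂ).closure S := by
    rintro _ ⟨i, rfl⟩
    rw [AlgebraicIndependent.matroid_closure_eq]
    have key : ∀ z ∈ Subfield.closure ((E : Set ℂ) ∪ S),
        z ∈ Subalgebra.algebraicClosure (Algebra.adjoin E (S : Set ℂ)) ℂ := by
      intro z hz
      induction hz using Subfield.closure_induction with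
      | mem x hx =>
        rcases hx with hx | hx
        · exact isAlgebraic_algebraMap (⟨x, (Algebra.adjoin E (S : Set ℂ)).algebraMap_mem
            (⟨x, hx⟩ : E)⟩ : Algebra.adjoin E (S : Set ℂ))
        · exact isAlgebraic_algebraMap
            (⟨x, Algebra.subset_adjoin hx⟩ : Algebra.adjoin E (S : Set ℂ))
      | one => exact one_mem _
      | add x y _ _ hx hy => exact add_mem hx hy
      | neg x _ hx => exact neg_mem hx
      | inv x _ hx => exact IsAlgebraic.inv hx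
      | mul x y _ _ hx hy => exact mul_mem hx hy
    exact key _ (h2 (hm i))
  have h3 := hind.encard_le_eRk_of_subset hsub
  rw [Matroid.eRk_closure_eq] at h3
  have h4 := h3.trans (Matroid.eRk_le_encard _ _)
  have hinj : Function.Injective fun i => (j i : ℂ) := Subtype.val_injective.comp j.injective
  have h5 := hinj.encard_range.trans h4
  rw [Set.encard_coe_eq_coe_finsetCard] at h5
  simp only [ENat.card_eq_coe_fintype_card, Fintype.card_fin, Nat.cast_le] at h5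
  omega

/-- `x` is a generic point of `S`, up to a defect `s`. -/
def GenIn (E : Subfield ℂ) (x : V) (S : Submodule ℂ V) (s : ℕ) : Prop :=
  x ∈ S ∧ RS E S ∧ ∀ E' m, Ext E E' m → RV E' x → dm S ≤ s + m

theorem GenIn.mem {x : V} {S : Submodule ℂ V} {s : ℕ} (h : GenIn E x S s) : x ∈ S := h.1

theorem GenIn.ext {x : V} {S : Submodule ℂ V} {s t : ℕ} (h : GenIn E x S s) (h' : Ext E E' t) :
    GenIn E' x S (s + t) :=
  ⟨h.1, h.2.1.mono h'.le, fun E'' m h1 h2 => by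
    have := h.2.2 E'' _ (h'.trans h1) h2
    omega⟩

/-- Holds for all large enough fields of definition. -/
def Ev (P : Subfield ℂ → Prop) : Prop :=
  ∃ E0 : Subfield ℂ, Countable E0 ∧ ∀ E, E0 ≤ E → P E

theorem countable_closure {s : Set ℂ} (h : s.Countable) : Countable (Subfield.closure s) := by
  have := h.to_subtype
  rw [← Cardinal.mk_le_aleph0_iff]
  exact (Subfield.cardinalMk_closure_le_max s).trans (max_le Cardinal.mk_le_aleph0 le_rfl)

theorem Ev.and {P Q : Subfield ℂ → Prop} (h1 : Ev P) (h2 : Ev Q) : Ev fun E => P E ∧ Q E := by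
  obtain ⟨E1, c1, p1⟩ := h1
  obtain ⟨E2, c2, p2⟩ := h2
  refine ⟨Subfield.closure ((E1 : Set ℂ) ∪ E2), countable_closure
    ((Set.countable_coe_iff.1 c1).union (Set.countable_coe_iff.1 c2)), fun E hE => ⟨p1 E ?_, p2 E ?_⟩⟩
  · exact fun x hx => hE (Subfield.subset_closure (Or.inl hx))
  · exact fun x hx => hE (Subfield.subset_closure (Or.inr hx))

theorem ev_rv (v : V) : Ev fun E => RV E v :=
  ⟨Subfield.closure (Set.range (Co.e v)), countable_closure (Set.countable_range _),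
    fun _ hE i => hE (Subfield.subset_closure ⟨i, rfl⟩)⟩

theorem ev_rm (f : V →ₗ[ℂ] W) : Ev fun E => RM E f := by
  classical
  obtain ⟨E0, c0, p0⟩ := ev_rv fun i : Co.ι V => f (Co.e.symm (Pi.single i 1))
  refine ⟨E0, c0, fun E hE π hπ v => ?_⟩
  have key : ∀ v : V, f v = lin (fun i : Co.ι V => f (Co.e.symm (Pi.single i 1))) (Co.e v) := by
    intro v
    rw [lin_apply]
    simp only [← map_smul, ← map_sum]
    congr 1
    apply (Co.e (V := V)).injective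
    ext i
    simp [Finset.sum_apply, Pi.single_apply]
  rw [key, key (act π v), RM.lin (p0 E hE) π hπ]
  congr 1
  ext i
  rw [e_act]
  rfl

theorem ev_rs (S : Submodule ℂ V) : Ev fun E => RS E S := by
  obtain ⟨p, hp⟩ := exists_ker S
  obtain ⟨E0, c0, p0⟩ := ev_rm p
  exact ⟨E0, c0, fun E hE => hp ▸ RS.ker (p0 E hE)⟩

theorem exists_genIn (S : Submodule ℂ V) {P : Subfield ℂ → Prop} (h : Ev P) :
    ∃ E x, P E ∧ GenIn E x S 0 := by
  obtain ⟨E, c, p⟩ := h.and (ev_rs S)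
  obtain ⟨p1, p2⟩ := p E le_rfl
  obtain ⟨b, h1, h2, h3⟩ := p2.basis
  obtain ⟨y, hy⟩ := exists_indep E c (finrank ℂ S)
  refine ⟨E, lin b y, p1, h3.le ⟨y, rfl⟩, p2, fun E' m e1 e2 => ?_⟩
  have := (RM.lin (h1.mono e1.le)).rv_of_inj h2 e2
  rw [zero_add]
  exact hy E' m e1 fun j => rv_C.1 (rv_pi.1 this j)

/-- A generic point satisfies no rational affine condition of rank above the defect. -/
theorem GenIn.ga {x : V} {S : Submodule ℂ V} {s : ℕ} (h : GenIn E x S s) {L : V →ₗ[ℂ] W}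
    (hL : RM E L) {D : Submodule ℂ W} (hD : RS E D) {ρ : W} (hρ : RV E ρ) (hx : L x - ρ ∈ D)
    {T : Submodule ℂ W} (hT : ∀ w ∈ T, ∃ v ∈ S, L v = w) : dm (T ⊔ D) ≤ dm D + s := by
  obtain ⟨π, h1, h2, h3⟩ := exists_pi0 E
  have a1 : L (act π x) - ρ ∈ D := by
    have := hD π h1 _ hx
    rwa [map_sub, hL π h1, hρ.act_eq h1, h2, one_smul] at this
  have a2 : x - act π x ∈ S ⊓ D.comap L := by
    refine ⟨S.sub_mem h.1 (h.2.1 π h1 x h.1), ?_⟩
    have := D.sub_mem hx a1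
    rw [sub_sub_sub_cancel_right, ← map_sub] at this
    exact this
  obtain ⟨E', e1, e2⟩ := cost (h.2.1.inf (RS.comap hL hD)) (rv_act h3 x) a2
  have a3 := h.2.2 E' _ e1 e2
  have a4 := dm_comap L S D
  have a5 : dm (T ⊔ D) ≤ dm (S.map L ⊔ D) := dm_mono (sup_le_sup_right (fun w hw => hT w hw) D)
  omega

theorem GenIn.ga0 {x : V} {S : Submodule ℂ V} {s : ℕ} (h : GenIn E x S s) {L : V →ₗ[ℂ] W}
    (hL : RM E L) {ρ : W} (hρ : RV E ρ) (hx : L x = ρ)
    {T : Submodule ℂ W} (hT : ∀ w ∈ T, ∃ v ∈ S, L v = w) : dm T ≤ s := by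
  have := h.ga hL RS.bot hρ (by rw [hx, sub_self]; exact Submodule.zero_mem _) hT
  rwa [sup_bot_eq, dm_bot, zero_add] at this

theorem rat_compl_aux {Ω D : Submodule ℂ V} (hΩ : RS E Ω) (hD : D ≤ Ω) (k : ℕ) :
    ∀ C : Submodule ℂ V, RS E C → C ≤ Ω → (∀ v ∈ D, v ∈ C → v = 0) → dm Ω ≤ dm (D ⊔ C) + k →
      ∃ C : Submodule ℂ V, RS E C ∧ C ≤ Ω ∧ (∀ v ∈ D, v ∈ C → v = 0) ∧ D ⊔ C = Ω := by
  induction k with
  | zero => exact fun C h1 h2 h3 h4 => ⟨C, h1, h2, h3, eq_of_dm_le (sup_le hD h2) h4⟩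
  | succ k ih =>
    intro C h1 h2 h3 h4
    by_cases hle : Ω ≤ D ⊔ C
    · exact ⟨C, h1, h2, h3, le_antisymm (sup_le hD h2) hle⟩
    · have : ∃ r, r ∈ Ω ∧ RV E r ∧ r ∉ D ⊔ C := by
        by_contra hc
        refine hle (hΩ.le_span.trans (Submodule.span_le.2 fun r hr => ?_))
        by_contra hn
        exact hc ⟨r, hr.1, hr.2, hn⟩
      obtain ⟨r, r1, r2, r3⟩ := this
      refine ih (C ⊔ ℂ ∙ r) (h1.sup (RS.span_single r2))
        (sup_le h2 ((Submodule.span_singleton_le_iff_mem _ _).2 r1)) (fun v v1 v2 => ?_) ?_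
      · obtain ⟨c, hc, w, hw, rfl⟩ := Submodule.mem_sup.1 v2
        obtain ⟨a, rfl⟩ := Submodule.mem_span_singleton.1 hw
        by_cases ha : a = 0
        · rw [ha, zero_smul, add_zero] at v1 ⊢
          exact h3 c v1 hc
        · exfalso
          apply r3
          have : r = a⁻¹ • ((c + a • r) - c) := by
            rw [add_sub_cancel_left, smul_smul, inv_mul_cancel₀ ha, one_smul]
          rw [this]
          exact Submodule.smul_mem _ _
            (Submodule.sub_mem _ (Submodule.mem_sup_left v1) (Submodule.mem_sup_right hc))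
      · have : dm (D ⊔ C) < dm (D ⊔ (C ⊔ ℂ ∙ r)) :=
          dm_lt (sup_le_sup_left le_sup_left D) (Submodule.mem_sup_right
            (Submodule.mem_sup_right (Submodule.mem_span_singleton_self r))) r3
        omega

/-- A cheap vector of a subspace outside finitely many subspaces. -/
theorem pv {Ω D : Submodule ℂ V} (hΩ : RS E Ω) (hD : D ≤ Ω) {κ : Type} [Finite κ]
    (Z : κ → Submodule ℂ V) (hZ : ∀ i, ¬ D ≤ Z i) :
    ∃ ω ∈ D, (∀ i, ω ∉ Z i) ∧ ∃ E' s, Ext E E' s ∧ s + dm D = dm Ω ∧ RV E' ω := by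
  obtain ⟨C, c1, c2, c3, c4⟩ := rat_compl_aux hΩ hD (dm Ω) ⊥ RS.bot bot_le (fun _ _ h => h)
    (by omega)
  obtain ⟨p, p1, p2, p3⟩ := exists_proj c3
  let Q : Submodule E V :=
    { carrier := {d | d ∈ D ∧ ∃ r, RV E r ∧ d - r ∈ C}
      add_mem' := by
        rintro a b ⟨a1, r, a2, a3⟩ ⟨b1, r', b2, b3⟩
        exact ⟨D.add_mem a1 b1, r + r', a2.add b2, by
          rw [add_sub_add_comm]; exact C.add_mem a3 b3⟩
      zero_mem' := ⟨D.zero_mem, 0, RV.zero, by simp⟩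
      smul_mem' := by
        rintro c a ⟨a1, r, a2, a3⟩
        refine ⟨D.smul_mem (c : ℂ) a1, (c : ℂ) • r, a2.smul c.2, ?_⟩
        have : c • a - (c : ℂ) • r = (c : ℂ) • (a - r) := by rw [smul_sub]; rfl
        rw [this]
        exact C.smul_mem _ a3 }
  have hspan : ∀ T : Submodule ℂ V, (∀ q ∈ Q, q ∈ T) → D ≤ T := by
    intro T hT d hd
    have : Ω ≤ T.comap p := by
      refine hΩ.le_span.trans (Submodule.span_le.2 fun r hr => hT _ ⟨p3 r, r, hr.2, ?_⟩)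
      have hr1 := hr.1
      rw [← c4] at hr1
      obtain ⟨a, ha, b, hb, rfl⟩ := Submodule.mem_sup.1 hr1
      rw [map_add, p1 a ha, p2 b hb, add_zero, sub_add_cancel_left]
      exact C.neg_mem hb
    have h2 : p d ∈ T := this (hD hd)
    rwa [p1 d hd] at h2
  obtain ⟨q, hq⟩ := Submodule.exists_forall_notMem_of_forall_ne_top
    (fun i => ((Z i).restrictScalars E).comap Q.subtype) fun i hi => hZ i (hspan _ fun q hq => by
      have : (⟨q, hq⟩ : Q) ∈ ((Z i).restrictScalars E).comap Q.subtype := by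
        rw [hi]; trivial
      exact this)
  obtain ⟨q1, r, q2, q3⟩ := q.2
  obtain ⟨E', e1, e2⟩ := cost c1 q2 q3
  refine ⟨q, q1, hq, E', _, e1, ?_, e2⟩
  rw [← c4, dm_sup_eq c3, add_comm]

theorem pv1 {Ω D Z : Submodule ℂ V} (hΩ : RS E Ω) (hD : D ≤ Ω) (hZ : ¬ D ≤ Z) :
    ∃ ω ∈ D, ω ∉ Z ∧ ∃ E' s, Ext E E' s ∧ s + dm D = dm Ω ∧ RV E' ω := by
  obtain ⟨ω, h1, h2, h3⟩ := pv hΩ hD (fun _ : Unit => Z) fun _ => hZ
  exact ⟨ω, h1, h2 (), h3⟩

theorem pv2 {Ω D Z Z' : Submodule ℂ V} (hΩ : RS E Ω) (hD : D ≤ Ω) (hZ : ¬ D ≤ Z)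
    (hZ' : ¬ D ≤ Z') :
    ∃ ω ∈ D, ω ∉ Z ∧ ω ∉ Z' ∧ ∃ E' s, Ext E E' s ∧ s + dm D = dm Ω ∧ RV E' ω := by
  obtain ⟨ω, h1, h2, h3⟩ := pv hΩ hD ![Z, Z'] fun i => by fin_cases i <;> assumption
  exact ⟨ω, h1, h2 0, h2 1, h3⟩

/-- A nonzero vector can be rescaled so that it costs one parameter less. -/
theorem pv_norm (E : Subfield ℂ) {v : V} (hv : v ≠ 0) :
    ∃ c : ℂ, c ≠ 0 ∧ ∃ E' s, Ext E E' s ∧ s + 1 = finrank ℂ V ∧ RV E' (c • v) := by
  obtain ⟨ω, h1, h2, E', s, h3, h4, h5⟩ := pv1 (D := ℂ ∙ v) (Z := ⊥) (RS.top (E := E)) le_top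
    fun h => hv (h (Submodule.mem_span_singleton_self v))
  obtain ⟨c, rfl⟩ := Submodule.mem_span_singleton.1 h1
  rw [dm_span_single hv, dm_top] at h4
  exact ⟨c, fun h => h2 (by simp [h]), E', s, h3, h4, h5⟩

theorem RS.exists_le {S : Submodule ℂ V} (hS : RS E S) {d : ℕ} (h : d ≤ dm S) :
    ∃ T, T ≤ S ∧ RS E T ∧ dm T = d := by
  obtain ⟨b, h1, h2, h3⟩ := hS.basis
  have hb : ∀ j, b j ∈ S := fun j => by
    rw [← h3]
    exact ⟨Pi.single j 1, by simp [lin]⟩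
  have hi : LinearIndependent ℂ (b ∘ Fin.castLE h) :=
    (linearIndependent_iff_injective_fintypeLinearCombination.2 h2).comp _ (Fin.castLE_injective h)
  refine ⟨LinearMap.range (lin (b ∘ Fin.castLE h)), ?_,
    RS.range (RM.lin (rv_pi.2 fun j => rv_pi.1 h1 _)), ?_⟩
  · rintro _ ⟨y, rfl⟩
    exact lin_mem (mem_cols.2 fun j => hb _) y
  · rw [dm_range_eq fun v hv => linearIndependent_iff_injective_fintypeLinearCombination.1 hi
      (by rw [map_zero]; exact hv), Module.finrank_fintype_fun_eq_card, Fintype.card_fin]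

/-- Columns with a prescribed value at `y` and vanishing on a subspace. -/
theorem exists_cols {κ : Type} [Fintype κ] {y : κ → ℂ} {Z : Submodule ℂ (κ → ℂ)} (h : y ∉ Z)
    {S : Submodule ℂ V} {w : V} (hw : w ∈ S) :
    ∃ Φ ∈ cols κ S, lin Φ y = w ∧ ∀ z ∈ Z, lin Φ z = 0 := by
  classical
  obtain ⟨φ, h1, h2⟩ := exists_fun h
  have key : ∀ z, lin (fun j => φ (Pi.single j 1) • w) z = φ z • w := by
    intro z
    rw [lin_apply]
    simp only [smul_smul, ← Finset.sum_smul]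
    congr 1
    rw [LinearMap.pi_apply_eq_sum_univ φ z]
    refine Finset.sum_congr rfl fun j _ => ?_
    rw [smul_eq_mul]
    congr 2
    ext i
    simp [Pi.single_apply, eq_comm]
  exact ⟨fun j => φ (Pi.single j 1) • w, mem_cols.2 fun j => S.smul_mem _ hw,
    by rw [key, h1, one_smul], fun z hz => by rw [key, h2 z hz, zero_smul]⟩

theorem exists_cols1 {κ : Type} [Fintype κ] {y : κ → ℂ} (h : y ≠ 0)
    {S : Submodule ℂ V} {w : V} (hw : w ∈ S) : ∃ Φ ∈ cols κ S, lin Φ y = w := by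
  obtain ⟨Φ, h1, h2, _⟩ := exists_cols (Z := ⊥) h hw
  exact ⟨Φ, h1, h2⟩

end Pool.Agent.P.MP_098a67_ag.T3
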