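import Pool.Agent.P.MP_098a67_ag.T3.PT

namespace Pool.Agent.P.MP_098a67_ag.T3

open Module

variable {V W : Type} [AddCommGroup V] [Module ℂ V] [AddCommGroup W] [Module ℂ W]

/-- Rank of a triple. -/
def RK3 (A B C : V →ₗ[ℂ] W) (r : ℕ) : Prop :=
  RK (fun x : ℂ × ℂ × ℂ => x.1 • A + x.2.1 • B + x.2.2 • C) r

theorem eig_le {ρ : ℕ} {a b : ℂ} (hab : a ≠ 0 ∨ b ≠ 0) (μ : ℂ) :
    dm (LinearMap.ker (LinearMap.mulLeft ℂ (fun i : Fin ρ => a * (i : ℕ) + b * (i : ℕ) ^ 2) -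
      μ • LinearMap.id)) ≤ 2 := by
  classical
  let s := Finset.univ.filter fun i : Fin ρ => a * (i : ℕ) + b * (i : ℕ) ^ 2 = μ
  have hs : s.card ≤ 2 := by
    by_contra hc
    obtain ⟨i, j, k, hi, hj, hk, hij, hik, hjk⟩ := Finset.two_lt_card_iff.1 (not_le.1 hc)
    have ne : ∀ {i j : Fin ρ}, i ≠ j → ((i : ℕ) : ℂ) - (j : ℕ) ≠ 0 := fun h h' =>
      h (Fin.ext (Nat.cast_injective (R := ℂ) (sub_eq_zero.1 h')))
    have e1 := (Finset.mem_filter.1 hi).2
    have e2 := (Finset.mem_filter.1 hj).2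
    have e3 := (Finset.mem_filter.1 hk).2
    have f1 : a + b * ((i : ℕ) + (j : ℕ)) = 0 :=
      (mul_eq_zero.1 (show (((i : ℕ) : ℂ) - (j : ℕ)) * (a + b * ((i : ℕ) + (j : ℕ))) = 0 by
        linear_combination e1 - e2)).resolve_left (ne hij)
    have f2 : a + b * ((i : ℕ) + (k : ℕ)) = 0 :=
      (mul_eq_zero.1 (show (((i : ℕ) : ℂ) - (k : ℕ)) * (a + b * ((i : ℕ) + (k : ℕ))) = 0 by
        linear_combination e1 - e3)).resolve_left (ne hik)
    have f3 : b = 0 :=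
      (mul_eq_zero.1 (show (((j : ℕ) : ℂ) - (k : ℕ)) * b = 0 by
        linear_combination f1 - f2)).resolve_left (ne hjk)
    have f4 : a = 0 := by rw [f3] at f1; simpa using f1
    rcases hab with h | h
    · exact h f4
    · exact h f3
  refine le_trans (dm_le_of_inj (LinearMap.funLeft ℂ ℂ (Subtype.val : s → Fin ρ)) (T := ⊤)
    (fun _ _ => trivial) fun w hw h0 => ?_) ?_
  · ext i
    by_cases hi : i ∈ s
    · exact congrFun h0 ⟨i, hi⟩
    · have h1 : (a * (i : ℕ) + b * (i : ℕ) ^ 2) * w i - μ * w i = 0 := congrFun hw i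
      have h2 : a * (i : ℕ) + b * (i : ℕ) ^ 2 - μ ≠ 0 := fun h =>
        hi (Finset.mem_filter.2 ⟨Finset.mem_univ _, sub_eq_zero.1 h⟩)
      rw [← sub_mul] at h1
      exact (mul_eq_zero.1 h1).resolve_left h2
  · rw [dm_top, Module.finrank_fintype_fun_eq_card, Fintype.card_coe]
    exact hs

theorem RM.mulLeft {E : Subfield ℂ} {κ : Type} [Fintype κ] {d : κ → ℂ} (h : ∀ i, d i ∈ E) :
    RM E (LinearMap.mulLeft ℂ d) := fun π hπ v => by
  ext i
  exact hπ _ (h i) _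

variable [Co V] [Co W]

/-- Free points along a slice. -/
theorem lemA (S : V →ₗ[ℂ] W) {P : Subfield ℂ → Prop} (hP : Ev P) :
    ∃ (E : Subfield ℂ) (Y1 Y2 : V →ₗ[ℂ] W), P E ∧ RK3 S Y1 Y2 (dm (LinearMap.range S)) ∧
      (∀ v, S v = 0 → Y1 v = 0 ∧ Y2 v = 0) ∧
      (∀ v, Y1 v ∈ LinearMap.range S ∧ Y2 v ∈ LinearMap.range S) ∧
      ∀ (E' : Subfield ℂ) (s : ℕ) (a b : ℂ), Ext E E' s → a ∈ E' → b ∈ E' → a ≠ 0 ∨ b ≠ 0 →
        ∀ (X : Type) [AddCommGroup X] [Module ℂ X] [Co X] (j : X →ₗ[ℂ] V) (L : X →ₗ[ℂ] W)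
          (X0 D : Submodule ℂ X), RM E' j → RM E' L → RS E' X0 → D ≤ X0 →
          (∀ x ∈ D, L x = a • Y1 (j x) + b • Y2 (j x)) →
          dm D ≤ dm (X0 ⊓ LinearMap.ker (S ∘ₗ j) ⊓ LinearMap.ker L) + 2 ∨
          dm D + dm (LinearMap.range S) ≤ dm (X0 ⊓ (LinearMap.range S).comap L) + s := by
  classical
  obtain ⟨U, U', u1, u2, u3, _⟩ := exists_param (S := LinearMap.range S) (Z := ⊥) fun _ _ h => h
  generalize hρ : dm (LinearMap.range S) = ρ at U U' u1 u2 u3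
  obtain ⟨E, G, ⟨⟨⟨pE, rU⟩, rU'⟩, rS⟩, hG⟩ := exists_genIn (⊤ : Submodule ℂ (Fin ρ → Fin ρ → ℂ))
    (((hP.and (ev_rm U)).and (ev_rm U')).and (ev_rm S))
  have hinj : Function.Injective (lin G) := by
    refine LinearMap.ker_eq_bot.1 (LinearMap.ker_eq_bot'.2 fun y hy => ?_)
    by_contra hy0
    obtain ⟨c, hc, E1, s, e1, o1, o2⟩ := pv_norm E hy0
    have := (hG.ext e1).ga0 (RM.ev o2) RV.zero (T := ⊤)
      (by rw [ev_apply, map_smul, hy, smul_zero]) fun w _ => by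
        obtain ⟨Φ, _, h2⟩ := exists_cols1 (smul_ne_zero hc hy0) (S := ⊤) (w := w) trivial
        exact ⟨Φ, trivial, h2⟩
    rw [dm_top] at this
    omega
  let g : (Fin ρ → ℂ) ≃ₗ[ℂ] (Fin ρ → ℂ) := LinearEquiv.ofInjectiveEndo (lin G) hinj
  have hg : ∀ y, lin G (g.symm y) = y := fun y => g.apply_symm_apply y
  let Y : (Fin ρ → ℂ) → V →ₗ[ℂ] W := fun d =>
    U ∘ₗ lin G ∘ₗ LinearMap.mulLeft ℂ d ∘ₗ g.symm.toLinearMap ∘ₗ U' ∘ₗ S
  have hY : ∀ d v, Y d v = U (lin G (d * g.symm (U' (S v)))) := fun _ _ => rfl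
  have hSY : ∀ v, S v = Y 1 v := fun v => by rw [hY, one_mul, hg, u3 _ ⟨v, rfl⟩]
  have hsum : ∀ d v, Y d v = ∑ l, (d l * g.symm (U' (S v)) l) • U (G l) := fun d v => by
    rw [hY, lin_apply, map_sum]
    simp
  refine ⟨E, Y fun i => (i : ℕ), Y fun i => (i : ℕ) ^ 2, pE, ?_, fun v hv => ?_,
    fun v => ⟨u1 _, u1 _⟩, fun E' s a b e1 ha hb hab X _ _ _ j L X0 D rj rL r0 hD hL => ?_⟩
  · refine ⟨Fin ρ, inferInstance, by simp,
      fun l => LinearMap.proj l ∘ₗ g.symm.toLinearMap ∘ₗ U' ∘ₗ S, fun l => U (G l),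
      fun l x => x.1 + x.2.1 * (l : ℕ) + x.2.2 * (l : ℕ) ^ 2, fun x v => ?_⟩
    simp only [LinearMap.add_apply, LinearMap.smul_apply]
    conv_lhs => rw [hSY v]
    simp only [hsum, Finset.smul_sum, smul_smul, ← Finset.sum_add_distrib, ← add_smul]
    refine Finset.sum_congr rfl fun l _ => ?_
    congr 1
    show _ = _ * g.symm (U' (S v)) l
    simp only [Pi.one_apply]
    ring
  · simp [hY, hv]
  · let d : Fin ρ → ℂ := fun i => a * (i : ℕ) + b * (i : ℕ) ^ 2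
    have rd : ∀ i, d i ∈ E' := fun i =>
      add_mem (mul_mem ha (natCast_mem E' _)) (mul_mem hb (pow_mem (natCast_mem E' _) 2))
    have hL' : ∀ x ∈ D, L x = U (lin G (d * g.symm (U' (S (j x))))) := fun x hx => by
      rw [hL x hx, hY, hY, ← map_smul, ← map_smul, ← map_smul, ← map_smul, ← map_add, ← map_add]
      congr 2
      ext i
      simp only [d, Pi.add_apply, Pi.smul_apply, Pi.mul_apply, smul_eq_mul]
      ring
    let f : X →ₗ[ℂ] X × (Fin ρ → ℂ) := LinearMap.id.prod (g.symm.toLinearMap ∘ₗ U' ∘ₗ S ∘ₗ j)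
    have hf : dm (D.map f) = dm D := dm_map_eq fun v _ h => (Prod.ext_iff.1 h).1
    let Z : Option (Fin ρ) → Submodule ℂ (X × (Fin ρ → ℂ)) := fun o =>
      (LinearMap.ker (LinearMap.mulLeft ℂ d - (o.elim 0 d) • LinearMap.id)).comap
        (LinearMap.snd ℂ _ _)
    by_cases hZ : ∀ o, ¬ D.map f ≤ Z o
    · right
      obtain ⟨ω, o1, o2, E2, s2, e2, o3, o4⟩ := pv (Ω := (X0 ⊓ (LinearMap.range S).comap L).prod ⊤)
        ((r0.inf (RS.comap rL (RS.range (rS.mono e1.le)))).prod RS.top) (by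
          rintro _ ⟨x, hx, rfl⟩
          refine ⟨⟨hD hx, ?_⟩, trivial⟩
          show L x ∈ LinearMap.range S
          rw [hL' x hx]
          exact u1 _) Z hZ
      obtain ⟨x, hx, hxω⟩ := o1
      have w1 : ω.1 = x := by rw [← hxω]; rfl
      have w2 : ω.2 = g.symm (U' (S (j x))) := by rw [← hxω]; rfl
      have hw0 : ω.2 ≠ 0 := fun h0 => o2 none (by
        show LinearMap.mulLeft ℂ d ω.2 - (0 : ℂ) • ω.2 = 0
        rw [h0]; simp)
      have n1 : d * ω.2 ∉ ℂ ∙ ω.2 := by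
        intro hm
        obtain ⟨μ, hμ⟩ := Submodule.mem_span_singleton.1 hm
        obtain ⟨i, hi⟩ := Function.ne_iff.1 hw0
        have : μ = d i := mul_right_cancel₀ hi (congrFun hμ i)
        refine o2 (some i) ?_
        show d * ω.2 - d i • ω.2 = 0
        rw [← this, hμ, sub_self]
      have n2 : ω.2 ∉ ℂ ∙ (d * ω.2) := by
        intro hm
        obtain ⟨μ, hμ⟩ := Submodule.mem_span_singleton.1 hm
        have hμ0 : μ ≠ 0 := fun h => hw0 (by rw [← hμ, h, zero_smul])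
        refine n1 (Submodule.mem_span_singleton.2 ⟨μ⁻¹, ?_⟩)
        conv_lhs => rw [← hμ]
        rw [smul_smul, inv_mul_cancel₀ hμ0, one_smul]
      have le2 := e1.le.trans e2.le
      have rx : RV E2 x := w1 ▸ o4.fst
      have := ((hG.ext e1).ext e2).ga0
        ((RM.ev o4.snd).prod ((rU.mono le2).comp
          (RM.ev ((RM.mulLeft fun i => e2.le (rd i)).rv o4.snd))))
        (((rU'.mono le2).rv ((rS.mono le2).rv ((rj.mono e2.le).rv rx))).mk
          ((rL.mono e2.le).rv rx)) (T := Submodule.prod ⊤ (LinearMap.range U))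
        (by
          refine Prod.ext ?_ ?_
          · show lin G ω.2 = _
            rw [w2, hg]
          · show U (lin G (d * ω.2)) = L x
            rw [w2, hL' x hx])
        (by
          rintro ⟨z, _⟩ ⟨_, z', rfl⟩
          obtain ⟨Φ, _, p1, p2⟩ := exists_cols n2 (S := ⊤) (w := z) trivial
          obtain ⟨Ψ, _, p3, p4⟩ := exists_cols n1 (S := ⊤) (w := z') trivial
          refine ⟨Φ + Ψ, trivial, Prod.ext ?_ ?_⟩
          · show ev ω.2 (Φ + Ψ) = z
            rw [map_add, ev_apply, ev_apply, p1, p4 _ (Submodule.mem_span_singleton_self _),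
              add_zero]
          · show U (ev (d * ω.2) (Φ + Ψ)) = U z'
            rw [map_add, ev_apply, ev_apply, p3, p2 _ (Submodule.mem_span_singleton_self _),
              zero_add])
      rw [dm_prod, dm_top, dm_range_eq fun y hy => by rw [← u2 y, hy, map_zero],
        Module.finrank_fintype_fun_eq_card, Fintype.card_fin] at this
      rw [hf, dm_prod, dm_top, Module.finrank_fintype_fun_eq_card, Fintype.card_fin] at o3
      omega
    · left
      push Not at hZ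
      obtain ⟨o, ho⟩ := hZ
      have a1 := dm_le_add (g.symm.toLinearMap ∘ₗ U' ∘ₗ S ∘ₗ j) LinearMap.id (S := D)
        (K := X0 ⊓ LinearMap.ker (S ∘ₗ j) ⊓ LinearMap.ker L)
        (T := LinearMap.ker (LinearMap.mulLeft ℂ d - (o.elim 0 d) • LinearMap.id))
        (fun x hx => ho ⟨x, hx, rfl⟩) (fun x hx h0 => by
          have h1 : g.symm (U' (S (j x))) = 0 := h0
          refine ⟨⟨hD hx, ?_⟩, ?_⟩
          · show S (j x) = 0
            rw [← u3 _ ⟨j x, rfl⟩, ← hg (U' (S (j x))), h1, map_zero, map_zero]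
          · show L x = 0
            rw [hL' x hx, h1, mul_zero, map_zero, map_zero]) fun _ _ _ h => h
      have a2 := eig_le (ρ := ρ) hab (o.elim 0 d)
      exact a1.trans (by rw [add_comm]; exact Nat.add_le_add_left a2 _)

end Pool.Agent.P.MP_098a67_ag.T3
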