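import Pool.Agent.P.MP_098a67_ag.T3.TriC

namespace Pool.Agent.P.MP_098a67_ag.T3

open Module
open LinearMap (ker range)

section Upper

variable {X : Type} [AddCommGroup X] [Module ℂ X] [Module.Finite ℂ X]
  {n : Type} [Fintype n] [DecidableEq n]

theorem conc_step (hX : finrank ℂ X = 3) (T : X →ₗ[ℂ] (n → ℂ) →ₗ[ℂ] (n → ℂ)) (hc : ¬ Conc T) :
    ∃ T' : X →ₗ[ℂ] (n → ℂ) →ₗ[ℂ] (n → ℂ), dm (KK T' ⊤) < dm (KK T ⊤) ∧
      dm (KK (trT T') ⊤) ≤ dm (KK (trT T) ⊤) ∧ ∀ r, RK T' r → RK T r := by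
  simp only [Conc, not_forall] at hc
  obtain ⟨v0, h0, hv0⟩ := hc
  obtain ⟨φ, hφ, -⟩ := exists_fun (Z := ⊥) (v := v0) hv0
  obtain ⟨w, -, hw⟩ := exists_notMem (S := range T.flip) (T := ⊤) (by
    have h1 := dm_range_le T.flip
    have h2 := dm_le (ℂ ∙ v0)
    rw [dm_span_single hv0] at h2
    rw [dm_top, Module.finrank_linearMap, hX]
    omega)
  let T' : X →ₗ[ℂ] (n → ℂ) →ₗ[ℂ] (n → ℂ) := T + (φ.smulRight w).flip
  have e : ∀ x v, T' x v = T x v + φ v • w x := fun _ _ => rfl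
  have e2 : ∀ x v, T x v = T' x (v - φ v • v0) := fun x v => by
    simp [e, h0, hφ]
  have k : ∀ v ∈ KK T' ⊤, φ v = 0 := fun v hv => by
    by_contra hne
    refine hw ⟨-(φ v)⁻¹ • v, LinearMap.ext fun x => smul_right_injective _ hne ?_⟩
    have := hv x trivial
    rw [e] at this
    simp only [LinearMap.flip_apply, map_smul, LinearMap.smul_apply, smul_smul, mul_neg,
      mul_inv_cancel₀ hne]
    linear_combination (norm := module) -this
  refine ⟨T', dm_lt (v := v0) (fun v hv x _ => ?_) (fun x _ => h0 x) fun hv => ?_,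
    dm_mono fun η hη x _ => eq_of_dot fun v => ?_, 
      fun r h => h.of id LinearMap.id (LinearMap.id - φ.smulRight v0) e2⟩
  · have := hv x trivial
    rwa [e, k v hv, zero_smul, add_zero] at this
  · exact one_ne_zero (hφ.symm.trans (k v0 hv))
  · show tr (T x) η ⬝ᵥ v = _
    rw [tr_dot, e2, ← tr_dot, show tr (T' x) η = 0 from hη x trivial, zero_dotProduct,
      zero_dotProduct]

theorem upper_all (hX : finrank ℂ X = 3) {h : ℕ} (hn : Fintype.card n = 4 * h) (N : ℕ) :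
    ∀ T : X →ₗ[ℂ] (n → ℂ) →ₗ[ℂ] (n → ℂ), dm (KK T ⊤) + dm (KK (trT T) ⊤) < N →
      RK T (7 * h + 16) := by
  induction N with
  | zero => exact fun T hT => absurd hT (Nat.not_lt_zero _)
  | succ N ih =>
    intro T hT
    by_cases c1 : Conc T
    · by_cases c2 : Conc (trT T)
      · exact upper_conc hX hn c1 c2
      · obtain ⟨T', h1, h2, h3⟩ := conc_step hX _ c2
        rw [trT_trT] at h2
        exact RK.of_tr (h3 _ (ih T' (by omega)))
    · obtain ⟨T', h1, h2, h3⟩ := conc_step hX _ c1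
      exact h3 _ (ih T' (by omega))

theorem upper (hX : finrank ℂ X = 3) {d h : ℕ} (hd : d ≤ 4 * h)
    (T : X →ₗ[ℂ] (Fin d → ℂ) →ₗ[ℂ] (Fin d → ℂ)) : RK T (7 * h + 16) := by
  obtain ⟨S, -, rfl⟩ := exists_le_dm (⊤ : Submodule ℂ (Fin (4 * h) → ℂ)) (d := d)
    (by rwa [dm_top, card_fun, Fintype.card_fin])
  obtain ⟨i, j, -, hj, -⟩ := exists_param (S := S) (Z := ⊥) fun _ _ h => h
  exact (upper_all hX (Fintype.card_fin _) _ ((T.compr₂ i).compl₂ j) (Nat.lt_succ_self _)).of id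
    j i fun x v => by simp [hj]

end Upper

section Lower

theorem subst_in {V W κ : Type} [AddCommGroup V] [Module ℂ V] [Module.Finite ℂ V]
    [AddCommGroup W] [Module ℂ W] (d : ℕ) : ∀ (g : κ → V →ₗ[ℂ] W) (r : ℕ) (U : Submodule ℂ V),
    RK g r → dm U = d → (∀ u ∈ U, (∀ k, g k u = 0) → u = 0) →
    ∃ (R : V →ₗ[ℂ] V) (r' : ℕ), r' + d ≤ r ∧ (∀ v, R v - v ∈ U) ∧ RK (fun k => g k ∘ₗ R) r' := by
  classical
  induction d with
  | zero => exact fun g r U h _ _ => ⟨LinearMap.id, r, le_rfl, fun v => by simp, h⟩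
  | succ d ih =>
    rintro g r U ⟨s, _, hs, φ, w, c, h⟩ hU hc
    obtain ⟨u, hu, h0⟩ := exists_notMem (S := ⊥) (T := U) (by rw [dm_bot]; omega)
    obtain ⟨l, hl⟩ : ∃ l, φ l u ≠ 0 := by
      by_contra hn
      push Not at hn
      exact h0 (hc u hu fun k => by simp [h, hn])
    let R1 : V →ₗ[ℂ] V := LinearMap.id - ((φ l u)⁻¹ • φ l).smulRight u
    have e1 : ∀ v, R1 v = v - ((φ l u)⁻¹ * φ l v) • u := fun _ => rfl
    have e2 : ∀ v, φ l (R1 v) = 0 := fun v => by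
      rw [e1, map_sub, map_smul, smul_eq_mul]
      field_simp
      ring
    have hpos : 0 < Fintype.card s := Fintype.card_pos_iff.2 ⟨l⟩
    have h1 : RK (fun k => g k ∘ₗ R1) (r - 1) := by
      refine ⟨{x // x ≠ l}, inferInstance, by simp; omega, fun x => φ x ∘ₗ R1, fun x => w x,
        fun x => c x, fun k v => ?_⟩
      rw [LinearMap.comp_apply, h, Fintype.sum_eq_add_sum_subtype_ne _ l, e2]
      simp
    obtain ⟨C, c1, c2, c3⟩ := exists_compl_in ((Submodule.span_singleton_le_iff_mem u U).2 hu)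
    have e3 := dm_sup_eq c2
    rw [c3, dm_span_single h0] at e3
    obtain ⟨R, r', a1, a2, a3⟩ := ih _ _ C h1 (by omega) fun v hv e => by
      have := hc (R1 v) (U.sub_mem (c1 hv) (U.smul_mem _ hu)) e
      rw [e1, sub_eq_zero] at this
      exact c2 v (Submodule.mem_span_singleton.2 ⟨_, this.symm⟩) hv
    refine ⟨R1 ∘ₗ R, r', by omega, fun v => ?_, a3⟩
    rw [LinearMap.comp_apply, e1, sub_right_comm]
    exact U.sub_mem (c1 (a2 v)) (U.smul_mem _ hu)

variable {ι m κ : Type} [Fintype ι] [DecidableEq ι] [Fintype m] [DecidableEq m]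

theorem tr_left (e : ι → m) (v : ι → ℂ) (j : m) :
    tr (LinearMap.funLeft ℂ ℂ e) v j = ∑ i, if e i = j then v i else 0 := by
  have := tr_dot (LinearMap.funLeft ℂ ℂ e) v (Pi.single j 1)
  rw [dotProduct_single_one] at this
  rw [this]
  simp [dotProduct, LinearMap.funLeft_apply, Pi.single_apply]

theorem dbl (e : ι ⊕ ι ↪ m) (f : κ → (ι → ℂ) →ₗ[ℂ] (ι → ℂ)) :
    ∃ g : Option κ → (m → ℂ) →ₗ[ℂ] (m → ℂ), ∀ r, RK g r →
      ∃ r', r' + 2 * Fintype.card ι ≤ r ∧ RK f r' := by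
  obtain ⟨p, q, h11, h12, h21, h22⟩ : ∃ p q : (m → ℂ) →ₗ[ℂ] (ι → ℂ), (∀ v, p (tr p v) = v) ∧
      (∀ v, p (tr q v) = 0) ∧ (∀ v, q (tr p v) = 0) ∧ ∀ v, q (tr q v) = v :=
    ⟨LinearMap.funLeft ℂ ℂ (e ∘ Sum.inl), LinearMap.funLeft ℂ ℂ (e ∘ Sum.inr),
      fun v => funext fun j => by simp [LinearMap.funLeft_apply, tr_left],
      fun v => funext fun j => by simp [LinearMap.funLeft_apply, tr_left],
      fun v => funext fun j => by simp [LinearMap.funLeft_apply, tr_left],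
      fun v => funext fun j => by simp [LinearMap.funLeft_apply, tr_left]⟩
  refine ⟨fun k => k.elim (tr p ∘ₗ q + tr q ∘ₗ p) fun k => tr p ∘ₗ f k ∘ₗ p, fun r h => ?_⟩
  have dU : dm (range (tr q)) = Fintype.card ι := by
    rw [dm_range_eq fun v hv => by rw [← h22 v, hv, map_zero], card_fun]
  have hp : ∀ {a b : m → ℂ}, a - b ∈ range (tr q) → p a = p b := by
    rintro a b ⟨v, hv⟩
    rw [← sub_eq_zero, ← map_sub, ← hv, h12]
  obtain ⟨R, r1, a1, a2, a3⟩ := subst_in _ _ _ _ h dU (by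
    rintro _ ⟨v, rfl⟩ hv
    have := congrArg p (hv none)
    simp only [Option.elim, LinearMap.add_apply, LinearMap.comp_apply, h12, h22, map_add, h11,
      map_zero, add_zero] at this
    rw [this, map_zero])
  have a4 := (a3.of (g := fun k => ((k.elim (tr p ∘ₗ q + tr q ∘ₗ p)
    fun k => tr p ∘ₗ f k ∘ₗ p) ∘ₗ R) ∘ₗ tr p) id LinearMap.id (tr p) fun _ _ => rfl).tr
  obtain ⟨R', r2, b1, b2, b3⟩ := subst_in _ _ _ _ a4 dU (by
    rintro _ ⟨v, rfl⟩ hv
    have : v = 0 := eq_of_dot fun w => by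
      rw [← hv none, tr_dot, tr_dot]
      simp [h21, h22, hp (a2 _), h11]
    rw [this, map_zero])
  refine ⟨r2, by omega, RK.of_tr (b3.of some LinearMap.id (tr p) fun k η => eq_of_dot fun w => ?_)⟩
  simp only [LinearMap.id_apply, LinearMap.comp_apply, tr_dot, Option.elim, hp (a2 _), h11]
  rw [dotProduct_comm (R' _), tr_dot, hp (b2 _), h11, dotProduct_comm]

theorem lower {n h : ℕ} (hn : 4 * h ≤ n) :
    ∃ g : Option (Option Unit) → (Fin n → ℂ) →ₗ[ℂ] (Fin n → ℂ), ∀ r, RK g r → 7 * h ≤ r := by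
  obtain ⟨g1, h1⟩ := dbl (Function.Embedding.refl (Fin h ⊕ Fin h))
    fun _ : Unit => (LinearMap.id : (Fin h → ℂ) →ₗ[ℂ] (Fin h → ℂ))
  obtain ⟨e⟩ := Function.Embedding.nonempty_of_card_le
    (α := (Fin h ⊕ Fin h) ⊕ (Fin h ⊕ Fin h)) (β := Fin n) (by simp; omega)
  obtain ⟨g, h2⟩ := dbl e g1
  refine ⟨g, fun r hr => ?_⟩
  obtain ⟨r1, a1, a2⟩ := h2 r hr
  obtain ⟨r2, b1, b2⟩ := h1 r1 a2
  obtain ⟨_, r3, c1, -⟩ := subst_in _ _ _ ⊤ b2 rfl fun u _ hu => hu ()
  rw [dm_top, card_fun] at c1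
  simp only [Fintype.card_sum, Fintype.card_fin] at a1 b1 c1
  omega

end Lower

theorem three (n : ℕ) :
    ∃ m : ℕ, IsLeast {r : ℕ | ∀ X : Fin n → Fin n → Fin 3 → ℂ, ∃ a b : Fin r → Fin n → ℂ,
        ∃ c : Fin r → Fin 3 → ℂ, ∀ i j k, X i j k = ∑ l, a l i * b l j * c l k} m ∧
      7 * (n / 4) ≤ m ∧ m ≤ 7 * ((n + 3) / 4) + 16 := by
  classical
  have up : ∀ X : Fin n → Fin n → Fin 3 → ℂ, ∃ a b : Fin (7 * ((n + 3) / 4) + 16) → Fin n → ℂ,
      ∃ c : Fin (7 * ((n + 3) / 4) + 16) → Fin 3 → ℂ,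
        ∀ i j k, X i j k = ∑ l, a l i * b l j * c l k := fun X => by
    obtain ⟨s, _, hs, φ, w, c, h⟩ := upper (X := Fin 3 → ℂ) (by simp) (d := n) (h := (n + 3) / 4)
      (by omega) (Fintype.linearCombination ℂ fun k => Matrix.toLin' (Matrix.of fun i j => X i j k))
    obtain ⟨e⟩ := Function.Embedding.nonempty_of_card_le (α := s)
      (β := Fin (7 * ((n + 3) / 4) + 16)) (by simpa using hs)
    refine ⟨Function.extend e w 0, Function.extend e (fun l j => φ l (Pi.single j 1)) 0,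
      Function.extend e (fun l k => c l (Pi.single k 1)) 0, fun i j k => ?_⟩
    have := congrFun (h (Pi.single k 1) (Pi.single j 1)) i
    simp only [Fintype.linearCombination_apply_single, one_smul, Matrix.toLin'_apply,
      Matrix.mulVec_single_one, Finset.sum_apply, Pi.smul_apply, smul_eq_mul] at this
    refine Eq.trans this (Fintype.sum_of_injective e e.injective _ _ (fun l hl => ?_) fun l => ?_)
    · rw [Function.extend_apply' _ _ _ hl]
      simp
    · simp only [e.injective.extend_apply]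
      ring
  have ex : ∃ r, ∀ X : Fin n → Fin n → Fin 3 → ℂ, ∃ a b : Fin r → Fin n → ℂ,
      ∃ c : Fin r → Fin 3 → ℂ, ∀ i j k, X i j k = ∑ l, a l i * b l j * c l k := ⟨_, up⟩
  refine ⟨Nat.find ex, ⟨Nat.find_spec ex, fun r hr => Nat.find_min' ex hr⟩, ?_,
    Nat.find_min' ex up⟩
  obtain ⟨g, hg⟩ := lower (n := n) (h := n / 4) (by omega)
  obtain ⟨a, b, c, h⟩ := Nat.find_spec ex fun i j k =>
    g (![none, some none, some (some ())] k) (Pi.single j 1) i
  have h1 : RK (fun k : Fin 3 => g (![none, some none, some (some ())] k)) (Nat.find ex) := by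
    refine ⟨Fin _, inferInstance, (Fintype.card_fin _).le, fun l => Fintype.linearCombination ℂ (b l),
      a, c, fun k v => funext fun i => ?_⟩
    conv_lhs => rw [← Finset.univ_sum_single v]
    have : ∀ j, (Pi.single j (v j) : Fin n → ℂ) = v j • Pi.single j 1 := fun j => by
      rw [← Pi.single_smul, smul_eq_mul, mul_one]
    simp only [this, map_sum, map_smul, Finset.sum_apply, Pi.smul_apply, smul_eq_mul, h,
      Fintype.linearCombination_apply, Finset.mul_sum, Finset.sum_mul]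
    rw [Finset.sum_comm]
    exact Finset.sum_congr rfl fun _ _ => Finset.sum_congr rfl fun _ _ => by ring
  refine hg _ (h1.re (fun k => k.elim 0 fun k => k.elim 1 fun _ => 2) fun k v => ?_)
  rcases k with _ | _ | _ <;> rfl

end Pool.Agent.P.MP_098a67_ag.T3
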