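import Pool.Agent.P.MP_098a67_ag.T3.Rk

namespace Pool.Agent.P.MP_098a67_ag.T3

open Module LinearMap

variable {V W : Type} [AddCommGroup V] [Module ℂ V] [Module.Finite ℂ V]
  [AddCommGroup W] [Module ℂ W] [Module.Finite ℂ W]

/-- Coordinates on a subspace, vanishing on a disjoint subspace. -/
theorem exists_param {S Z : Submodule ℂ V} (h : ∀ v ∈ S, v ∈ Z → v = 0) :
    ∃ (i : (Fin (dm S) → ℂ) →ₗ[ℂ] V) (j : V →ₗ[ℂ] (Fin (dm S) → ℂ)), (∀ y, i y ∈ S) ∧
      (∀ y, j (i y) = y) ∧ (∀ v ∈ S, i (j v) = v) ∧ ∀ z ∈ Z, j z = 0 := by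
  obtain ⟨p, p1, p2, p3⟩ := exists_proj h
  let e : S ≃ₗ[ℂ] (Fin (dm S) → ℂ) := (Module.finBasis ℂ S).equivFun
  refine ⟨S.subtype ∘ₗ e.symm.toLinearMap, e.toLinearMap ∘ₗ p.codRestrict S p3,
    fun y => (e.symm y).2, fun y => ?_, fun v hv => ?_, fun z hz => ?_⟩
  · have : p.codRestrict S p3 (e.symm y) = e.symm y := Subtype.ext (p1 _ (e.symm y).2)
    show e (p.codRestrict S p3 (e.symm y)) = y
    rw [this, e.apply_symm_apply]
  · show ((e.symm (e (p.codRestrict S p3 v)) : S) : V) = v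
    rw [e.symm_apply_apply]
    exact p1 v hv
  · have : p.codRestrict S p3 z = 0 := Subtype.ext (p2 z hz)
    show e (p.codRestrict S p3 z) = 0
    rw [this, map_zero]

theorem pt0 (P Q : V →ₗ[ℂ] W) (Wp : Submodule ℂ W) (U : Submodule ℂ V) (z r : ℕ)
    (hP : ∀ v, P v ∈ Wp) (hQ : ∀ v, Q v ∈ Wp) (hU : ∀ u ∈ U, P u = 0 ∧ Q u = 0)
    (h : ∀ a b : ℂ, a ≠ 0 ∨ b ≠ 0 → dm (ker (a • P + b • Q)) ≤ z)
    (hr : dm Wp + z + 2 ≤ r + dm U) : RK2 P Q r := by
  obtain ⟨C, hC⟩ := U.exists_isCompl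
  have hd : ∀ v ∈ C, v ∈ U → v = 0 := fun v h1 h2 =>
    Submodule.disjoint_def.1 hC.disjoint v h2 h1
  obtain ⟨j, j', j1, j2, j3, j4⟩ := exists_param hd
  obtain ⟨i, i', _, _, i3, _⟩ := exists_param (S := Wp) (Z := ⊥) fun _ _ h => h
  have hUz : dm U ≤ z := (dm_mono fun u hu => by simp [(hU u hu).1]).trans
    (h 1 0 (Or.inl one_ne_zero))
  have key := pt_core (i' ∘ₗ P ∘ₗ j) (i' ∘ₗ Q ∘ₗ j) (z - dm U) fun a b hab => by
    have a1 := h a b hab
    have a2 : dm ((ker (a • (i' ∘ₗ P ∘ₗ j) + b • (i' ∘ₗ Q ∘ₗ j))).map j ⊔ U) ≤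
        dm (ker (a • P + b • Q)) := by
      refine dm_mono (sup_le ?_ fun u hu => by simp [(hU u hu).1, (hU u hu).2])
      rintro _ ⟨y, hy, rfl⟩
      have b1 : i' (a • P (j y) + b • Q (j y)) = 0 := by simpa using hy
      have b2 := i3 _ (Wp.add_mem (Wp.smul_mem a (hP (j y))) (Wp.smul_mem b (hQ (j y))))
      rw [b1, map_zero] at b2
      exact b2.symm
    rw [dm_sup_eq (by rintro _ ⟨y, _, rfl⟩ hu; exact hd _ (j1 y) hu),
      dm_map_eq fun y _ hy => by rw [← j2 y, hy, map_zero]] at a2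
    omega
  rw [Module.finrank_fintype_fun_eq_card, Fintype.card_fin] at key
  have hj : ∀ (R : V →ₗ[ℂ] W), (∀ u ∈ U, R u = 0) → ∀ v, R (j (j' v)) = R v := by
    intro R hR v
    have : v ∈ U ⊔ C := by rw [hC.sup_eq_top]; trivial
    obtain ⟨u, hu, c, hc, rfl⟩ := Submodule.mem_sup.1 this
    rw [map_add, j4 u hu, zero_add, j3 c hc, map_add, hR u hu, zero_add]
  refine RK.mono (key.of i j' (fun v => ?_) fun v => ?_) (by omega)
  · simp only [comp_apply]
    rw [i3 _ (hP _), hj P fun u hu => (hU u hu).1]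
  · simp only [comp_apply]
    rw [i3 _ (hQ _), hj Q fun u hu => (hU u hu).2]

theorem pt0' (P Q : V →ₗ[ℂ] W) (ρ r : ℕ)
    (h : ∀ a b : ℂ, a ≠ 0 ∨ b ≠ 0 → ρ ≤ dm (range (a • P + b • Q)))
    (hr : dm (range P ⊔ range Q) + finrank ℂ V + 2 ≤ r + dm (ker P ⊓ ker Q) + ρ) :
    RK2 P Q r := by
  have a1 := (h 1 0 (Or.inl one_ne_zero)).trans (dm_range_le _)
  refine pt0 P Q (range P ⊔ range Q) (ker P ⊓ ker Q) (finrank ℂ V - ρ) r
    (fun v => Submodule.mem_sup_left ⟨v, rfl⟩) (fun v => Submodule.mem_sup_right ⟨v, rfl⟩)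
    (fun u hu => hu) (fun a b hab => ?_) (by omega)
  have a2 := h a b hab
  have a3 := dm_range_ker (a • P + b • Q)
  omega

theorem dm_range_add_le (f g : V →ₗ[ℂ] W) : dm (range (f + g)) ≤ dm (range f) + dm (range g) :=
  (dm_mono (range_add_le f g)).trans (dm_sup_le _ _)

theorem dm_range_smul {a : ℂ} (ha : a ≠ 0) (f : V →ₗ[ℂ] W) :
    dm (range (a • f)) = dm (range f) := by rw [range_smul f a ha]

/-- Removing the columns on which only `Q` acts. -/
theorem ct_step (P Q : V →ₗ[ℂ] W) : ∃ (R : V →ₗ[ℂ] W) (k : ℕ), dm (range R) ≤ k ∧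
    dm (range P ⊔ (ker P).map Q) ≤ dm (range P) + k ∧
    dm (range P ⊔ range (Q - R)) + k ≤ dm (range P ⊔ range Q) ∧
    dm (ker P ⊓ ker Q) + k ≤ dm (ker P ⊓ ker (Q - R)) ∧ range (Q - R) ≤ range Q := by
  obtain ⟨T, t1, t2, t3⟩ := exists_compl_in (inf_le_right : range P ⊓ (ker P).map Q ≤ _)
  obtain ⟨π, p1, p2, p3⟩ := exists_proj (D := T) (Z := range P) fun v h1 h2 =>
    t2 v ⟨h2, t1 h1⟩ h1
  have hT : T ≤ range Q := t1.trans map_le_range
  have hR : range (Q - π ∘ₗ Q) ≤ range Q := by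
    rintro _ ⟨v, rfl⟩
    exact Submodule.sub_mem _ ⟨v, rfl⟩ (hT (p3 _))
  refine ⟨π ∘ₗ Q, dm T, dm_mono ?_, ?_, ?_, ?_, hR⟩
  · rintro _ ⟨v, rfl⟩
    exact p3 _
  · refine le_trans (dm_mono ?_) (dm_sup_le (range P) T)
    rw [← t3]
    exact sup_le le_sup_left (sup_le (inf_le_left.trans le_sup_left) le_sup_right)
  · have a1 := dm_map_ker π (range P ⊔ range Q)
    have a2 : dm T ≤ dm ((range P ⊔ range Q).map π) :=
      dm_mono fun t ht => ⟨t, Submodule.mem_sup_right (hT ht), p1 t ht⟩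
    have a3 : dm (range P ⊔ range (Q - π ∘ₗ Q)) ≤ dm ((range P ⊔ range Q) ⊓ ker π) := by
      refine dm_mono (sup_le (le_inf le_sup_left p2) (le_inf (hR.trans le_sup_right) ?_))
      rintro _ ⟨v, rfl⟩
      show π (Q v - π (Q v)) = 0
      rw [map_sub, p1 _ (p3 _), sub_self]
    omega
  · have a1 := dm_comap Q (ker P) T
    have a2 := dm_map_ker Q (ker P)
    rw [sup_eq_left.2 t1] at a1
    have a3 : dm (ker P ⊓ T.comap Q) ≤ dm (ker P ⊓ ker (Q - π ∘ₗ Q)) := by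
      refine dm_mono fun v hv => ⟨hv.1, ?_⟩
      show Q v - π (Q v) = 0
      rw [p1 _ hv.2, sub_self]
    omega

theorem rk2_step {P Q R : V →ₗ[ℂ] W} {k r : ℕ} (hR : dm (range R) ≤ k) (hk : k ≤ r)
    (h : RK2 P (Q - R) (r - k)) : RK2 P Q r := by
  refine RK.mono (RK.add h (((rk_one R).mono hR).re (g := fun p : ℂ × ℂ => p.2 • R) Prod.snd
    fun _ _ => rfl) fun p v => ?_) (by omega)
  simp only [LinearMap.add_apply, LinearMap.smul_apply, LinearMap.sub_apply]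
  module

theorem rank_step (P Q R : V →ₗ[ℂ] W) (a b : ℂ) :
    dm (range (a • P + b • Q)) ≤ dm (range (a • P + b • (Q - R))) + dm (range R) := by
  have e : a • P + b • Q = (a • P + b • (Q - R)) + b • R := by module
  have a1 := dm_range_add_le (a • P + b • (Q - R)) (b • R)
  have a2 : dm (range (b • R)) ≤ dm (range R) := dm_mono (range_smul_le_range R b)
  rw [e]
  omega

theorem pt1 (P Q : V →ₗ[ℂ] W) (ρ r : ℕ)
    (h : ∀ a b : ℂ, b ≠ 0 → ρ ≤ dm (range (a • P + b • Q)))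
    (h1 : ρ ≤ dm (range P ⊔ (ker P).map Q))
    (hr : dm (range P ⊔ range Q) + finrank ℂ V + 2 ≤ r + dm (ker P ⊓ ker Q) + ρ) :
    RK2 P Q r := by
  obtain ⟨R, k, c1, c2, c3, c4, _⟩ := ct_step P Q
  have a1 : dm (range P ⊔ (ker P).map Q) ≤ dm (range P ⊔ range Q) :=
    dm_mono (sup_le_sup_left map_le_range _)
  have a2 := dm_le (ker P ⊓ ker (Q - R))
  refine rk2_step c1 (by omega) (pt0' P (Q - R) (ρ - k) _ (fun a b hab => ?_) (by omega))
  by_cases hb : b = 0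
  · rw [hb, zero_smul, add_zero, dm_range_smul (hab.resolve_right (not_not.2 hb))]
    omega
  · have a3 := h a b hb
    have a4 := rank_step P Q R a b
    omega

theorem pt2 {m n : Type} [Fintype m] [Fintype n] [DecidableEq m] [DecidableEq n]
    (P Q : (n → ℂ) →ₗ[ℂ] (m → ℂ)) (ρ r : ℕ)
    (h : ∀ a b : ℂ, a ≠ 0 → b ≠ 0 → ρ ≤ dm (range (a • P + b • Q)))
    (h1 : ρ ≤ dm (range P ⊔ (ker P).map Q))
    (h2 : ρ ≤ dm (range (tr Q) ⊔ (ker (tr Q)).map (tr P)))
    (hr : dm (range P ⊔ range Q) + Fintype.card n + 2 ≤ r + dm (ker P ⊓ ker Q) + ρ) :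
    RK2 P Q r := by
  obtain ⟨R, k, c1, c2, c3, c4, c5⟩ := ct_step P Q
  have a1 : dm (range P ⊔ (ker P).map Q) ≤ dm (range P ⊔ range Q) :=
    dm_mono (sup_le_sup_left map_le_range _)
  have a2 := dm_le (ker P ⊓ ker (Q - R))
  rw [Module.finrank_fintype_fun_eq_card] at a2
  refine rk2_step c1 (by omega) (RK2.of_tr (RK2.swap
    (pt1 (tr (Q - R)) (tr P) (ρ - k) _ (fun a b hb => ?_) ?_ ?_)))
  · rw [← tr_smul, ← tr_smul, ← tr_add, dm_range_tr, add_comm]
    by_cases ha : a = 0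
    · rw [ha, zero_smul, add_zero, dm_range_smul hb]
      omega
    · have a3 := h b a hb ha
      have a4 := rank_step P Q R b a
      omega
  · have a3 : range (tr Q) ⊔ (ker (tr Q)).map (tr P) ≤
        (range (tr (Q - R)) ⊔ (ker (tr (Q - R))).map (tr P)) ⊔ range (tr R) := by
      refine sup_le ?_ (le_sup_of_le_left (le_sup_of_le_right (Submodule.map_mono ?_)))
      · rintro _ ⟨ξ, rfl⟩
        have : tr Q ξ = tr (Q - R) ξ + tr R ξ := by rw [tr_sub]; simp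
        rw [this]
        exact Submodule.add_mem_sup (Submodule.mem_sup_left ⟨ξ, rfl⟩) ⟨ξ, rfl⟩
      · rw [← perp_range, ← perp_range]
        exact perp_anti c5
    have a4 := (dm_mono a3).trans (dm_sup_le _ _)
    rw [dm_range_tr] at a4
    omega
  · have a3 := dm_range_sup (tr (Q - R)) (tr P)
    have a4 := dm_range_sup P (Q - R)
    rw [tr_tr, tr_tr, inf_comm] at a3
    rw [inf_comm] at a4
    rw [Module.finrank_fintype_fun_eq_card]
    omega

/-- The bound for an arbitrary square pencil. -/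
theorem rk2_square (P Q : V →ₗ[ℂ] V) (h : ℕ) (hn : finrank ℂ V = 4 * h) : RK2 P Q (6 * h + 1) := by
  by_cases hc : ∀ a b : ℂ, a ≠ 0 ∨ b ≠ 0 → 2 * h + 1 ≤ dm (range (a • P + b • Q))
  · have := dm_le (range P ⊔ range Q)
    exact pt0' P Q _ _ hc (by omega)
  · have key : ∀ P Q : V →ₗ[ℂ] V, ∀ a b : ℂ, a ≠ 0 → dm (range (a • P + b • Q)) ≤ 2 * h →
        RK2 P Q (6 * h + 1) := by
      intro P Q a b ha hr
      have := dm_le (range Q)
      refine RK.mono (RK.add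
        ((rk_one (a • P + b • Q)).re (g := fun p : ℂ × ℂ => (p.1 / a) • (a • P + b • Q))
          (fun p => p.1 / a) fun _ _ => rfl)
        ((rk_one Q).re (g := fun p : ℂ × ℂ => (p.2 - p.1 / a * b) • Q)
          (fun p => p.2 - p.1 / a * b) fun _ _ => rfl) fun p v => ?_) (by omega)
      simp only [LinearMap.add_apply, LinearMap.smul_apply]
      match_scalars <;> field_simp <;> ring
    push Not at hc
    obtain ⟨a, b, hab, hr⟩ := hc
    rcases hab with ha | hb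
    · exact key P Q a b ha (by omega)
    · exact (key Q P b a hb (by rw [add_comm]; omega)).swap

end Pool.Agent.P.MP_098a67_ag.T3
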