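import Pool.Agent.P.MP_098a67_ag.T3.StX
import Pool.Agent.P.MP_098a67_ag.T3.GL2

namespace Pool.Agent.P.MP_098a67_ag.T3

open Module
open LinearMap (ker range)

variable {n : Type} [Fintype n] [DecidableEq n]

theorem RS.perp {E : Subfield ℂ} {S : Submodule ℂ (n → ℂ)} (hS : RS E S) : RS E (perp S) := by
  intro π hπ η hη v hv
  refine Submodule.span_induction (p := fun v _ => act π η ⬝ᵥ v = 0) (fun w hw => ?_)
    (dotProduct_zero _) (fun a b _ _ ha hb => by rw [dotProduct_add, ha, hb, add_zero])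
    (fun c a _ ha => by rw [dotProduct_smul, ha, smul_zero]) (hS.le_span hv)
  have h1 : π (η ⬝ᵥ w) = act π η ⬝ᵥ w := by
    show π (∑ i, η i * w i) = ∑ i, π (η i) * w i
    rw [map_sum]
    refine Finset.sum_congr rfl fun i _ => ?_
    rw [mul_comm, hπ _ (rv_C.1 (rv_pi.1 hw.2 i)), mul_comm]
  rw [← h1, hη w hw.1, map_zero]

/-- The fixed part of the column decomposition. -/
noncomputable def Cs (A1 σ A : (n → ℂ) →ₗ[ℂ] (n → ℂ)) (K : Submodule ℂ (n → ℂ)) {t : ℕ}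
    (u : (Fin t → ℂ) →ₗ[ℂ] (n → ℂ)) : Submodule ℂ (n → ℂ) :=
  ker A1 ⊔ K ⊔ range (σ ∘ₗ A ∘ₗ u)

/-- A block of columns. -/
noncomputable def Hs (σ A : (n → ℂ) →ₗ[ℂ] (n → ℂ)) {t f : ℕ} (u : (Fin t → ℂ) →ₗ[ℂ] (n → ℂ))
    (F : Fin f → n → ℂ) : Submodule ℂ (n → ℂ) :=
  range (σ ∘ₗ A ∘ₗ u) ⊔ range (lin F)

theorem mem_Hs {σ A : (n → ℂ) →ₗ[ℂ] (n → ℂ)} {t f : ℕ} {u : (Fin t → ℂ) →ₗ[ℂ] (n → ℂ)}
    {F : Fin f → n → ℂ} {v : n → ℂ} : v ∈ Hs σ A u F ↔ ∃ y x, σ (A (u y)) + lin F x = v := by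
  constructor
  · intro hv
    obtain ⟨_, ⟨y, rfl⟩, _, ⟨x, rfl⟩, rfl⟩ := Submodule.mem_sup.1 hv
    exact ⟨y, x, rfl⟩
  · rintro ⟨y, x, rfl⟩
    exact Submodule.add_mem_sup ⟨y, rfl⟩ ⟨x, rfl⟩

theorem mem_Cs {A1 σ A : (n → ℂ) →ₗ[ℂ] (n → ℂ)} {K : Submodule ℂ (n → ℂ)} {t : ℕ}
    {u : (Fin t → ℂ) →ₗ[ℂ] (n → ℂ)} {v : n → ℂ} :
    v ∈ Cs A1 σ A K u ↔ ∃ ν κ y, A1 ν = 0 ∧ κ ∈ K ∧ ν + κ + σ (A (u y)) = v := by
  constructor
  · intro hv
    obtain ⟨_, h1, _, ⟨y, rfl⟩, rfl⟩ := Submodule.mem_sup.1 hv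
    obtain ⟨ν, hν, κ, hκ, rfl⟩ := Submodule.mem_sup.1 h1
    exact ⟨ν, κ, y, hν, hκ, rfl⟩
  · rintro ⟨ν, κ, y, hν, hκ, rfl⟩
    exact Submodule.add_mem_sup (Submodule.add_mem_sup hν hκ) ⟨y, rfl⟩

theorem mem_J {A1 σ A : (n → ℂ) →ₗ[ℂ] (n → ℂ)} {K : Submodule ℂ (n → ℂ)} {t f : ℕ}
    {u : (Fin t → ℂ) →ₗ[ℂ] (n → ℂ)} {F : Fin f → n → ℂ} {v : n → ℂ}
    (hv : v ∈ ker A1 ⊔ K ⊔ Hs σ A u F) : ∃ x, v - lin F x ∈ Cs A1 σ A K u := by
  obtain ⟨a, ha, b, hb, rfl⟩ := Submodule.mem_sup.1 hv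
  obtain ⟨y, x, rfl⟩ := mem_Hs.1 hb
  refine ⟨x, ?_⟩
  rw [← add_assoc, add_sub_cancel_right]
  exact Submodule.add_mem_sup ha ⟨y, rfl⟩

/-- All data before the third stage. -/
structure Ctx (A1 A2 A3 σ : (n → ℂ) →ₗ[ℂ] (n → ℂ)) (K W0 T : Submodule ℂ (n → ℂ))
    (h γ k ks l L t q f2 f3 : ℕ) (u : (Fin t → ℂ) →ₗ[ℂ] (n → ℂ))
    (ξ : (Fin q → ℂ) →ₗ[ℂ] (n → ℂ)) (E : Subfield ℂ) (F2 : Fin f2 → n → ℂ)
    (F3 : Fin f3 → n → ℂ) : Prop where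
  b : Base A1 A2 A3 σ K W0 h γ k ks l L t q
  su : StU A1 A2 A3 σ K T h γ k t q u
  su' : StU A1 A3 A2 σ K T h γ k t q u
  sx : StX A1 A2 A3 σ h γ t q u ξ
  sx' : StX A1 A3 A2 σ h γ t q u ξ
  r : Rat0 A1 A2 A3 σ K T E
  ru : RM E u
  rξ : RM E ξ
  gen : GenIn E (F2, F3) ((cols (Fin f2) (perp (range (tr A3 ∘ₗ ξ)))).prod
    (cols (Fin f3) (perp (range (tr A2 ∘ₗ ξ))))) 0
  hf : f2 + f3 + l + 2 * t + γ = 4 * h
  hf2 : f2 ≤ f3 + 1
  hf3 : f3 ≤ f2 + 1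

variable {A1 A2 A3 σ : (n → ℂ) →ₗ[ℂ] (n → ℂ)} {K W0 T : Submodule ℂ (n → ℂ)}
  {h γ k ks l L t q f2 f3 : ℕ} {u : (Fin t → ℂ) →ₗ[ℂ] (n → ℂ)} {ξ : (Fin q → ℂ) →ₗ[ℂ] (n → ℂ)}
  {E : Subfield ℂ} {F2 : Fin f2 → n → ℂ} {F3 : Fin f3 → n → ℂ}

theorem dm_range_fin {W : Type} [AddCommGroup W] [Module ℂ W] [Module.Finite ℂ W] {d : ℕ}
    (f : (Fin d → ℂ) →ₗ[ℂ] W) : dm (range f) ≤ d := by
  have := dm_range_le f
  rwa [card_fun, Fintype.card_fin] at this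

namespace Ctx

variable (c : Ctx A1 A2 A3 σ K W0 T h γ k ks l L t q f2 f3 u ξ E F2 F3)
include c

theorem swap : Ctx A1 A3 A2 σ K W0 T h γ k ks l L t q f3 f2 u ξ E F3 F2 :=
  ⟨c.b.swap, c.su', c.su, c.sx', c.sx, c.r.swap, c.ru, c.rξ, c.gen.swap,
    by have := c.hf; omega, c.hf3, c.hf2⟩

theorem dL : 4 * h ≤ dm (perp (range (tr A2 ∘ₗ ξ))) + q := by
  have a1 := dm_perp (range (tr A2 ∘ₗ ξ))
  have a2 := dm_range_fin (tr A2 ∘ₗ ξ)
  have a3 := c.b.hn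
  omega

theorem dC : dm (Cs A1 σ A2 K u) ≤ γ + l + t := by
  have a1 := dm_sup_le (ker A1 ⊔ K) (range (σ ∘ₗ A2 ∘ₗ u))
  have a2 := dm_sup_le (ker A1) K
  have a3 := dm_range_fin (σ ∘ₗ A2 ∘ₗ u)
  have a4 := c.b.g1
  have a5 := c.b.dK
  rw [Cs]
  omega

theorem rC : RS E (Cs A1 σ A2 K u) := by
  obtain ⟨r1, r2, _, rσ, _, _, _, _, rK, _⟩ := c.r
  exact ((RS.ker r1).sup rK).sup (RS.range (rσ.comp (r2.comp c.ru)))

theorem s2 (y : Fin t → ℂ) : A1 (σ (A2 (u y))) = A2 (u y) := c.b.sig' (c.su.w2 y)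

theorem inj3 (y : Fin t → ℂ) (hy : A3 (u y) = 0) : y = 0 :=
  c.su.u3 y (by rw [hy]; exact Submodule.zero_mem _)

theorem num : t = h - γ - 4 ∧ q = h + ks - γ - 4 ∧ ks ≤ k ∧ k + ks ≤ γ ∧ l ≤ γ ∧ γ ≤ 2 * h ∧
    4 ≤ h ∧ f2 + f3 + l + 2 * t + γ = 4 * h ∧ f2 ≤ f3 + 1 ∧ f3 ≤ f2 + 1 :=
  ⟨c.b.ht, c.b.hq, c.b.i1, c.b.i2, c.b.i4, c.b.i5, c.b.hh, c.hf, c.hf2, c.hf3⟩

theorem d2a {r1 r2 : ℂ} (hr : r1 ≠ 0 ∨ r2 ≠ 0) (y : Fin t → ℂ)
    (hy : r1 • A1 (u y) + r2 • A2 (u y) ∈ (K ⊔ Hs σ A3 u F3).map A1) : y = 0 := by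
  by_cases t0 : t = 0
  · exact fin_zero t0 y
  obtain ⟨_, hv, e⟩ := hy
  obtain ⟨κ, hκ, _, hb, rfl⟩ := Submodule.mem_sup.1 hv
  obtain ⟨y3, x3, rfl⟩ := mem_Hs.1 hb
  rw [map_add, map_add, c.swap.s2] at e
  obtain ⟨E1, e1, h1, h2⟩ := ext2 E r1 r2
  obtain ⟨p1, p2, p3, _, _, _, _, _, pK, _⟩ := c.r.mono e1.le
  have pu := c.ru.mono e1.le
  have hx : x3 = 0 := by
    refine g1e (c.gen.snd.ext e1) p1 (((RS.range (((p1.smul h1).add (p2.smul h2)).comp pu)).sup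
      (RS.range (p3.comp pu))).sup (RS.map p1 pK)) ?_ ?_
    · have : A1 (lin F3 x3) = (r1 • A1 (u y) + r2 • A2 (u y)) + A3 (u (-y3)) + A1 (-κ) := by
        simp only [map_neg]
        linear_combination (norm := module) e
      rw [this]
      exact Submodule.add_mem_sup (Submodule.add_mem_sup ⟨y, rfl⟩ ⟨-y3, rfl⟩)
        ⟨-κ, K.neg_mem hκ, rfl⟩
    · have a1 := dm_sup_le (range ((r1 • A1 + r2 • A2) ∘ₗ u) ⊔ range (A3 ∘ₗ u)) (K.map A1)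
      have a2 := dm_sup_le (range ((r1 • A1 + r2 • A2) ∘ₗ u)) (range (A3 ∘ₗ u))
      have a3 := dm_range_fin ((r1 • A1 + r2 • A2) ∘ₗ u)
      have a4 := dm_range_fin (A3 ∘ₗ u)
      have a5 := dm_map_le A1 K
      have a6 := dm_le_map_add A1 (perp (range (tr A2 ∘ₗ ξ)))
      have a7 := dm_mono (le_sup_left : (perp (range (tr A2 ∘ₗ ξ))).map A1 ≤
        _ ⊔ (range ((r1 • A1 + r2 • A2) ∘ₗ u) ⊔ range (A3 ∘ₗ u) ⊔ K.map A1))
      have a8 := c.dL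
      have a9 := c.num
      have a10 := c.b.dK
      have a11 := c.b.g1
      rw [Fintype.card_fin]
      omega
  rw [hx, map_zero, map_zero, add_zero] at e
  refine (c.su.up r1 r2 hr y (-y3) ⟨κ, hκ, ?_⟩).1
  simp only [map_neg]
  linear_combination (norm := module) e

theorem d2b {r1 r2 : ℂ} (hr : r1 ≠ 0 ∨ r2 ≠ 0) (y : Fin q → ℂ)
    (hy : r1 • tr A1 (ξ y) + r2 • tr A2 (ξ y) ∈ perp (range (lin F2))) : y = 0 := by
  by_cases q0 : q = 0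
  · exact fin_zero q0 y
  by_cases hm : r1 • tr A1 (ξ y) + r2 • tr A2 (ξ y) ∈ perp (perp (range (tr A3 ∘ₗ ξ)))
  · rw [perp_perp] at hm
    obtain ⟨y', hy'⟩ := hm
    refine (c.sx.xp r1 r2 hr y (-y') ?_).1
    rw [← hy', map_neg, map_neg]
    exact add_neg_cancel _
  · obtain ⟨E1, e1, h1, h2⟩ := ext2 E r1 r2
    obtain ⟨E2, e2, h3⟩ := ext_vec E1 y
    obtain ⟨_, _, _, _, p1, p2, _⟩ := c.r.mono (e1.le.trans e2.le)
    have py := (c.rξ.mono (e1.le.trans e2.le)).rv h3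
    have a1 := gf0 ((c.gen.fst.ext e1).ext e2)
      (((p1.rv py).smul (e2.le h1)).add ((p2.rv py).smul (e2.le h2))) hm hy
    have a2 := c.num
    rw [Fintype.card_fin, Fintype.card_fin] at a1
    omega

theorem m1 {a b : ℂ} (ha : a ≠ 0) {Te : Submodule ℂ (n → ℂ)} (hT : Te = ⊥ ∨ Te = T)
    (hΓ : γ ≤ dm ((ker A1).map (a • A2 + b • A3) ⊔ Te) + ks) :
    t + f3 + h ≤ dm ((ker A1).map (a • A2 + b • A3) ⊔ Te ⊔
      (Hs σ A3 u F3).map (a • A2 + b • A3) ⊔ (Hs σ A3 u F3).map A1) + 4 := by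
  have num := c.num
  have dL := c.dL
  obtain ⟨E1, e1, ha1, hb1⟩ := ext2 E a b
  obtain ⟨p1, p2, p3, _, _, _, _, _, _, pT⟩ := c.r.mono e1.le
  have pu := c.ru.mono e1.le
  have pM := (p2.smul ha1).add (p3.smul hb1)
  have pTe : RS E1 Te := by
    rcases hT with rfl | rfl
    · exact RS.bot
    · exact pT
  obtain ⟨ν, q', n1, n2, n3, n4⟩ : ∃ ν q', ν + q' + 4 = h ∧
      ν ≤ dm ((ker A1).map (a • A2 + b • A3) ⊔ Te) ∧ q' ≤ f3 ∧ (t = 0 ∨ ν = 0) := by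
    by_cases t0 : t = 0
    · exact ⟨min (h - 4) (γ - ks), h - 4 - min (h - 4) (γ - ks), by omega, by omega, by omega,
        Or.inl t0⟩
    · exact ⟨0, h - 4, by omega, by omega, by omega, Or.inr rfl⟩
  obtain ⟨Γ, Γ1, Γ2, Γ3⟩ := ((RS.map pM (RS.ker p1)).sup pTe).exists_le n2
  obtain ⟨P, _, P2, P3⟩ := (RS.top (E := E1) (V := Fin f3 → ℂ)).exists_le (d := q')
    (by rw [dm_top, card_fun, Fintype.card_fin]; exact n3)
  have b1 := c.su.u2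
  generalize hM : a • A2 + b • A3 = M at *
  have key := dm_le_of_inj
    (LinearMap.id.coprod ((M ∘ₗ lin F3).coprod ((A3 ∘ₗ u).coprod (A1 ∘ₗ lin F3))))
    (S := Γ.prod (P.prod ⊤))
    (T := (ker A1).map M ⊔ Te ⊔ (Hs σ A3 u F3).map M ⊔ (Hs σ A3 u F3).map A1) (by
      rintro ⟨g, x, y, z⟩ ⟨h1, _⟩
      have : g + (M (lin F3 x) + (A3 (u y) + A1 (lin F3 z))) =
          g + M (σ (A3 (u 0)) + lin F3 x) + A1 (σ (A3 (u y)) + lin F3 z) := by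
        simp only [map_zero, zero_add, map_add, c.swap.s2, add_assoc]
      show g + (M (lin F3 x) + (A3 (u y) + A1 (lin F3 z))) ∈ _
      rw [this]
      exact Submodule.add_mem_sup (Submodule.add_mem_sup (Γ1 h1) ⟨_, mem_Hs.2 ⟨_, _, rfl⟩, rfl⟩)
        ⟨_, mem_Hs.2 ⟨_, _, rfl⟩, rfl⟩) (by
      rintro ⟨g, x, y, z⟩ ⟨h1, h2, _⟩ e
      replace e : g + (M (lin F3 x) + (A3 (u y) + A1 (lin F3 z))) = 0 := e
      have hD : A1 (lin F3 z) + M (lin F3 x) ∈ range (A3 ∘ₗ u) ⊔ Γ := by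
        have : A1 (lin F3 z) + M (lin F3 x) = A3 (u (-y)) + -g := by
          simp only [map_neg]
          linear_combination (norm := module) e
        rw [this]
        exact Submodule.add_mem_sup ⟨-y, rfl⟩ (Γ.neg_mem h1)
      have pD := (RS.range (p3.comp pu)).sup Γ2
      have d1 := dm_sup_le (range (A3 ∘ₗ u)) Γ
      have d2 := dm_range_fin (A3 ∘ₗ u)
      obtain ⟨E2, e2, px⟩ := cost P2 (x := x) RV.zero (by rw [sub_zero]; exact h2)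
      have hz : z ∈ ℂ ∙ x := by
        by_contra hz
        obtain ⟨E3, e3, pz⟩ := ext_vec E2 z
        have l3 := e2.le.trans e3.le
        have a1 := g2 (((c.gen.snd.ext e1).ext e2).ext e3) (p1.mono l3) (pM.mono l3) (pD.mono l3)
          pz (px.mono e3.le) hz hD
        have a2 := dm_le_map_add A1 (perp (range (tr A2 ∘ₗ ξ)))
        have a3 := dm_mono (le_sup_left : (perp (range (tr A2 ∘ₗ ξ))).map A1 ≤
          _ ⊔ (range (A3 ∘ₗ u) ⊔ Γ))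
        have a4 := c.b.g1
        rw [Fintype.card_fin] at a1
        omega
      obtain ⟨μ, rfl⟩ := Submodule.mem_span_singleton.1 hz
      have hx : x = 0 := by
        by_contra hx
        obtain ⟨E3, e3, pμ⟩ := ext1 E2 μ
        have l3 := e2.le.trans e3.le
        have a1 := g0 (((c.gen.snd.ext e1).ext e2).ext e3) RM.id
          (RS.comap (((p1.mono l3).smul pμ).add (pM.mono l3)) (pD.mono l3)) (px.mono e3.le) hx
          RV.zero (by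
            rw [sub_zero]
            show μ • A1 (lin F3 x) + M (lin F3 x) ∈ range (A3 ∘ₗ u) ⊔ Γ
            rwa [map_smul, map_smul] at hD)
        have a2 := b1 μ a b (Or.inr ha)
        have a3 := dm_comap_sup_le (μ • A1 + M) (range (A3 ∘ₗ u)) Γ
        have a4 := dm_mono (le_sup_left : perp (range (tr A2 ∘ₗ ξ)) ≤
          _ ⊔ (range (A3 ∘ₗ u) ⊔ Γ).comap (μ • A1 + M))
        rw [add_assoc, hM] at a2
        rw [Submodule.map_id] at a1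
        omega
      subst hx
      simp only [smul_zero, map_zero, add_zero, zero_add] at e
      have hy : y = 0 := by
        rcases n4 with t0 | n0
        · exact fin_zero t0 y
        · have : g = 0 := by rwa [dm_eq_zero.1 (Γ3.trans n0)] at h1
          rw [this, zero_add] at e
          exact c.inj3 y e
      subst hy
      simp only [map_zero, add_zero] at e
      simp [e])
  rw [dm_prod, dm_prod, dm_top, Module.finrank_prod, card_fun, card_fun, Fintype.card_fin,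
    Fintype.card_fin] at key
  omega

theorem va : dm ((ker A1 ⊔ K ⊔ Hs σ A3 u F3) ⊓ ker A2) + h ≤ l + q + γ + 4 := by
  have num := c.num
  have dL := c.dL
  have dC := c.swap.dC
  obtain ⟨_, p2, _⟩ := c.r
  let D : Submodule ℂ ((n → ℂ) × (Fin f3 → ℂ)) :=
    (Cs A1 σ A3 K u).prod ⊤ ⊓ ker (A2 ∘ₗ LinearMap.id.coprod (lin F3))
  have a1 : dm ((ker A1 ⊔ K ⊔ Hs σ A3 u F3) ⊓ ker A2) ≤ dm D :=
    dm_le_of_surj (LinearMap.id.coprod (lin F3)) fun v hv => by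
      obtain ⟨x, hx⟩ := mem_J hv.1
      have e : LinearMap.id.coprod (lin F3) (v - lin F3 x, x) = v := sub_add_cancel _ _
      exact ⟨(v - lin F3 x, x), ⟨⟨hx, trivial⟩, by
        show A2 (LinearMap.id.coprod (lin F3) (v - lin F3 x, x)) = 0
        rw [e]; exact hv.2⟩, e⟩
  by_cases h0 : D ≤ ker (LinearMap.snd ℂ _ _)
  · have a2 : dm D ≤ dm ((ker A1 ⊔ K) ⊓ ker A2) :=
      dm_le_of_inj (LinearMap.fst ℂ _ _) (fun ω hω => by
        obtain ⟨ν, κ, y, hν, hκ, e⟩ := mem_Cs.1 hω.1.1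
        have h1 : A2 (ω.1 + lin F3 ω.2) = 0 := hω.2
        rw [show ω.2 = 0 from h0 hω, map_zero, add_zero] at h1
        have hy : y = 0 := c.su.u3 y ⟨ω.1 - κ, by
          show A2 (ω.1 - κ) = 0
          rw [map_sub, h1, c.b.K2 κ hκ, sub_zero], by
          rw [← e, map_sub, map_add, map_add, hν, c.swap.s2]
          abel⟩
        refine ⟨?_, h1⟩
        show ω.1 ∈ ker A1 ⊔ K
        rw [← e, hy, map_zero, map_zero, map_zero, add_zero]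
        exact Submodule.add_mem_sup hν hκ) fun ω hω h1 => Prod.ext h1 (h0 hω)
    have a3 := dm_map_ker A2 (ker A1 ⊔ K)
    have a4 := dm_sup_le (ker A1) K
    have a5 := dm_mono (Submodule.map_mono (f := A2) (le_sup_left : ker A1 ≤ ker A1 ⊔ K))
    have a6 := c.b.n2
    have a7 := c.b.g1
    have a8 := c.b.dK
    omega
  · have a2 := gm c.gen.snd p2 RM.snd (p2.comp RM.fst).neg RS.bot (c.swap.rC.prod RS.top)
      (D := D) inf_le_left (fun ω hω => by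
        have h1 : A2 (ω.1 + lin F3 ω.2) = 0 := hω.2
        rw [Submodule.mem_bot, ← h1, map_add, add_comm]
        exact sub_neg_eq_add _ _) h0
    have a3 := dm_le_map_add A2 (perp (range (tr A2 ∘ₗ ξ)))
    have a4 := c.b.g2
    rw [sup_bot_eq, dm_bot, dm_prod, dm_top, card_fun, Fintype.card_fin] at a2
    omega

theorem vb : dm (ker (tr A2) ⊓ perp ((range (lin F2)).map A1)) + h ≤ t + l + γ + 4 := by
  have num := c.num
  obtain ⟨_, _, _, _, p1, p2, _⟩ := c.r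
  rcases gf c.gen.fst p1 (RS.ker p2) (D := ker (tr A2) ⊓ perp ((range (lin F2)).map A1))
    inf_le_left (fun η hη => by
      have := hη.2
      rwa [perp_map] at this) with h1 | h1
  · rw [perp_perp] at h1
    have a1 := dm_le_add (tr A1) LinearMap.id
      (S := ker (tr A2) ⊓ perp ((range (lin F2)).map A1))
      (T := (((ker (tr A2)).map (tr A1)).comap (tr A3 ∘ₗ ξ)).map (tr A3 ∘ₗ ξ))
      (K := ker (tr A1) ⊓ ker (tr A2)) (fun η hη => by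
        obtain ⟨y, hy⟩ := h1 hη
        exact ⟨y, ⟨η, hη.1, hy.symm⟩, hy⟩) (fun η hη h0 => ⟨h0, hη.1⟩) fun _ _ _ h => h
    have a2 := dm_map_le (tr A3 ∘ₗ ξ) (((ker (tr A2)).map (tr A1)).comap (tr A3 ∘ₗ ξ))
    have a3 := c.sx.x3
    have a4 := c.b.l1 1 0 (Or.inl one_ne_zero)
    rw [one_smul, zero_smul, add_zero] at a4
    omega
  · have a1 := c.b.g2
    rw [Fintype.card_fin, dm_ker_tr] at h1
    omega

end Ctx

end Pool.Agent.P.MP_098a67_ag.T3
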