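import Pool.Agent.P.MP_098a67_ag.T3.StF

namespace Pool.Agent.P.MP_098a67_ag.T3

open Module
open LinearMap (ker range)

variable {n : Type} [Fintype n] [DecidableEq n]
  {A1 A2 A3 σ : (n → ℂ) →ₗ[ℂ] (n → ℂ)} {K W0 T : Submodule ℂ (n → ℂ)}
  {h γ k ks l L t q f2 f3 : ℕ} {u : (Fin t → ℂ) →ₗ[ℂ] (n → ℂ)} {ξ : (Fin q → ℂ) →ₗ[ℂ] (n → ℂ)}
  {E : Subfield ℂ} {F2 : Fin f2 → n → ℂ} {F3 : Fin f3 → n → ℂ}

namespace Ctx

variable (c : Ctx A1 A2 A3 σ K W0 T h γ k ks l L t q f2 f3 u ξ E F2 F3)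
include c

theorem dCC : dm (Cs A1 σ A2 K u ⊔ Cs A1 σ A3 K u) ≤ γ + l + 2 * t := by
  have a1 : Cs A1 σ A2 K u ⊔ Cs A1 σ A3 K u ≤ Cs A1 σ A2 K u ⊔ range (σ ∘ₗ A3 ∘ₗ u) :=
    sup_le le_sup_left (sup_le (le_sup_of_le_left le_sup_left) le_sup_right)
  have a2 := (dm_mono a1).trans (dm_sup_le _ _)
  have a3 := c.dC
  have a4 := dm_range_fin (σ ∘ₗ A3 ∘ₗ u)
  omega

theorem d1x {x : Fin f2 → ℂ} (hx : lin F2 x ∈ Cs A1 σ A2 K u ⊔ Cs A1 σ A3 K u) : x = 0 := by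
  refine g1e c.gen.fst RM.id (c.rC.sup c.swap.rC) hx ?_
  have a1 := c.dCC
  have a2 := c.swap.dL
  have a3 := c.num
  have a4 := dm_mono (le_sup_left : perp (range (tr A3 ∘ₗ ξ)) ≤
    _ ⊔ (Cs A1 σ A2 K u ⊔ Cs A1 σ A3 K u))
  rw [Submodule.map_id, Fintype.card_fin]
  omega

theorem d1b {x2 : Fin f2 → ℂ} {x3 : Fin f3 → ℂ}
    (hx : lin F2 x2 + lin F3 x3 ∈ Cs A1 σ A2 K u ⊔ Cs A1 σ A3 K u) : x2 = 0 ∧ x3 = 0 := by
  by_cases h3 : x3 = 0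
  · rw [h3, map_zero, add_zero] at hx
    exact ⟨c.d1x hx, h3⟩
  by_cases h2 : x2 = 0
  · rw [h2, map_zero, zero_add, sup_comm] at hx
    exact ⟨h2, c.swap.d1x hx⟩
  exfalso
  obtain ⟨a, ha, E1, s, e1, o1, o2⟩ := pv_norm E (v := (x2, x3)) fun h => h2 (Prod.ext_iff.1 h).1
  have a1 := gj (c.gen.ext e1) RM.id RM.id ((c.rC.sup c.swap.rC).mono e1.le) o2.fst o2.snd
    (smul_ne_zero ha h2) (smul_ne_zero ha h3) RV.zero (by
      rw [sub_zero]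
      show lin F2 (a • x2) + lin F3 (a • x3) ∈ _
      rw [map_smul, map_smul, ← smul_add]
      exact Submodule.smul_mem _ _ hx)
  have a2 : perp (range (tr A3 ∘ₗ ξ)) ⊔ perp (range (tr A2 ∘ₗ ξ)) = ⊤ := eq_top_of_perp fun η hη => by
    rw [perp_sup, perp_perp, perp_perp] at hη
    obtain ⟨⟨y3, e3⟩, y2, e2⟩ := hη
    have := (c.sx.xp 0 (-1) (Or.inr (by simp)) y2 y3 (by
      rw [show tr A2 (ξ y2) = η from e2, show tr A3 (ξ y3) = η from e3]; simp)).1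
    rw [← e2, this, map_zero]
  have a3 := c.dCC
  have a4 := c.hf
  have a5 := c.b.hn
  rw [Submodule.map_id, Submodule.map_id, a2, top_sup_eq, dm_top, card_fun] at a1
  rw [Module.finrank_prod, card_fun, card_fun, Fintype.card_fin, Fintype.card_fin] at o1
  omega

theorem d1 {ν κ : n → ℂ} (hν : A1 ν = 0) (hκ : κ ∈ K) {y2 y3 : Fin t → ℂ} {x2 : Fin f2 → ℂ}
    {x3 : Fin f3 → ℂ}
    (e : ν + κ + (σ (A2 (u y2)) + lin F2 x2) + (σ (A3 (u y3)) + lin F3 x3) = 0) :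
    ν = 0 ∧ κ = 0 ∧ y2 = 0 ∧ x2 = 0 ∧ y3 = 0 ∧ x3 = 0 := by
  obtain ⟨h2, h3⟩ := c.d1b (x2 := x2) (x3 := x3) (by
    have : lin F2 x2 + lin F3 x3 = -((ν + κ + σ (A2 (u y2))) + (0 + 0 + σ (A3 (u y3)))) := by
      linear_combination (norm := module) e
    rw [this]
    exact Submodule.neg_mem _ (Submodule.add_mem_sup (mem_Cs.2 ⟨_, _, _, hν, hκ, rfl⟩)
      (mem_Cs.2 ⟨_, _, _, map_zero _, K.zero_mem, rfl⟩)))
  subst h2 h3
  simp only [map_zero, add_zero] at e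
  have e1 := congrArg A1 e
  rw [map_add, map_add, map_add, hν, c.s2, c.swap.s2, map_zero] at e1
  obtain ⟨h4, h5⟩ := c.su.up 0 1 (Or.inr one_ne_zero) y2 y3 ⟨-κ, K.neg_mem hκ, by
    rw [map_neg]
    linear_combination (norm := module) -e1⟩
  subst h4 h5
  simp only [map_zero, add_zero, zero_add] at e e1
  have h6 := c.b.KN κ hκ e1
  subst h6
  exact ⟨by simpa using e, rfl, rfl, rfl, rfl, rfl⟩

theorem dj (v : n → ℂ) (h2 : v ∈ Hs σ A2 u F2) (h3 : v ∈ ker A1 ⊔ K ⊔ Hs σ A3 u F3) : v = 0 := by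
  obtain ⟨a, ha, b, hb, e⟩ := Submodule.mem_sup.1 h3
  obtain ⟨ν, hν, κ, hκ, rfl⟩ := Submodule.mem_sup.1 ha
  obtain ⟨y3, x3, rfl⟩ := mem_Hs.1 hb
  obtain ⟨y2, x2, e2⟩ := mem_Hs.1 (Submodule.neg_mem _ h2)
  obtain ⟨_, _, h4, h5, _⟩ := c.d1 hν hκ (y2 := y2) (x2 := x2) (y3 := y3) (x3 := x3) (by
    rw [e2, add_right_comm, e, add_neg_cancel])
  rw [h4, h5] at e2
  simpa using e2.symm

theorem top : ker A1 ⊔ K ⊔ Hs σ A3 u F3 ⊔ Hs σ A2 u F2 = ⊤ := by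
  apply eq_top_of_dm
  have a1 := dm_le_of_inj ((LinearMap.id.coprod LinearMap.id).coprod
      (((σ ∘ₗ A2 ∘ₗ u).coprod (lin F2)).coprod ((σ ∘ₗ A3 ∘ₗ u).coprod (lin F3))))
    (S := ((ker A1).prod K).prod ⊤) (T := ker A1 ⊔ K ⊔ Hs σ A3 u F3 ⊔ Hs σ A2 u F2) (by
      rintro ⟨⟨ν, κ⟩, ⟨y2, x2⟩, y3, x3⟩ ⟨⟨h1, h2⟩, _⟩
      show ν + κ + ((σ (A2 (u y2)) + lin F2 x2) + (σ (A3 (u y3)) + lin F3 x3)) ∈ _
      rw [add_comm (σ (A2 (u y2)) + lin F2 x2), ← add_assoc]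
      exact Submodule.add_mem_sup (Submodule.add_mem_sup (Submodule.add_mem_sup h1 h2)
        (mem_Hs.2 ⟨_, _, rfl⟩)) (mem_Hs.2 ⟨_, _, rfl⟩)) (by
      rintro ⟨⟨ν, κ⟩, ⟨y2, x2⟩, y3, x3⟩ ⟨⟨h1, h2⟩, _⟩ e
      obtain ⟨rfl, rfl, rfl, rfl, rfl, rfl⟩ := c.d1 h1 h2 (y2 := y2) (x2 := x2) (y3 := y3)
        (x3 := x3) (by rw [add_assoc]; exact e)
      rfl)
  have a2 := c.hf
  have a3 := c.b.hn
  simp only [dm_prod, dm_top, Module.finrank_prod, card_fun, Fintype.card_fin, c.b.g1,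
    c.b.dK] at a1
  rw [card_fun]
  omega

theorem dH : dm (Hs σ A2 u F2) ≤ t + f2 :=
  (dm_sup_le _ _).trans (Nat.add_le_add (dm_range_fin _) (dm_range_fin _))

theorem dJ : dm (ker A1 ⊔ K ⊔ Hs σ A3 u F3) ≤ γ + l + t + f3 := by
  have a1 := dm_sup_le (ker A1 ⊔ K) (Hs σ A3 u F3)
  have a2 := dm_sup_le (ker A1) K
  have a3 := c.swap.dH
  have a4 := c.b.g1
  have a5 := c.b.dK
  omega

/-- Pairs with one entry in the fixed part. -/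
theorem o_half {a b : ℂ} (hb : b ≠ 0) (Te : Submodule ℂ (n → ℂ))
    (S : Submodule ℂ ((n → ℂ) × (n → ℂ))) (p r : (n → ℂ) × (n → ℂ) →ₗ[ℂ] (n → ℂ))
    (h0 : ∀ ω, p ω = 0 → r ω = 0 → ω = 0) (h1 : ∀ ω ∈ S, p ω ∈ Cs A1 σ A3 K u)
    (h2 : ∀ ω ∈ S, r ω - p ω ∈ range u) (h3 : ∀ ω ∈ S, a • A2 (p ω) + b • A3 (r ω) ∈ Te) :
    dm S ≤ γ + l + t + dm Te := by
  have a1 := dm_le_add p (b • (A3 ∘ₗ r)) (S := S) (K := Te) h1 (fun ω hω e => by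
    have := h3 ω hω
    rwa [e, map_zero, smul_zero, zero_add] at this) fun ω hω e e' => by
      obtain ⟨y, hy⟩ := h2 ω hω
      rw [e, sub_zero] at hy
      have e2 : A3 (r ω) = 0 := (smul_eq_zero.1 e').resolve_left hb
      rw [← hy] at e2
      exact h0 ω e (by rw [← hy, c.inj3 y e2, map_zero])
  have a2 := c.swap.dC
  omega

theorem o {a b : ℂ} (ha : a ≠ 0) (hb : b ≠ 0) {Te : Submodule ℂ (n → ℂ)} (hT : Te = ⊥ ∨ Te = T)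
    (hΓ : γ ≤ dm ((ker A1).map (a • A2 + b • A3) ⊔ Te) + ks)
    (hΓ' : dm ((ker A1).map (a • A2 + b • A3) ⊔ Te) ≤ γ) (S : Submodule ℂ ((n → ℂ) × (n → ℂ)))
    (s2 : ∀ ω ∈ S, ω.1 ∈ ker A1 ⊔ K ⊔ Hs σ A3 u F3) (s3 : ∀ ω ∈ S, ω.2 ∈ ker A1 ⊔ K ⊔ Hs σ A2 u F2)
    (su : ∀ ω ∈ S, ω.2 - ω.1 ∈ range u) (se : ∀ ω ∈ S, a • A2 ω.1 + b • A3 ω.2 ∈ Te) :
    dm S + h ≤ l + dm Te + q + γ + 4 := by
  have num := c.num
  have dL3 := c.dL
  have dL2 := c.swap.dL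
  have dC2 := c.dC
  have dC3 := c.swap.dC
  obtain ⟨E1, e1, ha1, hb1⟩ := ext2 E a b
  obtain ⟨_, p2, p3, _, _, _, _, _, _, pT⟩ := c.r.mono e1.le
  have pC2 := c.rC.mono e1.le
  have pC3 := c.swap.rC.mono e1.le
  have pTe : RS E1 Te := by
    rcases hT with rfl | rfl
    · exact RS.bot
    · exact pT
  let Ω : Submodule ℂ ((n → ℂ) × (n → ℂ)) :=
    (range u).comap (LinearMap.snd ℂ _ _ - LinearMap.fst ℂ _ _) ⊓
      Te.comap (a • (A2 ∘ₗ LinearMap.fst ℂ _ _) + b • (A3 ∘ₗ LinearMap.snd ℂ _ _))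
  have pΩ : RS E1 Ω := (RS.comap (RM.snd.sub RM.fst) (RS.range (c.ru.mono e1.le))).inf
    (RS.comap (((p2.comp RM.fst).smul ha1).add ((p3.comp RM.snd).smul hb1)) pTe)
  let D : Submodule ℂ (((n → ℂ) × (n → ℂ)) × ((Fin f2 → ℂ) × (Fin f3 → ℂ))) :=
    Ω.prod ⊤ ⊓ ((Cs A1 σ A2 K u).comap (lin F2 ∘ₗ LinearMap.fst ℂ _ _ ∘ₗ LinearMap.snd ℂ _ _ -
      LinearMap.snd ℂ _ _ ∘ₗ LinearMap.fst ℂ _ _) ⊓
    (Cs A1 σ A3 K u).comap (lin F3 ∘ₗ LinearMap.snd ℂ _ _ ∘ₗ LinearMap.snd ℂ _ _ -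
      LinearMap.fst ℂ _ _ ∘ₗ LinearMap.fst ℂ _ _))
  have mD : ∀ ω ∈ D, (ω.1.2 - ω.1.1 ∈ range u ∧ a • A2 ω.1.1 + b • A3 ω.1.2 ∈ Te) ∧
      lin F2 ω.2.1 - ω.1.2 ∈ Cs A1 σ A2 K u ∧ lin F3 ω.2.2 - ω.1.1 ∈ Cs A1 σ A3 K u :=
    fun ω hω => ⟨hω.1.1, hω.2⟩
  have a1 : dm S ≤ dm D := dm_le_of_surj (LinearMap.fst ℂ _ _) fun ω hω => by
    obtain ⟨x3, h3⟩ := mem_J (s2 ω hω)
    obtain ⟨x2, h2⟩ := mem_J (s3 ω hω)
    exact ⟨(ω, x2, x3), ⟨⟨⟨su ω hω, se ω hω⟩, trivial⟩, sub_mem_comm_iff.1 h2,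
      sub_mem_comm_iff.1 h3⟩, rfl⟩
  have t0 : t = 0 → ∀ ω ∈ D, ω.2.1 = 0 ∧ ω.2.2 = 0 := fun t0 ω hω => by
    obtain ⟨⟨⟨y, hy⟩, _⟩, h2, h3⟩ := mD ω hω
    rw [fin_zero t0 y, map_zero] at hy
    have := c.d1b (x2 := ω.2.1) (x3 := -ω.2.2) (by
      have : lin F2 ω.2.1 + lin F3 (-ω.2.2) =
          (lin F2 ω.2.1 - ω.1.2) + -(lin F3 ω.2.2 - ω.1.1) := by
        rw [map_neg]
        linear_combination (norm := module) -hy
      rw [this]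
      exact Submodule.add_mem_sup h2 (Submodule.neg_mem _ h3))
    exact ⟨this.1, neg_eq_zero.1 this.2⟩
  by_cases z2 : D ≤ ker (LinearMap.fst ℂ _ _ ∘ₗ LinearMap.snd ℂ _ _) <;>
    by_cases z3 : D ≤ ker (LinearMap.snd ℂ _ _ ∘ₗ LinearMap.snd ℂ _ _)
  · have key : ∀ ω ∈ D, ω.1.2 = ω.1.1 ∧ ω.1.1 ∈ ker A1 ⊔ K := fun ω hω => by
      obtain ⟨⟨⟨w, hw⟩, he⟩, h2, h3⟩ := mD ω hω
      rw [show ω.2.1 = 0 from z2 hω, map_zero, zero_sub, neg_mem_iff] at h2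
      rw [show ω.2.2 = 0 from z3 hω, map_zero, zero_sub, neg_mem_iff] at h3
      obtain ⟨ν2, κ2, y2, hν2, hκ2, e2⟩ := mem_Cs.1 h2
      obtain ⟨ν3, κ3, y3, hν3, hκ3, e3⟩ := mem_Cs.1 h3
      have r1 : A1 (u w) - A2 (u y2) + A3 (u y3) ∈ K.map A1 := ⟨κ2 - κ3, K.sub_mem hκ2 hκ3, by
        rw [hw, ← e2, ← e3]
        simp only [map_sub, map_add, hν2, hν3, c.s2, c.swap.s2]
        abel⟩
      have hw0 : w = 0 := c.su.u23 a b ha Te hT hΓ' w y2 y3 (by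
        have : a • A2 (u w) - (a • A2 + b • A3) (σ (A2 (u y2))) =
            (a • A2 + b • A3) ν2 + -(a • A2 ω.1.1 + b • A3 ω.1.2) := by
          rw [hw, map_sub, ← e2]
          simp only [map_add, LinearMap.add_apply, LinearMap.smul_apply, c.b.K2 κ2 hκ2,
            c.b.K3 κ2 hκ2]
          module
        rw [this]
        exact Submodule.add_mem_sup ⟨ν2, hν2, rfl⟩ (Te.neg_mem he)) r1
      subst hw0
      have hy := (c.su.up 0 (-1) (Or.inr (by simp)) y2 y3 (by simpa using r1)).2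
      rw [map_zero] at hw
      refine ⟨sub_eq_zero.1 hw.symm, ?_⟩
      rw [← e3, hy, map_zero, map_zero, map_zero, add_zero]
      exact Submodule.add_mem_sup hν3 hκ3
    have a2 : dm D ≤ dm ((ker A1 ⊔ K) ⊓ Te.comap (a • A2 + b • A3)) :=
      dm_le_of_inj (LinearMap.fst ℂ (n → ℂ) (n → ℂ) ∘ₗ
        LinearMap.fst ℂ ((n → ℂ) × (n → ℂ)) ((Fin f2 → ℂ) × (Fin f3 → ℂ)))
        (fun ω hω => ⟨(key ω hω).2, by
        have := (mD ω hω).1.2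
        rw [(key ω hω).1] at this
        exact this⟩) fun ω hω e =>
        Prod.ext (Prod.ext e ((key ω hω).1.trans e)) (Prod.ext (z2 hω) (z3 hω))
    have a3 := dm_comap (a • A2 + b • A3) (ker A1 ⊔ K) Te
    have a4 := dm_sup_le (ker A1) K
    have a5 := dm_mono (sup_le_sup_right
      (Submodule.map_mono (f := a • A2 + b • A3) (le_sup_left : ker A1 ≤ ker A1 ⊔ K)) Te)
    have a6 := c.b.g1
    have a7 := c.b.dK
    omega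
  · have tn : t ≠ 0 := fun h => z3 fun ω hω => (t0 h ω hω).2
    have a2 := gm (Y := ((n → ℂ) × (n → ℂ)) × ((Fin f2 → ℂ) × (Fin f3 → ℂ)))
      (c.gen.snd.ext e1) RM.id (RM.snd.comp RM.snd) (RM.fst.comp RM.fst) pC3
      ((pΩ.inf (RS.comap RM.snd pC2)).prod (RS.bot.prod RS.top)) (D := D) (fun ω hω => by
        have h2 := (mD ω hω).2.1
        rw [show ω.2.1 = 0 from z2 hω, map_zero, zero_sub, neg_mem_iff] at h2
        exact ⟨⟨hω.1.1, h2⟩, z2 hω, trivial⟩) (fun ω hω => (mD ω hω).2.2) z3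
    have a3 := c.swap.o_half (a := b) ha Te (Ω ⊓ (Cs A1 σ A2 K u).comap (LinearMap.snd ℂ _ _))
      (LinearMap.snd ℂ _ _) (LinearMap.fst ℂ _ _) (fun ω h1 h2 => Prod.ext h2 h1)
      (fun ω hω => hω.2) (fun ω hω => sub_mem_comm_iff.1 hω.1.1) fun ω hω => by
        rw [add_comm]; exact hω.1.2
    have a4 := dm_mono (le_sup_left : perp (range (tr A2 ∘ₗ ξ)) ≤ _ ⊔ Cs A1 σ A3 K u)
    rw [Submodule.map_id, dm_prod, dm_prod, dm_bot, dm_top, card_fun, Fintype.card_fin] at a2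
    omega
  · have tn : t ≠ 0 := fun h => z2 fun ω hω => (t0 h ω hω).1
    have a2 := gm (Y := ((n → ℂ) × (n → ℂ)) × ((Fin f2 → ℂ) × (Fin f3 → ℂ)))
      (c.gen.fst.ext e1) RM.id (RM.fst.comp RM.snd) (RM.snd.comp RM.fst) pC2
      ((pΩ.inf (RS.comap RM.fst pC3)).prod (RS.top.prod RS.bot)) (D := D) (fun ω hω => by
        have h2 := (mD ω hω).2.2
        rw [show ω.2.2 = 0 from z3 hω, map_zero, zero_sub, neg_mem_iff] at h2
        exact ⟨⟨hω.1.1, h2⟩, trivial, z3 hω⟩) (fun ω hω => (mD ω hω).2.1) z2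
    have a3 := c.o_half (a := a) hb Te (Ω ⊓ (Cs A1 σ A3 K u).comap (LinearMap.fst ℂ _ _))
      (LinearMap.fst ℂ _ _) (LinearMap.snd ℂ _ _) (fun ω h1 h2 => Prod.ext h1 h2)
      (fun ω hω => hω.2) (fun ω hω => hω.1.1) fun ω hω => hω.1.2
    have a4 := dm_mono (le_sup_left : perp (range (tr A3 ∘ₗ ξ)) ≤ _ ⊔ Cs A1 σ A2 K u)
    rw [Submodule.map_id, dm_prod, dm_prod, dm_bot, dm_top, card_fun, Fintype.card_fin] at a2
    omega
  · have a2 := gm2 (Y := ((n → ℂ) × (n → ℂ)) × ((Fin f2 → ℂ) × (Fin f3 → ℂ))) (c.gen.ext e1)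
      (RM.inl (W := n → ℂ)) RM.inr (RM.fst.comp RM.snd)
      (RM.snd.comp RM.snd) ((RM.snd.comp RM.fst).prod (RM.fst.comp RM.fst)) (pC2.prod pC3)
      (pΩ.prod RS.top) (D := D) inf_le_left (fun ω hω => by
        obtain ⟨_, h2, h3⟩ := mD ω hω
        exact ⟨by simpa using h2, by simpa using h3⟩) z2 z3
    have a3 : dm Ω ≤ dm Te + dm ((range (A2 ∘ₗ u)).comap (a • A2 + b • A3)) :=
      dm_le_add (a • (A2 ∘ₗ LinearMap.fst ℂ _ _) + b • (A3 ∘ₗ LinearMap.snd ℂ _ _))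
        (LinearMap.snd ℂ _ _) (fun ω hω => hω.2) (fun ω hω e => by
          obtain ⟨w, hw⟩ := hω.1
          replace hw : u w = ω.2 - ω.1 := hw
          replace e : a • A2 ω.1 + b • A3 ω.2 = 0 := e
          refine ⟨a • w, ?_⟩
          show A2 (u (a • w)) = a • A2 ω.2 + b • A3 ω.2
          rw [map_smul, map_smul, hw, map_sub]
          linear_combination (norm := module) -e) fun ω hω e e' => by
          obtain ⟨w, hw⟩ := hω.1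
          replace e' : ω.2 = 0 := e'
          replace hw : u w = ω.2 - ω.1 := hw
          replace e : a • A2 ω.1 + b • A3 ω.2 = 0 := e
          rw [e', map_zero, smul_zero, add_zero] at e
          have h1 : A2 (u w) = 0 := by
            rw [hw, e', zero_sub, map_neg, (smul_eq_zero.1 e).resolve_left ha, neg_zero]
          rw [c.swap.inj3 w h1, map_zero, e', zero_sub] at hw
          exact Prod.ext (neg_eq_zero.1 hw.symm) e'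
    have a4 := c.su'.u2 0 b a (Or.inr hb)
    rw [zero_smul, zero_add, add_comm (b • A3)] at a4
    have a5 := dm_mono (le_sup_left : (perp (range (tr A3 ∘ₗ ξ))).prod
      (perp (range (tr A2 ∘ₗ ξ))) ≤ _ ⊔ (Cs A1 σ A2 K u).prod (Cs A1 σ A3 K u))
    rw [← LinearMap.prod_eq_sup_map] at a2
    simp only [dm_prod, dm_top, Module.finrank_prod, card_fun, Fintype.card_fin] at a2 a5
    omega

theorem oo_half {a b : ℂ} (ha : a ≠ 0) (S : Submodule ℂ ((n → ℂ) × (n → ℂ)))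
    (p r : (n → ℂ) × (n → ℂ) →ₗ[ℂ] (n → ℂ)) (h0 : ∀ ω, p ω = 0 → r ω = 0 → ω = 0)
    (h1 : ∀ ω ∈ S, tr A1 (r ω) ∈ range (tr A2 ∘ₗ ξ)) (h2 : ∀ ω ∈ S, r ω - p ω ∈ range ξ)
    (h3 : ∀ ω ∈ S, a • tr A2 (p ω) + b • tr A3 (r ω) = 0) : dm S ≤ γ + q := by
  have a1 := dm_le_of_inj r (S := S) (T := (range (tr A2 ∘ₗ ξ)).comap (tr A1)) h1
    fun ω hω e => by
      obtain ⟨y, hy⟩ := h2 ω hω
      have e2 := h3 ω hω
      rw [e, map_zero, smul_zero, add_zero] at e2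
      rw [e, zero_sub] at hy
      have e3 := (c.sx.xp 0 1 (Or.inr one_ne_zero) y 0 (by
        rw [hy, map_neg (tr A2), (smul_eq_zero.1 e2).resolve_left ha]; simp)).1
      rw [e3, map_zero] at hy
      exact h0 ω (neg_eq_zero.1 hy.symm) e
  have a2 := dm_comap_le (tr A1) (range (tr A2 ∘ₗ ξ))
  have a3 := dm_range_fin (tr A2 ∘ₗ ξ)
  rw [dm_ker_tr, c.b.g1] at a2
  omega

theorem oo {a b : ℂ} (ha : a ≠ 0) (hb : b ≠ 0) (S : Submodule ℂ ((n → ℂ) × (n → ℂ)))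
    (s2 : ∀ ω ∈ S, ω.1 ∈ perp ((Hs σ A2 u F2).map A1))
    (s3 : ∀ ω ∈ S, ω.2 ∈ perp ((Hs σ A3 u F3).map A1)) (su : ∀ ω ∈ S, ω.2 - ω.1 ∈ range ξ)
    (se : ∀ ω ∈ S, a • tr A2 ω.1 + b • tr A3 ω.2 = 0) : dm S + h ≤ t + l + γ + 4 := by
  have num := c.num
  obtain ⟨E1, e1, ha1, hb1⟩ := ext2 E a b
  obtain ⟨_, _, q3, _, p1, p2, p3, _⟩ := c.r.mono e1.le
  have pξ := c.rξ.mono e1.le
  let Ω : Submodule ℂ ((n → ℂ) × (n → ℂ)) :=
    (range ξ).comap (LinearMap.snd ℂ _ _ - LinearMap.fst ℂ _ _) ⊓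
      ker (a • (tr A2 ∘ₗ LinearMap.fst ℂ _ _) + b • (tr A3 ∘ₗ LinearMap.snd ℂ _ _))
  have pΩ : RS E1 Ω := (RS.comap (RM.snd.sub RM.fst) (RS.range pξ)).inf
    (RS.ker (((p2.comp RM.fst).smul ha1).add ((p3.comp RM.snd).smul hb1)))
  have hΩ : S ≤ Ω := fun ω hω => ⟨su ω hω, se ω hω⟩
  have k2 : ∀ ω ∈ S, (tr A1 ∘ₗ LinearMap.fst ℂ _ _) ω ∈ perp (range (lin F2)) := fun ω hω => by
    have := s2 ω hω
    rw [perp_map] at this
    exact perp_anti le_sup_right this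
  have k3 : ∀ ω ∈ S, (tr A1 ∘ₗ LinearMap.snd ℂ _ _) ω ∈ perp (range (lin F3)) := fun ω hω => by
    have := s3 ω hω
    rw [perp_map] at this
    exact perp_anti le_sup_right this
  by_cases z2 : S ≤ (range (tr A3 ∘ₗ ξ)).comap (tr A1 ∘ₗ LinearMap.fst ℂ _ _) <;>
    by_cases z3 : S ≤ (range (tr A2 ∘ₗ ξ)).comap (tr A1 ∘ₗ LinearMap.snd ℂ _ _)
  · have key : ∀ ω ∈ S, ω.1 = ω.2 ∧ tr A1 ω.2 = 0 := fun ω hω => by
      obtain ⟨θ, hθ⟩ := su ω hω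
      obtain ⟨y3, h3⟩ := z2 hω
      obtain ⟨y2, h2⟩ := z3 hω
      obtain ⟨h4, h5⟩ := c.sx.x23 a b ha ω.2 θ y2 y3 h2.symm (by
        rw [hθ, sub_sub_cancel]; exact h3.symm) (by
        rw [tr_M, hθ, map_sub]
        linear_combination (norm := module) se ω hω)
      rw [h4, map_zero] at hθ
      rw [h5, map_zero] at h2
      exact ⟨(sub_eq_zero.1 hθ.symm).symm, h2.symm⟩
    have a1 := dm_le_of_inj (LinearMap.snd ℂ _ _) (S := S)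
      (T := ker (tr A1) ⊓ ker (tr (a • A2 + b • A3))) (fun ω hω => ⟨(key ω hω).2, by
        show tr (a • A2 + b • A3) ω.2 = 0
        rw [tr_M, ← se ω hω, (key ω hω).1]⟩) fun ω hω e => Prod.ext ((key ω hω).1.trans e) e
    have a2 := c.b.l1 a b (Or.inl ha)
    omega
  · have a1 := gf (c.gen.snd.ext e1) (p1.comp RM.snd)
      (pΩ.inf (RS.comap (p1.comp RM.fst) (RS.range (p3.comp pξ)))) (le_inf hΩ z2) k3
    have a2 := c.swap.oo_half (b := a) hb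
      (Ω ⊓ (range (tr A3 ∘ₗ ξ)).comap (tr A1 ∘ₗ LinearMap.fst ℂ _ _)) (LinearMap.snd ℂ _ _)
      (LinearMap.fst ℂ _ _) (fun ω h1 h2 => Prod.ext h2 h1) (fun ω hω => hω.2)
      (fun ω hω => sub_mem_comm_iff.1 hω.1.1) fun ω hω => by
        rw [add_comm]; exact hω.1.2
    rw [perp_perp, Fintype.card_fin] at a1
    rcases a1 with a1 | a1
    · exact absurd a1 z3
    · omega
  · have a1 := gf (c.gen.fst.ext e1) (p1.comp RM.fst)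
      (pΩ.inf (RS.comap (p1.comp RM.snd) (RS.range (p2.comp pξ)))) (le_inf hΩ z3) k2
    have a2 := c.oo_half (b := b) ha
      (Ω ⊓ (range (tr A2 ∘ₗ ξ)).comap (tr A1 ∘ₗ LinearMap.snd ℂ _ _)) (LinearMap.fst ℂ _ _)
      (LinearMap.snd ℂ _ _) (fun ω h1 h2 => Prod.ext h1 h2) (fun ω hω => hω.2)
      (fun ω hω => hω.1.1) fun ω hω => hω.1.2
    rw [perp_perp, Fintype.card_fin] at a1
    rcases a1 with a1 | a1
    · exact absurd a1 z2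
    · omega
  · have a1 := gf2 (c.gen.ext e1) (p1.comp RM.fst) (p1.comp RM.snd)
      (pΩ.inf (RS.comap RM.snd (RS.range (q3.comp (c.ru.mono e1.le))).perp)) (D := S)
      (le_inf hΩ (by
        rintro ω hω _ ⟨y, rfl⟩
        exact s3 ω hω _ ⟨σ (A3 (u y)), Submodule.mem_sup_left ⟨y, rfl⟩, c.swap.s2 y⟩)) k2 k3
      (by rwa [perp_perp]) (by rwa [perp_perp])
    have a2 := dm_le_add (LinearMap.snd ℂ _ _ - LinearMap.fst ℂ _ _) (LinearMap.snd ℂ _ _)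
      (S := Ω ⊓ (perp (range (A3 ∘ₗ u))).comap (LinearMap.snd ℂ _ _)) (T := range ξ)
      (K := ker (tr (a • A2 + b • A3)) ⊓ perp (range (A3 ∘ₗ u))) (fun ω hω => hω.1.1)
      (fun ω hω e => ⟨by
        have e1 : a • tr A2 ω.1 + b • tr A3 ω.2 = 0 := hω.1.2
        show tr (a • A2 + b • A3) ω.2 = 0
        rw [tr_M, ← e1, sub_eq_zero.1 (show ω.2 - ω.1 = 0 from e)], hω.2⟩) fun ω _ e e' =>
        Prod.ext ((sub_eq_zero.1 (show ω.2 - ω.1 = 0 from e)).symm.trans e') e'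
    have a3 := c.su.u4 a b ha
    have a4 := dm_range_fin ξ
    rw [Fintype.card_fin, Fintype.card_fin] at a1
    omega

end Ctx

end Pool.Agent.P.MP_098a67_ag.T3
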