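import Pool.Agent.P.MP_098a67_ag.T3.GL

namespace Pool.Agent.P.MP_098a67_ag.T3

open Module
open LinearMap (ker range)

variable {n : Type} [Fintype n] [DecidableEq n]

/-- The data of a good triangle of slices. -/
structure Base (A1 A2 A3 σ : (n → ℂ) →ₗ[ℂ] (n → ℂ)) (K W0 : Submodule ℂ (n → ℂ))
    (h γ k ks l L t q : ℕ) : Prop where
  hn : Fintype.card n = 4 * h
  hh : 4 ≤ h
  cor : ∀ x1 x2 x3 : ℂ, x1 ≠ 0 ∨ x2 ≠ 0 ∨ x3 ≠ 0 → dm (ker (x1 • A1 + x2 • A2 + x3 • A3)) ≤ 2 * h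
  g1 : dm (ker A1) = γ
  g2 : dm (ker A2) ≤ γ
  g3 : dm (ker A3) ≤ γ
  sig : ∀ v, A1 (σ (A1 v)) = A1 v
  K2 : ∀ v ∈ K, A2 v = 0
  K3 : ∀ v ∈ K, A3 v = 0
  dK : dm K = l
  KN : ∀ v ∈ K, A1 v = 0 → v = 0
  W2 : ∀ w ∈ W0, A2 w ∈ range A1
  W3 : ∀ w ∈ W0, A3 w ∈ range A1
  dW : 4 * h + l ≤ dm W0 + 2 * γ
  l1 : ∀ a b : ℂ, a ≠ 0 ∨ b ≠ 0 → dm (ker (tr A1) ⊓ ker (tr (a • A2 + b • A3))) ≤ l
  L2 : ∀ x1 x2 x3 : ℂ, x1 ≠ 0 ∨ x3 ≠ 0 →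
    dm (ker (tr A2) ⊓ ker (tr (x1 • A1 + x2 • A2 + x3 • A3))) ≤ L
  L3 : ∀ x1 x2 x3 : ℂ, x1 ≠ 0 ∨ x2 ≠ 0 →
    dm (ker (tr A3) ⊓ ker (tr (x1 • A1 + x2 • A2 + x3 • A3))) ≤ L
  hm : dm ((ker A1).map A2 ⊔ (ker A1).map A3) + k + ks ≤ 2 * γ
  n2 : γ ≤ dm ((ker A1).map A2) + ks
  n3 : γ ≤ dm ((ker A1).map A3) + ks
  i1 : ks ≤ k
  i2 : k + ks ≤ γ
  i3 : L ≤ k
  i4 : l ≤ γ
  i5 : γ ≤ 2 * h
  ht : t = h - γ - 4
  hq : q = h + ks - γ - 4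

variable {A1 A2 A3 σ : (n → ℂ) →ₗ[ℂ] (n → ℂ)} {K W0 T : Submodule ℂ (n → ℂ)}
  {h γ k ks l L t q : ℕ}

theorem Base.swap (b : Base A1 A2 A3 σ K W0 h γ k ks l L t q) :
    Base A1 A3 A2 σ K W0 h γ k ks l L t q :=
  { b with
    cor := fun x1 x2 x3 hx => by rw [add_right_comm]; exact b.cor x1 x3 x2 (by tauto)
    g2 := b.g3
    g3 := b.g2
    K2 := b.K3
    K3 := b.K2
    W2 := b.W3
    W3 := b.W2
    l1 := fun a c hx => by rw [add_comm]; exact b.l1 c a hx.symm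
    L2 := fun x1 x2 x3 hx => by rw [add_right_comm]; exact b.L3 x1 x3 x2 hx
    L3 := fun x1 x2 x3 hx => by rw [add_right_comm]; exact b.L2 x1 x3 x2 hx
    hm := by rw [sup_comm]; exact b.hm
    n2 := b.n3
    n3 := b.n2 }

theorem Base.sig' (b : Base A1 A2 A3 σ K W0 h γ k ks l L t q) {v : n → ℂ} (hv : v ∈ range A1) :
    A1 (σ v) = v := by
  obtain ⟨w, rfl⟩ := hv
  exact b.sig w

/-- Properties of the generic space of killed columns. -/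
structure StU (A1 A2 A3 σ : (n → ℂ) →ₗ[ℂ] (n → ℂ)) (K T : Submodule ℂ (n → ℂ))
    (h γ k t q : ℕ) (u : (Fin t → ℂ) →ₗ[ℂ] (n → ℂ)) : Prop where
  w2 : ∀ y, A2 (u y) ∈ range A1
  up : ∀ r1 r2 : ℂ, r1 ≠ 0 ∨ r2 ≠ 0 → ∀ y y',
    r1 • A1 (u y) + r2 • A2 (u y) + A3 (u y') ∈ K.map A1 → y = 0 ∧ y' = 0
  u23 : ∀ a b : ℂ, a ≠ 0 → ∀ Te, Te = ⊥ ∨ Te = T →
    dm ((ker A1).map (a • A2 + b • A3) ⊔ Te) ≤ γ → ∀ w y2 y3,
    a • A2 (u w) - (a • A2 + b • A3) (σ (A2 (u y2))) ∈ (ker A1).map (a • A2 + b • A3) ⊔ Te →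
    A1 (u w) - A2 (u y2) + A3 (u y3) ∈ K.map A1 → w = 0
  u2 : ∀ x1 x2 x3 : ℂ, x1 ≠ 0 ∨ x2 ≠ 0 →
    dm ((range (A3 ∘ₗ u)).comap (x1 • A1 + x2 • A2 + x3 • A3)) + q ≤ 3 * h
  u3 : ∀ y, A3 (u y) ∈ (ker A2).map A1 → y = 0
  u4 : ∀ a b : ℂ, a ≠ 0 →
    dm (ker (tr (a • A2 + b • A3)) ⊓ perp (range (A3 ∘ₗ u))) + q + t ≤ 3 * h + 2
  u5 : t ≠ 0 → ∀ x1 x2 x3 : ℂ, x1 ≠ 0 ∨ x3 ≠ 0 →
    dm (ker (tr (x1 • A1 + x2 • A2 + x3 • A3)) ⊓ perp ((ker A1).map A2) ⊓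
      perp (range (A2 ∘ₗ σ ∘ₗ A3 ∘ₗ u))) ≤ h + γ + k + 7

theorem RM.sl {E : Subfield ℂ} (r1 : RM E A1) (r2 : RM E A2) (r3 : RM E A3) {x1 x2 x3 : ℂ}
    (h1 : x1 ∈ E) (h2 : x2 ∈ E) (h3 : x3 ∈ E) : RM E (x1 • A1 + x2 • A2 + x3 • A3) :=
  ((r1.smul h1).add (r2.smul h2)).add (r3.smul h3)

theorem fin_zero {t : ℕ} (ht : t = 0) (y : Fin t → ℂ) : y = 0 := by
  subst ht
  exact Subsingleton.elim _ _

/-- The rationality of the basic data. -/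
def Rat0 (A1 A2 A3 σ : (n → ℂ) →ₗ[ℂ] (n → ℂ)) (K T : Submodule ℂ (n → ℂ)) (E : Subfield ℂ) :
    Prop :=
  RM E A1 ∧ RM E A2 ∧ RM E A3 ∧ RM E σ ∧ RM E (tr A1) ∧ RM E (tr A2) ∧ RM E (tr A3) ∧
    RM E (tr σ) ∧ RS E K ∧ RS E T

theorem ev_rat0 : Ev (Rat0 A1 A2 A3 σ K T) :=
  (ev_rm A1).and ((ev_rm A2).and ((ev_rm A3).and ((ev_rm σ).and ((ev_rm _).and ((ev_rm _).and
    ((ev_rm _).and ((ev_rm _).and ((ev_rs K).and (ev_rs T)))))))))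

theorem Rat0.swap {E : Subfield ℂ} (r : Rat0 A1 A2 A3 σ K T E) : Rat0 A1 A3 A2 σ K T E := by
  obtain ⟨r1, r2, r3, r4, r5, r6, r7, r8⟩ := r
  exact ⟨r1, r3, r2, r4, r5, r7, r6, r8⟩

theorem Rat0.mono {E E' : Subfield ℂ} (r : Rat0 A1 A2 A3 σ K T E) (e : E ≤ E') :
    Rat0 A1 A2 A3 σ K T E' := by
  obtain ⟨r1, r2, r3, r4, r5, r6, r7, r8, r9, r10⟩ := r
  exact ⟨r1.mono e, r2.mono e, r3.mono e, r4.mono e, r5.mono e, r6.mono e, r7.mono e, r8.mono e,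
    r9.mono e, r10.mono e⟩

theorem RM.trsl {E : Subfield ℂ} (r1 : RM E (tr A1)) (r2 : RM E (tr A2)) (r3 : RM E (tr A3))
    {x1 x2 x3 : ℂ} (h1 : x1 ∈ E) (h2 : x2 ∈ E) (h3 : x3 ∈ E) :
    RM E (tr (x1 • A1 + x2 • A2 + x3 • A3)) := by
  rw [tr_add, tr_add, tr_smul, tr_smul, tr_smul]
  exact RM.sl r1 r2 r3 h1 h2 h3

theorem RM.trM {E : Subfield ℂ} (r2 : RM E (tr A2)) (r3 : RM E (tr A3))
    {a b : ℂ} (h2 : a ∈ E) (h3 : b ∈ E) : RM E (tr (a • A2 + b • A3)) := by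
  rw [tr_add, tr_smul, tr_smul]
  exact (r2.smul h2).add (r3.smul h3)

theorem Base.corM (b : Base A1 A2 A3 σ K W0 h γ k ks l L t q) {a c : ℂ} (ha : a ≠ 0 ∨ c ≠ 0) :
    dm (ker (a • A2 + c • A3)) ≤ 2 * h := by
  have := b.cor 0 a c (Or.inr ha)
  rwa [zero_smul, zero_add] at this

theorem stU (b : Base A1 A2 A3 σ K W0 h γ k ks l L t q) {E : Subfield ℂ} {Φ : Fin t → n → ℂ}
    (r : Rat0 A1 A2 A3 σ K T E) (hΦ : GenIn E Φ (cols (Fin t) W0) 0) :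
    StU A1 A2 A3 σ K T h γ k t q (lin Φ) := by
  have hn := b.hn
  have dW := b.dW
  have ht := b.ht
  have hq := b.hq
  have i1 := b.i1
  have i2 := b.i2
  have i3 := b.i3
  have i5 := b.i5
  have hh := b.hh
  have dK : dm (K.map A1) ≤ l := b.dK ▸ dm_map_le A1 K
  have m2 := (dm_le_map_add A2 W0).trans (Nat.add_le_add_left b.g2 _)
  have m3 := (dm_le_map_add A3 W0).trans (Nat.add_le_add_left b.g3 _)
  have pW := dm_perp W0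
  have u1 : ∀ x1 x2 x3 : ℂ, x1 ≠ 0 ∨ x2 ≠ 0 ∨ x3 ≠ 0 → ∀ y,
      (x1 • A1 + x2 • A2 + x3 • A3) (lin Φ y) ∈ K.map A1 → y = 0 := by
    intro x1 x2 x3 hx y hy
    by_cases t0 : t = 0
    · exact fin_zero t0 y
    obtain ⟨E1, e1, h1, h2, h3⟩ := ext3 E x1 x2 x3
    obtain ⟨r1, r2, r3, _, _, _, _, _, rK, _⟩ := r.mono e1.le
    refine g1e (hΦ.ext e1) (RM.sl r1 r2 r3 h1 h2 h3) (RS.map r1 rK) hy ?_
    have a1 := dm_le_map_add (x1 • A1 + x2 • A2 + x3 • A3) W0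
    have a2 := b.cor x1 x2 x3 hx
    have a3 := dm_mono (le_sup_left : W0.map (x1 • A1 + x2 • A2 + x3 • A3) ≤ _ ⊔ K.map A1)
    rw [Fintype.card_fin]
    omega
  have up : ∀ r1 r2 : ℂ, r1 ≠ 0 ∨ r2 ≠ 0 → ∀ y y',
      r1 • A1 (lin Φ y) + r2 • A2 (lin Φ y) + A3 (lin Φ y') ∈ K.map A1 → y = 0 ∧ y' = 0 := by
    intro x1 x2 hx y y' hy
    by_cases t0 : t = 0
    · exact ⟨fin_zero t0 y, fin_zero t0 y'⟩
    obtain ⟨E1, e1, h1, h2⟩ := ext2 E x1 x2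
    obtain ⟨r1, r2, r3, _, _, _, _, _, rK, _⟩ := r.mono e1.le
    obtain ⟨a, rfl⟩ := g2' (hΦ.ext e1) r3 ((r1.smul h1).add (r2.smul h2)) (RS.map r1 rK)
      (y := y') (z := y) (by rw [add_comm]; exact hy) (by rw [Fintype.card_fin]; omega)
    have : y = 0 := u1 x1 x2 a (by tauto) y (by simpa using hy)
    simp [this]
  refine ⟨fun y => b.W2 _ (lin_mem hΦ.mem y), up, fun a c ha Te hT hΓ w y2 y3 h1 h2 => ?_,
    fun x1 x2 x3 hx => ?_, fun y hy => ?_, fun a c ha => ?_, fun t0 x1 x2 x3 hx => ?_⟩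
  · by_cases t0 : t = 0
    · exact fin_zero t0 w
    obtain ⟨E1, e1, ha1, hc1⟩ := ext2 E a c
    obtain ⟨r1, r2, r3, rσ, _, _, _, _, _, rT⟩ := r.mono e1.le
    have rM := (r2.smul ha1).add (r3.smul hc1)
    have rTe : RS E1 Te := by
      rcases hT with rfl | rfl
      · exact RS.bot
      · exact rT
    obtain ⟨μ, rfl⟩ := g2' (hΦ.ext e1) (r2.smul ha1) (rM.comp (rσ.comp r2)).neg
      ((RS.map rM (RS.ker r1)).sup rTe) (y := w) (z := y2) (by rw [sub_eq_add_neg] at h1; exact h1)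
      (by rw [Fintype.card_fin, Submodule.map_smul _ _ _ ha]; omega)
    have := (up μ (-1) (Or.inr (by simp)) y2 y3 (by simpa [sub_eq_add_neg] using h2)).1
    simp [this]
  · obtain ⟨E1, e1, h1, h2, h3⟩ := ext3 E x1 x2 x3
    obtain ⟨r1, r2, r3, _⟩ := r.mono e1.le
    have a1 := b.cor x1 x2 x3 (by tauto)
    have a2 := b.L3 x1 x2 x3 hx
    have a3 := g1 (hΦ.ext e1) r3 (RS.range (RM.sl r1 r2 r3 h1 h2 h3))
    generalize x1 • A1 + x2 • A2 + x3 • A3 = B at a1 a2 a3 ⊢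
    have a4 := dm_comap_top B (range (A3 ∘ₗ lin Φ))
    have a5 := dm_sup_inf (range B) (range (A3 ∘ₗ lin Φ))
    have a6 : dm (range B ⊓ range (A3 ∘ₗ lin Φ)) ≤ dm ((range B).comap (A3 ∘ₗ lin Φ)) :=
      dm_le_of_surj (A3 ∘ₗ lin Φ) (by
        rintro _ ⟨h1, y, rfl⟩
        exact ⟨y, h1, rfl⟩)
    have a7 := dm_range_ker B
    have a8 := dm_map_sup_le A3 W0 (range B)
    have a9 := dm_range_sup A3 B
    have a10 := dm_le ((range B).comap (A3 ∘ₗ lin Φ))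
    rw [card_fun] at a4 a7 a8 a10
    rw [Fintype.card_fin] at a3 a10
    omega
  · by_cases t0 : t = 0
    · exact fin_zero t0 y
    obtain ⟨r1, r2, r3, _⟩ := r
    refine g1e hΦ r3 (RS.map r1 (RS.ker r2)) hy ?_
    have a1 := (dm_map_le A1 (ker A2)).trans b.g2
    have a3 := dm_mono (le_sup_left : W0.map A3 ≤ _ ⊔ (ker A2).map A1)
    rw [Fintype.card_fin]
    omega
  · obtain ⟨E1, e1, ha1, hc1⟩ := ext2 E a c
    obtain ⟨_, _, _, _, _, r2, r3, _⟩ := r.mono e1.le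
    have a1 := b.corM (a := a) (c := c) (Or.inl ha)
    have a2 := b.L3 0 a c (Or.inr ha)
    rw [zero_smul, zero_add] at a2
    rw [← dm_ker_tr] at a1
    have a3 := dm_mono (inf_le_left :
      ker (tr (a • A2 + c • A3)) ⊓ perp (range (A3 ∘ₗ lin Φ)) ≤ _)
    rcases gf (hΦ.ext e1) r3 (RS.ker (RM.trM r2 r3 ha1 hc1))
      (D := ker (tr (a • A2 + c • A3)) ⊓ perp (range (A3 ∘ₗ lin Φ))) inf_le_left (fun η hη => by
        have := hη.2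
        rwa [LinearMap.range_comp, perp_map] at this) with h1 | h1
    · have a4 := dm_le_add (tr A3) LinearMap.id
        (S := ker (tr (a • A2 + c • A3)) ⊓ perp (range (A3 ∘ₗ lin Φ))) (T := perp W0)
        (K := ker (tr A3) ⊓ ker (tr (a • A2 + c • A3))) (fun v hv => h1 hv)
        (fun v hv h0 => ⟨h0, hv.1⟩) fun _ _ _ h => h
      omega
    · rw [Fintype.card_fin] at h1
      omega
  · obtain ⟨E1, e1, h1, h2, h3⟩ := ext3 E x1 x2 x3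
    obtain ⟨_, _, _, _, r1, r2, r3, rσ, _⟩ := r.mono e1.le
    have a1 := b.cor x1 x2 x3 (by tauto)
    have a2 := b.L2 x1 x2 x3 hx
    rw [← dm_ker_tr] at a1
    have rB := RM.trsl r1 r2 r3 h1 h2 h3
    generalize x1 • A1 + x2 • A2 + x3 • A3 = B at a1 a2 rB ⊢
    rcases gf (hΦ.ext e1) (g := tr (A2 ∘ₗ σ ∘ₗ A3)) (by
        rw [tr_comp, tr_comp]; exact (r3.comp rσ).comp r2) (RS.ker rB)
      (D := ker (tr B) ⊓ perp ((ker A1).map A2) ⊓ perp (range (A2 ∘ₗ σ ∘ₗ A3 ∘ₗ lin Φ)))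
      (inf_le_left.trans inf_le_left) (fun η hη => by
        rintro _ ⟨y, rfl⟩
        rw [tr_dot]
        exact hη.2 _ ⟨y, rfl⟩) with h1 | h1
    · have a4 := dm_le_add (tr A2) LinearMap.id
        (S := ker (tr B) ⊓ perp ((ker A1).map A2) ⊓ perp (range (A2 ∘ₗ σ ∘ₗ A3 ∘ₗ lin Φ)))
        (T := perp (ker A1 ⊔ W0.map (σ ∘ₗ A3))) (K := ker (tr A2) ⊓ ker (tr B)) (fun ζ hζ => by
          rw [perp_sup]
          refine ⟨fun v hv => ?_, ?_⟩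
          · rw [tr_dot]
            exact hζ.1.2 _ ⟨v, hv, rfl⟩
          · rintro _ ⟨w, hw, rfl⟩
            have := h1 hζ w hw
            rw [tr_dot] at this ⊢
            exact this) (fun v hv h0 => ⟨h0, hv.1.1⟩) fun _ _ _ h => h
      have a5 := dm_perp (ker A1 ⊔ W0.map (σ ∘ₗ A3))
      have a6 : dm (ker A1 ⊔ W0.map (σ ∘ₗ A3)) = dm (ker A1) + dm (W0.map (σ ∘ₗ A3)) :=
        dm_sup_eq (by
          rintro _ h0 ⟨w, hw, rfl⟩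
          have h2 : A1 (σ (A3 w)) = 0 := h0
          rw [b.sig' (b.W3 w hw)] at h2
          simp [h2])
      have a7 : dm (W0.map A3) ≤ dm (W0.map (σ ∘ₗ A3)) := dm_le_of_surj A1 (by
        rintro _ ⟨w, hw, rfl⟩
        exact ⟨_, ⟨w, hw, rfl⟩, b.sig' (b.W3 w hw)⟩)
      have a8 := b.g1
      omega
    · rw [Fintype.card_fin] at h1
      omega

end Pool.Agent.P.MP_098a67_ag.T3
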