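import Pool.Agent.P.MP_098a67_ag.T3.StU

namespace Pool.Agent.P.MP_098a67_ag.T3

open Module
open LinearMap (ker range)

variable {n : Type} [Fintype n] [DecidableEq n]

/-- Properties of the generic space of killed rows. -/
structure StX (A1 A2 A3 σ : (n → ℂ) →ₗ[ℂ] (n → ℂ)) (h γ t q : ℕ)
    (u : (Fin t → ℂ) →ₗ[ℂ] (n → ℂ)) (ξ : (Fin q → ℂ) →ₗ[ℂ] (n → ℂ)) : Prop where
  n2 : ∀ y v, A1 v = 0 → ξ y ⬝ᵥ A2 v = 0
  xa : ∀ y y', ξ y ⬝ᵥ A2 (σ (A3 (u y'))) = 0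
  xp : ∀ r1 r2 : ℂ, r1 ≠ 0 ∨ r2 ≠ 0 → ∀ y y',
    r1 • tr A1 (ξ y) + r2 • tr A2 (ξ y) + tr A3 (ξ y') = 0 → y = 0 ∧ y' = 0
  x23 : ∀ a b : ℂ, a ≠ 0 → ∀ η θ y2 y3, tr A1 η = tr A2 (ξ y2) →
    tr A1 (η - ξ θ) = tr A3 (ξ y3) → tr (a • A2 + b • A3) η = a • tr A2 (ξ θ) → θ = 0 ∧ y2 = 0
  x3 : dm (((ker (tr A2)).map (tr A1)).comap (tr A3 ∘ₗ ξ)) + h ≤ t + γ + 4

variable {A1 A2 A3 σ : (n → ℂ) →ₗ[ℂ] (n → ℂ)} {K W0 T X : Submodule ℂ (n → ℂ)}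
  {h γ k ks l L t q : ℕ} {u : (Fin t → ℂ) →ₗ[ℂ] (n → ℂ)}

theorem Base.trsig (b : Base A1 A2 A3 σ K W0 h γ k ks l L t q) (η : n → ℂ) :
    tr A1 (tr σ (tr A1 η)) = tr A1 η :=
  eq_of_dot fun v => by rw [tr_dot, tr_dot, tr_dot, b.sig, tr_dot]

theorem tr_sl (x1 x2 x3 : ℂ) (η : n → ℂ) : tr (x1 • A1 + x2 • A2 + x3 • A3) η =
    x1 • tr A1 η + x2 • tr A2 η + x3 • tr A3 η := by
  rw [tr_add, tr_add, tr_smul, tr_smul, tr_smul]
  rfl

theorem tr_M (a c : ℂ) (η : n → ℂ) : tr (a • A2 + c • A3) η = a • tr A2 η + c • tr A3 η := by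
  rw [tr_add, tr_smul, tr_smul]
  rfl

theorem stX (b : Base A1 A2 A3 σ K W0 h γ k ks l L t q) (s : StU A1 A2 A3 σ K T h γ k t q u)
    (s' : StU A1 A3 A2 σ K T h γ k t q u) {E : Subfield ℂ} {Φ : Fin q → n → ℂ}
    (r : Rat0 A1 A2 A3 σ K T E) (hΦ : GenIn E Φ (cols (Fin q) X) 0)
    (X2 : X ≤ perp ((ker A1).map A2)) (X3 : X ≤ perp ((ker A1).map A3))
    (Xa : X ≤ perp (range (A2 ∘ₗ σ ∘ₗ A3 ∘ₗ u))) (Xb : X ≤ perp (range (A3 ∘ₗ σ ∘ₗ A2 ∘ₗ u)))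
    (dX : 4 * h + k + ks ≤ dm X + 2 * γ + 2 * t) : StX A1 A2 A3 σ h γ t q u (lin Φ) := by
  have ht := b.ht
  have hq := b.hq
  have i1 := b.i1
  have i2 := b.i2
  have i5 := b.i5
  have m1 := dm_le_map_add (tr A1) X
  have m2 := dm_le_map_add (tr A2) X
  have m3 := dm_le_map_add (tr A3) X
  have g1' := b.g1
  have g2 := b.g2
  have g3 := b.g3
  rw [dm_ker_tr] at m1 m2 m3
  have x1 : ∀ x1 x2 x3 : ℂ, x1 ≠ 0 ∨ x2 ≠ 0 ∨ x3 ≠ 0 → ∀ y,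
      tr (x1 • A1 + x2 • A2 + x3 • A3) (lin Φ y) = 0 → y = 0 := by
    intro x1 x2 x3 hx y hy
    by_cases q0 : q = 0
    · exact fin_zero q0 y
    obtain ⟨E1, e1, h1, h2, h3⟩ := ext3 E x1 x2 x3
    obtain ⟨_, _, _, _, r1, r2, r3, _⟩ := r.mono e1.le
    refine g1e (hΦ.ext e1) (RM.trsl r1 r2 r3 h1 h2 h3) RS.bot hy ?_
    have a1 := dm_map_ker (tr (x1 • A1 + x2 • A2 + x3 • A3)) X
    have a2 := b.cor x1 x2 x3 hx
    have a3 := dm_mono (inf_le_right : X ⊓ ker (tr (x1 • A1 + x2 • A2 + x3 • A3)) ≤ _)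
    rw [dm_ker_tr] at a3
    rw [Fintype.card_fin, sup_bot_eq, dm_bot]
    by_cases t0 : t = 0
    · omega
    have a4 : dm (X ⊓ ker (tr (x1 • A1 + x2 • A2 + x3 • A3))) ≤ h + γ + k + 7 := by
      by_cases hc : x1 ≠ 0 ∨ x3 ≠ 0
      · refine le_trans (dm_mono ?_) (s.u5 t0 x1 x2 x3 hc)
        exact fun v hv => ⟨⟨hv.2, X2 hv.1⟩, Xa hv.1⟩
      · have := s'.u5 t0 x1 x3 x2 (by tauto)
        rw [add_right_comm] at this
        refine le_trans (dm_mono ?_) this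
        exact fun v hv => ⟨⟨hv.2, X3 hv.1⟩, Xb hv.1⟩
    omega
  have xp : ∀ r1 r2 : ℂ, r1 ≠ 0 ∨ r2 ≠ 0 → ∀ y y',
      r1 • tr A1 (lin Φ y) + r2 • tr A2 (lin Φ y) + tr A3 (lin Φ y') = 0 → y = 0 ∧ y' = 0 := by
    intro c1 c2 hx y y' hy
    by_cases q0 : q = 0
    · exact ⟨fin_zero q0 y, fin_zero q0 y'⟩
    obtain ⟨E1, e1, h1, h2⟩ := ext2 E c1 c2
    obtain ⟨_, _, _, _, r1, r2, r3, _⟩ := r.mono e1.le
    obtain ⟨a, rfl⟩ := g2' (hΦ.ext e1) r3 ((r1.smul h1).add (r2.smul h2)) RS.bot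
      (y := y') (z := y) (by rw [add_comm]; exact hy) (by rw [Fintype.card_fin, dm_bot]; omega)
    have : y = 0 := x1 c1 c2 a (by tauto) y (by rw [tr_sl]; simpa using hy)
    simp [this]
  refine ⟨fun y v hv => X2 (lin_mem hΦ.mem y) _ ⟨v, hv, rfl⟩,
    fun y y' => Xa (lin_mem hΦ.mem y) _ ⟨y', rfl⟩, xp, fun a c ha η θ y2 y3 h1 h2 h3 => ?_, ?_⟩
  · by_cases q0 : q = 0
    · exact ⟨fin_zero q0 θ, fin_zero q0 y2⟩
    have h4 : tr A1 (lin Φ θ) + (-tr A2) (lin Φ y2) + tr A3 (lin Φ y3) = 0 := by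
      rw [map_sub, h1] at h2
      rw [LinearMap.neg_apply]
      linear_combination (norm := module) -h2
    have key : ∃ μ : ℂ, μ • y2 = θ := by
      by_cases t0 : t = 0
      · obtain ⟨_, _, _, _, r1, r2, r3, _⟩ := r
        obtain ⟨α, β, rfl⟩ := g3' hΦ r1 r2.neg r3 h4 (by rw [Fintype.card_fin]; omega)
        obtain ⟨E1, e1, hα, hβ⟩ := ext2 E α β
        have a1 := dm_le_map_add (tr (β • A1 + (0 : ℂ) • A2 + (1 : ℂ) • A3)) X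
        have a2 := b.cor β 0 1 (by simp)
        rw [dm_ker_tr] at a1
        obtain ⟨μ, rfl⟩ := g2' (hΦ.ext e1)
          (RM.trsl (r1.mono e1.le) (r2.mono e1.le) (r3.mono e1.le) hβ (zero_mem _) (one_mem _))
          (((r1.mono e1.le).smul hα).sub (r2.mono e1.le)) RS.bot (y := y3) (z := y2) (by
            rw [Submodule.mem_bot, tr_sl]
            simp only [map_add, map_smul, LinearMap.neg_apply, LinearMap.sub_apply,
              LinearMap.smul_apply] at h4 ⊢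
            linear_combination (norm := module) h4) (by rw [Fintype.card_fin, dm_bot]; omega)
        exact ⟨α + β * μ, by module⟩
      · obtain ⟨E1, e1, ha1, hc1⟩ := ext2 E a c
        obtain ⟨_, _, _, _, r1, r2, r3, rσ, _⟩ := r.mono e1.le
        have rM := RM.trM r2 r3 ha1 hc1
        have a1 := dm_map_le (tr (a • A2 + c • A3)) (ker (tr A1))
        rw [dm_ker_tr] at a1
        refine g2' (hΦ.ext e1) (r2.smul ha1) (rM.comp (rσ.comp r2)).neg (RS.map rM (RS.ker r1))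
          ⟨η - tr σ (tr A2 (lin Φ y2)), ?_, ?_⟩
          (by rw [Fintype.card_fin, Submodule.map_smul _ _ _ ha]; omega)
        · show tr A1 (η - tr σ (tr A2 (lin Φ y2))) = 0
          rw [map_sub, ← h1, b.trsig, sub_self]
        · rw [map_sub, h3, sub_eq_add_neg]
          rfl
    obtain ⟨μ, rfl⟩ := key
    have := (xp μ (-1) (Or.inr (by simp)) y2 y3 (by simpa using h4)).1
    simp [this]
  · obtain ⟨_, _, _, _, r1, r2, r3, _⟩ := r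
    have a1 := g1 hΦ r3 (RS.map r1 (RS.ker r2))
    have a2 := dm_le (((ker (tr A2)).map (tr A1)).comap (tr A3 ∘ₗ lin Φ))
    have a3 := dm_map_le (tr A1) (ker (tr A2))
    have a4 := dm_mono (le_sup_left : X.map (tr A3) ≤ _ ⊔ (ker (tr A2)).map (tr A1))
    rw [dm_ker_tr] at a3
    rw [card_fun] at a2
    rw [Fintype.card_fin] at a1 a2
    omega

end Pool.Agent.P.MP_098a67_ag.T3
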