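import Pool.Agent.P.MP_098a67_ag.T3.StY
import Pool.Agent.P.MP_098a67_ag.T3.CaseI

namespace Pool.Agent.P.MP_098a67_ag.T3

open Module
open LinearMap (ker range)

variable {n : Type} [Fintype n] [DecidableEq n]

/-- The data of the last stage. -/
structure S4 (A1 A2 A3 σ : (n → ℂ) →ₗ[ℂ] (n → ℂ)) (K T : Submodule ℂ (n → ℂ)) {t q f2 f3 : ℕ}
    (u : (Fin t → ℂ) →ₗ[ℂ] (n → ℂ)) (ξ : (Fin q → ℂ) →ₗ[ℂ] (n → ℂ)) (F2 : Fin f2 → n → ℂ)
    (F3 : Fin f3 → n → ℂ) (E : Subfield ℂ) (π Y ν π' Y' ν' : (n → ℂ) →ₗ[ℂ] (n → ℂ))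
    (Φ Φ' : n → n → ℂ) : Prop where
  d : YD A1 A2 (Hs σ A2 u F2) (ker A1 ⊔ K ⊔ Hs σ A3 u F3) u ξ π Y ν
  d' : YD A1 A3 (Hs σ A3 u F3) (ker A1 ⊔ K ⊔ Hs σ A2 u F2) u ξ π' Y' ν'
  g : GenIn E (Φ, Φ') ((cols n ((Hs σ A2 u F2).map A1 ⊓ perp (range ξ))).prod
    (cols n ((Hs σ A3 u F3).map A1 ⊓ perp (range ξ)))) 0
  r1 : RM E A1
  r2 : RM E A2
  r3 : RM E A3
  rπ : RM E π
  rY : RM E Y
  rν : RM E ν
  rπ' : RM E π'
  rY' : RM E Y'
  rν' : RM E ν'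
  rI : RS E ((Hs σ A2 u F2).map A1 ⊓ perp (range ξ))
  rI' : RS E ((Hs σ A3 u F3).map A1 ⊓ perp (range ξ))
  rT : RS E T
  hT : T ≤ perp (range ξ)

variable {A1 A2 A3 σ : (n → ℂ) →ₗ[ℂ] (n → ℂ)} {K W0 T Te D : Submodule ℂ (n → ℂ)}
  {h γ k ks l L t q f2 f3 : ℕ} {u : (Fin t → ℂ) →ₗ[ℂ] (n → ℂ)} {ξ : (Fin q → ℂ) →ₗ[ℂ] (n → ℂ)}
  {E E4 : Subfield ℂ} {F2 : Fin f2 → n → ℂ} {F3 : Fin f3 → n → ℂ}
  {π Y ν π' Y' ν' : (n → ℂ) →ₗ[ℂ] (n → ℂ)} {Φ Φ' : n → n → ℂ} {a b : ℂ}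

theorem S4.swap (s : S4 A1 A2 A3 σ K T u ξ F2 F3 E4 π Y ν π' Y' ν' Φ Φ') :
    S4 A1 A3 A2 σ K T u ξ F3 F2 E4 π' Y' ν' π Y ν Φ' Φ :=
  ⟨s.d', s.d, s.g.swap, s.r1, s.r3, s.r2, s.rπ', s.rY', s.rν', s.rπ, s.rY, s.rν, s.rI', s.rI,
    s.rT, s.hT⟩

theorem S4.te (s : S4 A1 A2 A3 σ K T u ξ F2 F3 E4 π Y ν π' Y' ν' Φ Φ') (hT : Te = ⊥ ∨ Te = T) :
    RS E4 Te ∧ Te ≤ perp (range ξ) := by
  rcases hT with rfl | rfl
  · exact ⟨RS.bot, bot_le⟩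
  · exact ⟨s.rT, s.hT⟩

theorem S4.p0 (s : S4 A1 A2 A3 σ K T u ξ F2 F3 E4 π Y ν π' Y' ν' Φ Φ') (a b : ℂ) (v : n → ℂ) :
    (a • (A2 - Y) + b • (A3 - Y')) v ∈ perp (range ξ) :=
  Submodule.add_mem _ (Submodule.smul_mem _ _ (s.d.perp_mem v))
    (Submodule.smul_mem _ _ (s.d'.perp_mem v))

namespace Ctx

variable (c : Ctx A1 A2 A3 σ K W0 T h γ k ks l L t q f2 f3 u ξ E F2 F3)
  (s : S4 A1 A2 A3 σ K T u ξ F2 F3 E4 π Y ν π' Y' ν' Φ Φ') (ha : a ≠ 0) (hb : b ≠ 0)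
  (hT : Te = ⊥ ∨ Te = T) (hΓ : γ ≤ dm ((ker A1).map (a • A2 + b • A3) ⊔ Te) + ks)
include c s ha hb hT hΓ

theorem mix (hD : ∀ v ∈ D, a • (A2 v - (Y v + lin Φ (ν v))) +
      b • (A3 v - (Y' v + lin Φ' (ν' v))) ∈ Te) (z : D ≤ ker ν) (z' : ¬ D ≤ ker ν') :
    dm D + h ≤ t + l + q + γ + 6 + dm Te := by
  obtain ⟨E5, e5, ha5, hb5⟩ := ext2 E4 a b
  obtain ⟨rT, pT⟩ := s.te hT
  have rP : RM E5 (a • (A2 - Y) + b • (A3 - Y')) :=
    (((s.r2.sub s.rY).mono e5.le).smul ha5).add (((s.r3.sub s.rY').mono e5.le).smul hb5)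
  have hv : ∀ v ∈ D, (a • (A2 - Y) + b • (A3 - Y')) v - b • lin Φ' (ν' v) ∈ Te := fun v hv => by
    have h1 := hD v hv
    rw [show ν v = 0 from z hv, map_zero, add_zero] at h1
    have : (a • (A2 - Y) + b • (A3 - Y')) v - b • lin Φ' (ν' v) =
        a • (A2 v - Y v) + b • (A3 v - (Y' v + lin Φ' (ν' v))) := by
      simp only [LinearMap.add_apply, LinearMap.smul_apply, LinearMap.sub_apply]
      module
    rwa [this]
  have b1 := gm (s.g.snd.ext e5) (RM.id.smul hb5) (s.rν'.mono e5.le) rP (rT.mono e5.le)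
    ((RS.ker (s.rν.mono e5.le)).inf (RS.comap rP ((s.rI'.sup rT).mono e5.le)))
    (fun v h1 => ⟨z h1, by
      rw [SetLike.mem_coe, Submodule.mem_comap, ← add_sub_cancel (b • lin Φ' (ν' v))
        ((a • (A2 - Y) + b • (A3 - Y')) v)]
      exact Submodule.add_mem_sup (Submodule.smul_mem _ _ (lin_mem s.g.snd.mem _)) (hv v h1)⟩)
    (fun v h1 => sub_mem_comm_iff.1 (hv v h1)) z'
  rw [map_smul_id hb] at b1
  have b2 := dm_comap (a • (A2 - Y) + b • (A3 - Y')) (ker ν)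
    ((Hs σ A3 u F3).map A1 ⊓ perp (range ξ) ⊔ Te)
  have b3 : dm (ker ν) ≤ γ + l + t + f3 + t := by
    have a1 := dm_sup_le (ker A1 ⊔ K ⊔ Hs σ A3 u F3) (range u)
    have a2 := c.dJ
    have a3 := dm_range_fin u
    rw [s.d.kν]
    omega
  have b4 := c.m1 (b := b) ha hT hΓ
  have b5 : (ker A1).map (a • A2 + b • A3) ⊔ Te ⊔ (Hs σ A3 u F3).map (a • A2 + b • A3) ⊔
      (Hs σ A3 u F3).map A1 ≤ ((ker ν).map (a • (A2 - Y) + b • (A3 - Y')) ⊔ Te) ⊔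
      (Hs σ A3 u F3).map A1 := by
    have key : ∀ v ∈ ker A1 ⊔ K ⊔ Hs σ A3 u F3, (a • A2 + b • A3) v ∈
        ((ker ν).map (a • (A2 - Y) + b • (A3 - Y')) ⊔ Te) ⊔ (Hs σ A3 u F3).map A1 := fun v hv => by
      have : (a • A2 + b • A3) v = (a • (A2 - Y) + b • (A3 - Y')) v + b • Y' v := by
        simp only [LinearMap.add_apply, LinearMap.smul_apply, LinearMap.sub_apply, s.d.y1 v hv]
        module
      rw [this]
      refine Submodule.add_mem_sup (Submodule.mem_sup_left ⟨v, ?_, rfl⟩)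
        (Submodule.smul_mem _ _ (s.d'.y2 v))
      rw [s.d.kν]
      exact Submodule.mem_sup_left hv
    refine sup_le (sup_le (sup_le ?_ (le_sup_right.trans le_sup_left)) ?_) le_sup_right
    · rintro _ ⟨v, hv, rfl⟩
      exact key v (Submodule.mem_sup_left (Submodule.mem_sup_left hv))
    · rintro _ ⟨v, hv, rfl⟩
      exact key v (Submodule.mem_sup_right hv)
  have b6 := dm_mono b5
  have b7 := dm_inf_ge (((ker ν).map (a • (A2 - Y) + b • (A3 - Y')) ⊔ Te) ⊔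
    (Hs σ A3 u F3).map A1) (perp (range ξ))
  rw [sup_inf_assoc_of_le _ (sup_le (by rintro _ ⟨v, _, rfl⟩; exact s.p0 a b v) pT),
    sup_assoc _ Te (_ ⊓ _), sup_comm Te (_ ⊓ _), card_fun] at b7
  have b8 := dm_perp (range ξ)
  have b9 := dm_range_fin ξ
  omega

theorem member (hΓ' : dm ((ker A1).map (a • A2 + b • A3) ⊔ Te) ≤ γ)
    (hD : ∀ v ∈ D, a • (A2 v - (Y v + lin Φ (ν v))) +
      b • (A3 v - (Y' v + lin Φ' (ν' v))) ∈ Te) : dm D + h ≤ t + l + q + γ + 6 + dm Te := by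
  by_cases z : D ≤ ker ν <;> by_cases z' : D ≤ ker ν'
  · let S : Submodule ℂ ((n → ℂ) × (n → ℂ)) :=
      (ker A1 ⊔ K ⊔ Hs σ A3 u F3).prod (ker A1 ⊔ K ⊔ Hs σ A2 u F2) ⊓
      (range u).comap (LinearMap.snd ℂ _ _ - LinearMap.fst ℂ _ _) ⊓
      Te.comap ((a • A2).coprod (b • A3))
    have a1 := c.o ha hb hT hΓ hΓ' S (fun ω h1 => h1.1.1.1) (fun ω h1 => h1.1.1.2)
      (fun ω h1 => h1.1.2) (fun ω h1 => h1.2)
    have a2 : D ≤ S.map (LinearMap.fst ℂ _ _) ⊔ range u := fun v hv => by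
      have h1 := hD v hv
      rw [show ν v = 0 from z hv, show ν' v = 0 from z' hv, map_zero, map_zero, add_zero,
        add_zero] at h1
      obtain ⟨j, hj, y, e⟩ := s.d.mem_ker (z hv)
      obtain ⟨j', hj', y', e'⟩ := s.d'.mem_ker (z' hv)
      have h2 : A2 v - Y v = A2 j := by
        rw [← e, map_add, map_add, s.d.y1 j hj, s.d.y3, zero_add, add_sub_cancel_right]
      have h3 : A3 v - Y' v = A3 j' := by
        rw [← e', map_add, map_add, s.d'.y1 j' hj', s.d'.y3, zero_add, add_sub_cancel_right]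
      rw [h2, h3] at h1
      rw [← e]
      refine Submodule.add_mem_sup ⟨(j, j'), ⟨⟨⟨hj, hj'⟩, y - y', ?_⟩, h1⟩, rfl⟩ ⟨y, rfl⟩
      show u (y - y') = j' - j
      rw [map_sub]
      linear_combination (norm := module) e - e'
    have a3 := (dm_mono a2).trans (dm_sup_le _ _)
    have a4 := dm_map_le (LinearMap.fst ℂ _ _) S
    have a5 := dm_range_fin u
    omega
  · exact c.mix s ha hb hT hΓ hD z z'
  · exact c.swap.mix s.swap hb ha hT (by rwa [add_comm (b • A3)])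
      (fun v hv => by rw [add_comm]; exact hD v hv) z' z
  obtain ⟨E5, e5, ha5, hb5⟩ := ext2 E4 a b
  obtain ⟨rT, pT⟩ := s.te hT
  have rP : RM E5 (a • (A2 - Y) + b • (A3 - Y')) :=
    (((s.r2.sub s.rY).mono e5.le).smul ha5).add (((s.r3.sub s.rY').mono e5.le).smul hb5)
  have hv : ∀ v ∈ D, (a • (A2 - Y) + b • (A3 - Y')) v -
      (a • lin Φ (ν v) + b • lin Φ' (ν' v)) ∈ Te := fun v hv => by
    have : (a • (A2 - Y) + b • (A3 - Y')) v - (a • lin Φ (ν v) + b • lin Φ' (ν' v)) =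
        a • (A2 v - (Y v + lin Φ (ν v))) + b • (A3 v - (Y' v + lin Φ' (ν' v))) := by
      simp only [LinearMap.add_apply, LinearMap.smul_apply, LinearMap.sub_apply]
      module
    rw [this]
    exact hD v hv
  have b1 := gm2 (s.g.ext e5) (RM.id.smul ha5) (RM.id.smul hb5) (s.rν.mono e5.le)
    (s.rν'.mono e5.le) rP (rT.mono e5.le) (RS.comap rP (((s.rI.sup s.rI').sup rT).mono e5.le))
    (fun v h1 => by
      rw [Submodule.mem_comap, ← add_sub_cancel (a • lin Φ (ν v) + b • lin Φ' (ν' v))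
        ((a • (A2 - Y) + b • (A3 - Y')) v)]
      exact Submodule.add_mem_sup (Submodule.add_mem_sup
        (Submodule.smul_mem _ _ (lin_mem s.g.fst.mem _))
        (Submodule.smul_mem _ _ (lin_mem s.g.snd.mem _))) (hv v h1))
    (fun v h1 => sub_mem_comm_iff.1 (hv v h1)) z z'
  rw [map_smul_id ha, map_smul_id hb] at b1
  have b2 := dm_comap_top (a • (A2 - Y) + b • (A3 - Y')) ((Hs σ A2 u F2).map A1 ⊓ perp (range ξ) ⊔
    (Hs σ A3 u F3).map A1 ⊓ perp (range ξ) ⊔ Te)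
  have b3 := dm_perp (range (a • (A2 - Y) + b • (A3 - Y')) ⊔ ((Hs σ A2 u F2).map A1 ⊓
    perp (range ξ) ⊔ (Hs σ A3 u F3).map A1 ⊓ perp (range ξ) ⊔ Te))
  let S : Submodule ℂ ((n → ℂ) × (n → ℂ)) :=
    (perp ((Hs σ A2 u F2).map A1)).prod (perp ((Hs σ A3 u F3).map A1)) ⊓
    (range ξ).comap (LinearMap.snd ℂ _ _ - LinearMap.fst ℂ _ _) ⊓
    ker ((a • tr A2).coprod (b • tr A3))
  have a1 := c.oo ha hb S (fun ω h1 => h1.1.1.1) (fun ω h1 => h1.1.1.2)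
    (fun ω h1 => h1.1.2) (fun ω h1 => h1.2)
  have a2 : perp (range (a • (A2 - Y) + b • (A3 - Y')) ⊔ ((Hs σ A2 u F2).map A1 ⊓
      perp (range ξ) ⊔ (Hs σ A3 u F3).map A1 ⊓ perp (range ξ) ⊔ Te)) ≤
      S.map (LinearMap.fst ℂ _ _) ⊔ range ξ := fun ζ hζ => by
    rw [perp_sup, perp_sup, perp_sup] at hζ
    obtain ⟨η, hη, y, e⟩ := mem_perp_I hζ.2.1.1
    obtain ⟨η', hη', y', e'⟩ := mem_perp_I hζ.2.1.2
    rw [← e]
    refine Submodule.add_mem_sup ⟨(η, η'), ⟨⟨⟨hη, hη'⟩, y - y', ?_⟩, eq_of_dot fun v => ?_⟩, rfl⟩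
      ⟨y, rfl⟩
    · show ξ (y - y') = η' - η
      rw [map_sub]
      linear_combination (norm := module) e - e'
    · have h1 : ζ ⬝ᵥ (a • (A2 v - Y v) + b • (A3 v - Y' v)) = 0 := hζ.1 _ ⟨v, rfl⟩
      have h2 : ζ ⬝ᵥ (A2 v - Y v) = η ⬝ᵥ A2 v := by
        rw [← e, add_dotProduct, dotProduct_sub, dotProduct_sub, hη _ (s.d.y2 v), s.d.y4]
        ring
      have h3 : ζ ⬝ᵥ (A3 v - Y' v) = η' ⬝ᵥ A3 v := by
        rw [← e', add_dotProduct, dotProduct_sub, dotProduct_sub, hη' _ (s.d'.y2 v), s.d'.y4]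
        ring
      rw [dotProduct_add, dotProduct_smul, dotProduct_smul, h2, h3] at h1
      show (a • tr A2 η + b • tr A3 η') ⬝ᵥ v = _
      rw [add_dotProduct, smul_dotProduct, smul_dotProduct, tr_dot, tr_dot, h1, zero_dotProduct]
  have a3 := (dm_mono a2).trans (dm_sup_le _ _)
  have a4 := dm_map_le (LinearMap.fst ℂ _ _) S
  have a5 := dm_range_fin ξ
  rw [card_fun] at b2
  omega

end Ctx

end Pool.Agent.P.MP_098a67_ag.T3
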