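import Pool.Agent.P.MP_098a67_ag.T3.StB

namespace Pool.Agent.P.MP_098a67_ag.T3

open Module
open LinearMap (ker range)

theorem exists_max {α : Type} {S : Set α} (hS : S.Nonempty) (f : α → ℕ) (N : ℕ)
    (hN : ∀ x, f x ≤ N) : ∃ x ∈ S, ∀ y ∈ S, f y ≤ f x := by
  obtain ⟨_, ⟨x, hx, rfl⟩, h⟩ := Set.exists_max_image (f '' S) id
    ((Set.finite_Iic N).subset (by rintro _ ⟨x, _, rfl⟩; exact hN x)) (hS.image f)
  exact ⟨x, hx, fun y hy => h _ ⟨y, hy, rfl⟩⟩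

theorem two_span {V W : Type} [AddCommGroup V] [Module ℂ V] [AddCommGroup W] [Module ℂ W]
    (P Q : V →ₗ[ℂ] W) (N : Submodule ℂ V) {a b c d : ℂ} (h : a * d ≠ b * c) :
    N.map P ⊔ N.map Q ≤ N.map (a • P + b • Q) ⊔ N.map (c • P + d • Q) := by
  have h1 := mul_inv_cancel₀ (sub_ne_zero.2 h)
  generalize (a * d - b * c)⁻¹ = e at h1
  refine sup_le ?_ ?_ <;> rintro _ ⟨v, hv, rfl⟩
  · have : P v = (e * d) • (a • P + b • Q) v + (-(e * b)) • (c • P + d • Q) v := by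
      simp only [LinearMap.add_apply, LinearMap.smul_apply]
      linear_combination (norm := module) (-h1) • P v
    rw [this]
    exact Submodule.add_mem_sup (Submodule.smul_mem _ _ ⟨v, hv, rfl⟩)
      (Submodule.smul_mem _ _ ⟨v, hv, rfl⟩)
  · have : Q v = (-(e * c)) • (a • P + b • Q) v + (e * a) • (c • P + d • Q) v := by
      simp only [LinearMap.add_apply, LinearMap.smul_apply]
      linear_combination (norm := module) (-h1) • Q v
    rw [this]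
    exact Submodule.add_mem_sup (Submodule.smul_mem _ _ ⟨v, hv, rfl⟩)
      (Submodule.smul_mem _ _ ⟨v, hv, rfl⟩)

theorem two_zero {W : Type} [AddCommGroup W] [Module ℂ W] {p q : W} {a b c d : ℂ}
    (h : a * d ≠ b * c) (h1 : a • p + b • q = 0) (h2 : c • p + d • q = 0) : p = 0 ∧ q = 0 := by
  have h3 := sub_ne_zero.2 h
  refine ⟨(smul_eq_zero_iff_right h3).1 ?_, (smul_eq_zero_iff_right h3).1 ?_⟩
  · linear_combination (norm := module) d • h1 - b • h2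
  · linear_combination (norm := module) a • h2 - c • h1

variable {n : Type} [Fintype n] [DecidableEq n]

theorem tri_base (A1 A2 A3 : (n → ℂ) →ₗ[ℂ] (n → ℂ)) (h γ L : ℕ) (hn : Fintype.card n = 4 * h)
    (hh : 4 ≤ h) (cor : ∀ x1 x2 x3 : ℂ, x1 ≠ 0 ∨ x2 ≠ 0 ∨ x3 ≠ 0 →
      dm (ker (x1 • A1 + x2 • A2 + x3 • A3)) ≤ 2 * h)
    (g1 : dm (ker A1) = γ) (g2 : dm (ker A2) ≤ γ) (g3 : dm (ker A3) ≤ γ)
    (c1 : ∀ v, A1 v = 0 → A2 v = 0 → A3 v = 0 → v = 0) (hL : L ≤ dm (ker A2 ⊓ ker A3))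
    (l1 : ∀ a b : ℂ, a ≠ 0 ∨ b ≠ 0 → dm (ker (tr A1) ⊓ ker (tr (a • A2 + b • A3))) ≤ L)
    (L2 : ∀ x1 x2 x3 : ℂ, x1 ≠ 0 ∨ x3 ≠ 0 →
      dm (ker (tr A2) ⊓ ker (tr (x1 • A1 + x2 • A2 + x3 • A3))) ≤ L)
    (L3 : ∀ x1 x2 x3 : ℂ, x1 ≠ 0 ∨ x2 ≠ 0 →
      dm (ker (tr A3) ⊓ ker (tr (x1 • A1 + x2 • A2 + x3 • A3))) ≤ L)
    {a' b' : ℂ} (ha' : a' ≠ 0) (hb' : b' ≠ 0)
    (hk : ∀ a b : ℂ, a ≠ 0 ∨ b ≠ 0 →
      dm (ker A1 ⊓ ker (a • A2 + b • A3)) ≤ dm (ker A1 ⊓ ker (a' • A2 + b' • A3)))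
    (hLk : L ≤ dm (ker A1 ⊓ ker (a' • A2 + b' • A3))) : RK3 A1 A2 A3 (7 * h + 16) := by
  obtain ⟨σ, hσ⟩ := exists_ginv A1
  obtain ⟨⟨a0, b0⟩, h0, m0⟩ := exists_max (S := {p : ℂ × ℂ | p.1 ≠ 0 ∨ p.2 ≠ 0})
    ⟨(1, 0), Or.inl one_ne_zero⟩ (fun p => dm (ker (tr A1) ⊓ ker (tr (p.1 • A2 + p.2 • A3)))) _
    fun _ => dm_le _
  obtain ⟨⟨a1, b1⟩, h1, m1⟩ := exists_max (S := {p : ℂ × ℂ | p.1 * b' ≠ p.2 * a'})
    ⟨(1, 0), by simpa using hb'⟩ (fun p => dm (ker A1 ⊓ ker (p.1 • A2 + p.2 • A3))) _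
    fun _ => dm_le _
  have h1' : a1 * b' ≠ b1 * a' := h1
  obtain ⟨K, hK, dK⟩ := exists_le_dm (ker A2 ⊓ ker A3) ((l1 a0 b0 h0).trans hL)
  have g1' := dm_ker_tr A1
  set K' := ker A1 ⊓ ker (a' • A2 + b' • A3) with hK'
  have d1 := dm_map_ker (a' • A2 + b' • A3) (ker A1)
  have d2 := dm_map_ker (a1 • A2 + b1 • A3) (ker A1)
  have d3 := dm_sup_le ((ker A1).map (a' • A2 + b' • A3)) (K'.map A3)
  have d4 := dm_mono (le_sup_left : _ ≤ (ker A1).map (a' • A2 + b' • A3) ⊔ K'.map A3)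
  have d5 := dm_mono (le_sup_right : _ ≤ (ker A1).map (a' • A2 + b' • A3) ⊔ K'.map A3)
  have d6 : dm (K'.map A3) = dm K' := dm_map_eq fun v hv h3 => c1 v hv.1 (by
    have : a' • A2 v + b' • A3 v = 0 := hv.2
    rwa [h3, smul_zero, add_zero, smul_eq_zero_iff_right ha'] at this) h3
  have d7 : dm (ker A1 ⊓ ker (a1 • A2 + b1 • A3)) ≤ dm K' := hk a1 b1 (by
    by_contra hc
    push Not at hc
    exact h1' (by rw [hc.1, hc.2, zero_mul, zero_mul]))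
  have d8 : dm (ker A1 ⊓ ker (a1 • A2 + b1 • A3)) + dm K' ≤ γ := by
    rw [← dm_sup_eq (S := ker A1 ⊓ ker (a1 • A2 + b1 • A3)) (T := K') fun v hv hv' => c1 v hv.1 (two_zero h1' hv.2 hv'.2).1
      (two_zero h1' hv.2 hv'.2).2, ← g1]
    exact dm_mono (sup_le inf_le_left inf_le_left)
  have d9 := (dm_mono (two_span A2 A3 (ker A1) h1')).trans (dm_sup_le _ _)
  have d10 : dm ((ker A1).map A2 ⊔ (ker A1).map A3) + dm K' ≤
      dm ((ker A1).map (a' • A2 + b' • A3) ⊔ K'.map A3) + γ := by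
    obtain ⟨C, _, c2, c3⟩ := exists_compl_in (S := K') (T := ker A1) inf_le_left
    have e1 := dm_sup_eq c2
    have e2 := two_span A2 A3 (ker A1) (a := a') (b := b') (c := 0) (d := 1) (by simpa using ha')
    rw [zero_smul, zero_add, one_smul] at e2
    have e3 : (ker A1).map A3 = K'.map A3 ⊔ C.map A3 := by rw [← Submodule.map_sup, c3]
    have e4 := dm_mono (e2.trans_eq (c := (ker A1).map (a' • A2 + b' • A3) ⊔ K'.map A3 ⊔ C.map A3)
      (by rw [e3, ← sup_assoc]))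
    have e5 := dm_sup_le ((ker A1).map (a' • A2 + b' • A3) ⊔ K'.map A3) (C.map A3)
    have e6 := dm_map_le A3 C
    rw [c3] at e1
    omega
  have hΓ : ∀ a b : ℂ, a * b' ≠ b * a' → γ ≤ dm ((ker A1).map (a • A2 + b • A3)) +
      dm (ker A1 ⊓ ker (a1 • A2 + b1 • A3)) := fun a b hab => by
    have e1 := dm_map_ker (a • A2 + b • A3) (ker A1)
    have e2 : dm (ker A1 ⊓ ker (a • A2 + b • A3)) ≤ _ := m1 (a, b) hab
    dsimp only at e2
    omega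
  have n2 := hΓ 1 0 (by simpa using hb')
  have n3 := hΓ 0 1 (by simpa using ha'.symm)
  rw [one_smul, zero_smul, add_zero] at n2
  rw [one_smul, zero_smul, zero_add] at n3
  have i5 := cor 1 0 0 (Or.inl one_ne_zero)
  rw [one_smul, zero_smul, zero_smul, add_zero, add_zero] at i5
  have i4 := dm_mono (inf_le_left : ker (tr A1) ⊓ ker (tr (a0 • A2 + b0 • A3)) ≤ _)
  have dW : 4 * h + dm (ker (tr A1) ⊓ ker (tr (a0 • A2 + b0 • A3))) ≤
      dm ((range A1).comap A2 ⊓ (range A1).comap A3) + 2 * γ := by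
    have e1 := dm_perp ((range A1).comap A2 ⊓ (range A1).comap A3)
    rw [perp_inf, perp_comap, perp_comap, perp_range] at e1
    obtain ⟨c, d, hcd⟩ : ∃ c d : ℂ, a0 * d ≠ b0 * c := by
      rcases h0 with h0 | h0
      · exact ⟨0, 1, by simpa using h0⟩
      · exact ⟨1, 0, by simpa using (Ne.symm h0)⟩
    have e2 := (dm_mono (two_span (tr A2) (tr A3) (ker (tr A1)) hcd)).trans (dm_sup_le _ _)
    have e3 := dm_map_ker (a0 • tr A2 + b0 • tr A3) (ker (tr A1))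
    have e4 := dm_map_le (c • tr A2 + d • tr A3) (ker (tr A1))
    rw [tr_add, tr_smul, tr_smul]
    omega
  rw [← hK'] at d1
  refine caseB (σ := σ) (K := K) (W0 := (range A1).comap A2 ⊓ (range A1).comap A3) (K' := K')
    (γ := γ) (k := dm K') (ks := max (dm (ker A1 ⊓ ker (a1 • A2 + b1 • A3)))
      (γ - dm ((ker A1).map (a' • A2 + b' • A3) ⊔ K'.map A3)))
    (l := dm (ker (tr A1) ⊓ ker (tr (a0 • A2 + b0 • A3)))) (L := L)
    ⟨hn, hh, cor, g1, g2, g3, hσ, fun v hv => (hK hv).1, fun v hv => (hK hv).2, dK,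
      fun v hv e => c1 v e (hK hv).1 (hK hv).2, fun w hw => hw.1, fun w hw => hw.2, dW,
      fun a b hab => m0 (a, b) hab, L2, L3, by omega, by omega, by omega, by omega, by omega,
      hLk, by omega, by omega, rfl, rfl⟩ ha' hb' (fun v hv => hv)
    (fun a b _ _ hab => ?_) (by omega) (by omega)
  have := hΓ a b hab
  omega

end Pool.Agent.P.MP_098a67_ag.T3
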