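import Pool.Agent.P.MP_098a67_ag.T3.TriA

namespace Pool.Agent.P.MP_098a67_ag.T3

open Module
open LinearMap (ker range)

variable {X : Type} [AddCommGroup X] [Module ℂ X] [Module.Finite ℂ X] {x y z : X}

/-- The span of two vectors. -/
def pen (x y : X) : Submodule ℂ X := (ℂ ∙ x) ⊔ (ℂ ∙ y)

theorem mem_pen : z ∈ pen x y ↔ ∃ a b : ℂ, a • x + b • y = z := by
  constructor
  · intro h
    obtain ⟨_, h1, _, h2, rfl⟩ := Submodule.mem_sup.1 h
    obtain ⟨a, rfl⟩ := Submodule.mem_span_singleton.1 h1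
    obtain ⟨b, rfl⟩ := Submodule.mem_span_singleton.1 h2
    exact ⟨a, b, rfl⟩
  · rintro ⟨a, b, rfl⟩
    exact Submodule.add_mem_sup (Submodule.mem_span_singleton.2 ⟨a, rfl⟩)
      (Submodule.mem_span_singleton.2 ⟨b, rfl⟩)

theorem left_pen (x y : X) : x ∈ pen x y := mem_pen.2 ⟨1, 0, by simp⟩

theorem right_pen (x y : X) : y ∈ pen x y := mem_pen.2 ⟨0, 1, by simp⟩

theorem pen_le {S : Submodule ℂ X} (hx : x ∈ S) (hy : y ∈ S) : pen x y ≤ S := fun z hz => by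
  obtain ⟨a, b, rfl⟩ := mem_pen.1 hz
  exact S.add_mem (S.smul_mem _ hx) (S.smul_mem _ hy)

theorem dm_sup_span {S : Submodule ℂ X} (hy : y ∉ S) : dm (S ⊔ ℂ ∙ y) = dm S + 1 := by
  have := dm_lt (le_sup_left : S ≤ S ⊔ ℂ ∙ y)
    (Submodule.mem_sup_right (Submodule.mem_span_singleton_self y)) hy
  have := dm_sup_le S (ℂ ∙ y)
  have := dm_span_le y
  omega

theorem dm_pen (hx : x ≠ 0) (hy : y ∉ ℂ ∙ x) : dm (pen x y) = 2 := by
  rw [pen, dm_sup_span hy, dm_span_single hx]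

theorem exists_notMem {S T : Submodule ℂ X} (h : dm S < dm T) : ∃ y ∈ T, y ∉ S := by
  by_contra hc
  push Not at hc
  exact absurd (dm_mono hc) (by omega)

theorem exists_off (hX : finrank ℂ X = 3) (x y : X) : ∃ z, z ∉ pen x y := by
  have := dm_sup_le (ℂ ∙ x) (ℂ ∙ y)
  have := dm_span_le x
  have := dm_span_le y
  obtain ⟨z, _, hz⟩ := exists_notMem (S := pen x y) (T := ⊤) (by rw [dm_top, pen]; omega)
  exact ⟨z, hz⟩

theorem span3 (hX : finrank ℂ X = 3) (hx : x ≠ 0) (hy : y ∉ ℂ ∙ x) (hz : z ∉ pen x y) (w : X) :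
    ∃ p : ℂ × ℂ × ℂ, p.1 • x + p.2.1 • y + p.2.2 • z = w := by
  have : w ∈ pen x y ⊔ ℂ ∙ z := by
    rw [eq_top_of_dm (S := pen x y ⊔ ℂ ∙ z) (by rw [dm_sup_span hz, dm_pen hx hy, hX])]
    trivial
  obtain ⟨_, h1, _, h2, rfl⟩ := Submodule.mem_sup.1 this
  obtain ⟨a, b, rfl⟩ := mem_pen.1 h1
  obtain ⟨c, rfl⟩ := Submodule.mem_span_singleton.1 h2
  exact ⟨(a, b, c), rfl⟩

theorem mem_of_comb {S : Submodule ℂ X} {b : ℂ} (hb : b ≠ 0) (hx : x ∈ S) (h : x + b • y ∈ S) :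
    y ∈ S := (S.smul_mem_iff hb).1 ((S.add_mem_iff_right hx).1 h)

theorem exch (h : z ∈ pen x y) (hz : z ∉ ℂ ∙ x) : y ∈ pen x z := by
  obtain ⟨a, b, e⟩ := mem_pen.1 h
  refine mem_of_comb (b := b) (fun hb => hz (Submodule.mem_span_singleton.2 ⟨a, ?_⟩))
    (Submodule.smul_mem _ a (left_pen x z)) (by rw [e]; exact right_pen x z)
  rw [← e, hb, zero_smul, add_zero]

variable {n : Type} [Fintype n] [DecidableEq n] (T : X →ₗ[ℂ] (n → ℂ) →ₗ[ℂ] (n → ℂ))

/-- The transposed family. -/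
noncomputable def trT : X →ₗ[ℂ] (n → ℂ) →ₗ[ℂ] (n → ℂ) where
  toFun x := tr (T x)
  map_add' x y := by rw [map_add, tr_add]
  map_smul' c x := by rw [map_smul, tr_smul]; rfl

/-- No common kernel. -/
def Conc : Prop := ∀ v, (∀ x, T x v = 0) → v = 0

theorem trT_trT : trT (trT T) = T := LinearMap.ext fun x => tr_tr (T x)

variable {T}

theorem ker_pen (h : z ∈ pen x y) : ker (T x) ⊓ ker (T y) ≤ ker (T z) := fun v hv => by
  obtain ⟨a, b, rfl⟩ := mem_pen.1 h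
  simp [show T x v = 0 from hv.1, show T y v = 0 from hv.2]

section

variable (hX : finrank ℂ X = 3) (hx : x ≠ 0)
include hX hx

theorem rk_of3 (hy : y ∉ ℂ ∙ x) (hz : z ∉ pen x y) {r : ℕ} (h : RK3 (T x) (T y) (T z) r) :
    RK T r := by
  choose j hj using span3 hX hx hy hz
  refine RK.re h j fun w v => ?_
  conv_lhs => rw [← hj w]
  simp

theorem Conc.three (c : Conc T) (hy : y ∉ ℂ ∙ x) (hz : z ∉ pen x y) (v : n → ℂ) (h1 : T x v = 0)
    (h2 : T y v = 0) (h3 : T z v = 0) : v = 0 := c v fun w => by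
  obtain ⟨p, rfl⟩ := span3 hX hx hy hz w
  simp [h1, h2, h3]

theorem case0' {h : ℕ} (hn : Fintype.card n = 4 * h) (hr : dm (range (T x)) ≤ h) :
    RK T (7 * h + 1) := by
  obtain ⟨y, hy⟩ := exists_off hX x x
  obtain ⟨z, hz⟩ := exists_off hX x y
  exact rk_of3 hX hx (fun e => hy (Submodule.mem_sup_left e)) hz
    (case0 _ _ _ h (by rw [card_fun, hn]) hr)

theorem one_bad (c : Conc T) (hy : y ∉ ℂ ∙ x) (hz : z ∉ pen x y) :
    dm (ker (T x) ⊓ ker (T y)) + dm (ker (T x) ⊓ ker (T z)) ≤ dm (ker (T x)) := by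
  rw [← dm_sup_eq (S := ker (T x) ⊓ ker (T y)) (T := ker (T x) ⊓ ker (T z))
    fun v h1 h2 => c.three hX hx hy hz v h1.1 h1.2 h2.2]
  exact dm_mono (sup_le inf_le_left inf_le_left)

variable {h : ℕ} (hn : Fintype.card n = 4 * h) (c1 : Conc T) (c2 : Conc (trT T))
  (hc : 2 * h ≤ dm (ker (T x)))
include hn c1 c2 hc

theorem caseI' (hy : y ∉ ℂ ∙ x) (hz : z ∉ pen x y)
    (hk : ∀ w ∉ pen x y, dm (ker (T x) ⊓ ker (T w)) + h ≤ dm (ker (T x)))
    (hl : ∀ w ∉ pen x z, dm (ker (tr (T x)) ⊓ ker (tr (T w))) + h ≤ dm (ker (T x))) :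
    RK T (7 * h + 4) := by
  have hy' : y ∉ pen x z := fun e => hz (exch e hy)
  refine rk_of3 hX hx hy hz (caseI _ _ _ h hn hc (fun a b hb => ?_) (fun a b ha => ?_)
    (c1.three hX hx hy hz) fun v e1 e2 e3 => c2.three hX hx hy hz v e1 e3 e2)
  · have := hk (a • y + b • z) fun e =>
      hz (mem_of_comb hb (Submodule.smul_mem _ _ (right_pen x y)) e)
    rwa [map_add, map_smul, map_smul] at this
  · have := hl (a • y + b • z) fun e =>
      hy' (mem_of_comb ha (Submodule.smul_mem _ b (right_pen x z)) (by rwa [add_comm]))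
    rwa [map_add, map_smul, map_smul] at this

theorem caseBig : RK T (7 * h + 6) := by
  have ht := dm_ker_tr (T x)
  have sp : ∀ {y w : X}, w ∉ pen x y → w ∉ ℂ ∙ x := fun e1 e2 => e1 (Submodule.mem_sup_left e2)
  have uk : ∀ y ∉ ℂ ∙ x, dm (ker (T x)) < dm (ker (T x) ⊓ ker (T y)) + h →
      ∀ w ∉ pen x y, dm (ker (T x) ⊓ ker (T w)) + h ≤ dm (ker (T x)) := fun y hy hb w hw => by
    have := one_bad hX hx c1 hy hw
    omega
  have ul : ∀ y ∉ ℂ ∙ x, dm (ker (T x)) < dm (ker (tr (T x)) ⊓ ker (tr (T y))) + h →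
      ∀ w ∉ pen x y, dm (ker (tr (T x)) ⊓ ker (tr (T w))) + h ≤ dm (ker (T x)) :=
    fun y hy hb w hw => by
      have : dm (ker (tr (T x)) ⊓ ker (tr (T y))) + dm (ker (tr (T x)) ⊓ ker (tr (T w))) ≤
        dm (ker (tr (T x))) := one_bad (T := trT T) hX hx c2 hy hw
      omega
  by_cases hk : ∃ y ∉ ℂ ∙ x, dm (ker (T x)) < dm (ker (T x) ⊓ ker (T y)) + h <;>
    by_cases hl : ∃ y ∉ ℂ ∙ x, dm (ker (T x)) < dm (ker (tr (T x)) ⊓ ker (tr (T y))) + h
  · obtain ⟨y, hy, b1⟩ := hk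
    obtain ⟨z, hz, b2⟩ := hl
    by_cases e : z ∈ pen x y
    swap
    · exact (caseI' hX hx hn c1 c2 hc hy e (uk y hy b1) (ul z hz b2)).mono (by omega)
    by_cases h0 : ∃ w ≠ 0, dm (range (T w)) ≤ h
    · obtain ⟨w, hw, hr⟩ := h0
      exact (case0' hX hw hn hr).mono (by omega)
    push Not at h0
    obtain ⟨w, hw⟩ := exists_off hX x y
    obtain ⟨K, hK, dK⟩ := exists_le_dm (ker (T x) ⊓ ker (T y)) (d := h) (by omega)
    obtain ⟨Ξ, hΞ, dΞ⟩ := exists_le_dm (ker (tr (T x)) ⊓ ker (tr (T z))) (d := h) (by omega)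
    have h1 : ∀ ξ ∈ Ξ, tr (T x) ξ = 0 ∧ tr (T y) ξ = 0 := fun ξ e1 =>
      ⟨(hΞ e1).1, ker_pen (T := trT T) (exch e hz) (hΞ e1)⟩
    have := lemC (T w) (T x) (T y) h hn K Ξ (fun v hv => hK hv) dK h1 dΞ
      (fun ξ e1 e2 => c2.three hX hx hy hw ξ (h1 ξ e1).1 (h1 ξ e1).2 e2) fun a b hab => by
        rw [← map_smul, ← map_smul, ← map_add]
        refine (h0 _ fun e1 => ?_).le
        by_cases hb : b = 0
        · rw [hb, zero_smul, add_zero, smul_eq_zero_iff_right (hab.resolve_right (not_not.2 hb))]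
            at e1
          exact hx e1
        · exact hy (mem_of_comb hb (Submodule.smul_mem _ a (Submodule.mem_span_singleton_self x))
            (by rw [e1]; exact Submodule.zero_mem _))
    refine rk_of3 hX hx hy hw (RK.re this (fun p => (p.2.2, p.1, p.2.1)) fun p v => ?_)
    simp only [LinearMap.add_apply, LinearMap.smul_apply]
    module
  · push Not at hl
    obtain ⟨y, hy, b1⟩ := hk
    obtain ⟨z, hz⟩ := exists_off hX x y
    exact (caseI' hX hx hn c1 c2 hc hy hz (uk y hy b1) fun w e => hl w (sp e)).mono (by omega)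
  · push Not at hk
    obtain ⟨z, hz, b2⟩ := hl
    obtain ⟨y, hy⟩ := exists_off hX x z
    exact (caseI' hX hx hn c1 c2 hc (sp hy) (fun e => hy (exch e hz)) (fun w e => hk w (sp e))
      (ul z hz b2)).mono (by omega)
  · push Not at hk hl
    obtain ⟨y, hy⟩ := exists_off hX x x
    obtain ⟨z, hz⟩ := exists_off hX x y
    exact (caseI' hX hx hn c1 c2 hc (sp hy) hz (fun w e => hk w (sp e))
      fun w e => hl w (sp e)).mono (by omega)

end

end Pool.Agent.P.MP_098a67_ag.T3
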