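import Pool.Agent.P.MP_098a67_ag.T3.TriB

namespace Pool.Agent.P.MP_098a67_ag.T3

open Module
open LinearMap (ker range)

theorem fin_bad {V : Type} [AddCommGroup V] [Module ℂ V] [Module.Finite ℂ V] (A B : V →ₗ[ℂ] V) :
    {s : ℂ | dm (ker A) < dm (ker (A + s • B))}.Finite := by
  obtain ⟨σ, hσ⟩ := exists_ginv A
  refine ((Module.End.finite_hasEigenvalue (σ ∘ₗ B : Module.End ℂ V)).image
    fun μ => -μ⁻¹).subset fun s hs => ?_
  have hs0 : s ≠ 0 := by
    rintro rfl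
    simp at hs
  refine ⟨-s⁻¹, ?_, by simp⟩
  by_contra hc
  refine absurd hs (not_lt.2 (dm_le_of_inj (LinearMap.id - σ ∘ₗ A) (fun v _ => ?_) fun v hv e => ?_))
  · show A (v - σ (A v)) = 0
    rw [map_sub, hσ, sub_self]
  · by_contra h0
    refine hc (Module.End.hasEigenvalue_of_hasEigenvector (x := v)
      ⟨Module.End.mem_eigenspace_iff.2 ?_, h0⟩)
    have e1 : v - σ (A v) = 0 := e
    have e2 := congrArg σ (show A v + s • B v = 0 from hv)
    rw [map_add, map_smul, map_zero] at e2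
    refine smul_right_injective _ hs0 ?_
    show s • σ (B v) = s • -s⁻¹ • v
    rw [smul_smul, mul_neg, mul_inv_cancel₀ hs0]
    linear_combination (norm := module) e1 + e2

variable {X : Type} [AddCommGroup X] [Module ℂ X] [Module.Finite ℂ X] {x y z : X}
  {n : Type} [Fintype n] [DecidableEq n] (T : X →ₗ[ℂ] (n → ℂ) →ₗ[ℂ] (n → ℂ))

/-- The common kernel of a space of slices. -/
def KK (P : Submodule ℂ X) : Submodule ℂ (n → ℂ) where
  carrier := {v | ∀ x ∈ P, T x v = 0}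
  add_mem' ha hb x hx := by rw [map_add, ha x hx, hb x hx, add_zero]
  zero_mem' x _ := map_zero _
  smul_mem' c v hv x hx := by rw [map_smul, hv x hx, smul_zero]

theorem KK_le {P : Submodule ℂ X} (hx : x ∈ P) (hy : y ∈ P) :
    dm (KK T P) ≤ dm (ker (T x) ⊓ ker (T y)) := dm_mono fun _ hv => ⟨hv x hx, hv y hy⟩

theorem le_KK (x y : X) : dm (ker (T x) ⊓ ker (T y)) ≤ dm (KK T (pen x y)) :=
  dm_mono fun _ hv _ hz => ker_pen hz hv

theorem avoid {P : Submodule ℂ X} (hx : x ∈ P) {F : Set (Submodule ℂ X)} (hF : F.Finite)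
    (h : ∀ Q ∈ F, ¬ P ≤ Q) : ∃ w ∈ P, dm (ker (T w)) ≤ dm (ker (T x)) ∧ ∀ Q ∈ F, w ∉ Q := by
  have := hF.to_subtype
  obtain ⟨y, hy⟩ := Submodule.exists_forall_notMem_of_forall_ne_top
    (fun Q : F => Q.1.comap P.subtype) fun Q e => h Q.1 Q.2 (Submodule.comap_subtype_eq_top.1 e)
  have h1 : (⋃ Q ∈ F, {s : ℂ | x + s • y.1 ∈ Q}).Finite := hF.biUnion fun Q hQ =>
    Set.Subsingleton.finite fun s hs s' hs' => by
      by_contra hne
      refine hy ⟨Q, hQ⟩ ((Q.smul_mem_iff (sub_ne_zero.2 hne)).1 ?_)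
      have := Q.sub_mem hs hs'
      rwa [add_sub_add_left_eq_sub, ← sub_smul] at this
  obtain ⟨s, hs⟩ := (h1.union (fin_bad (T x) (T y))).exists_notMem
  simp only [Set.mem_union, Set.mem_iUnion, Set.mem_ofPred_eq, not_or, not_exists, not_lt] at hs
  exact ⟨x + s • y.1, P.add_mem hx (P.smul_mem _ y.2), by rw [map_add, map_smul]; exact hs.2, hs.1⟩

theorem meet (hX : finrank ℂ X = 3) {P Q : Submodule ℂ X} (hP : dm P = 2) (hQ : dm Q = 2) :
    ∃ w, w ∈ P ∧ w ∈ Q ∧ w ≠ 0 := by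
  have := dm_inf_ge P Q
  obtain ⟨w, hw, h0⟩ := exists_notMem (S := ⊥) (T := P ⊓ Q) (by rw [dm_bot]; omega)
  exact ⟨w, hw.1, hw.2, h0⟩

theorem ind3 (hx : x ≠ 0) (hy : y ∉ ℂ ∙ x) (hz : z ∉ pen x y) {a b c : ℂ}
    (h : a • x + b • y + c • z = 0) : a = 0 ∧ b = 0 ∧ c = 0 := by
  have hc : c = 0 := by
    by_contra hc
    exact hz (mem_of_comb hc (mem_pen.2 ⟨a, b, rfl⟩) (by rw [h]; exact Submodule.zero_mem _))
  rw [hc, zero_smul, add_zero] at h
  have hb : b = 0 := by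
    by_contra hb
    exact hy (mem_of_comb hb (Submodule.smul_mem _ a (Submodule.mem_span_singleton_self x))
      (by rw [h]; exact Submodule.zero_mem _))
  rw [hb, zero_smul, add_zero, smul_eq_zero_iff_left hx] at h
  exact ⟨h, hb, hc⟩

theorem dm_pen_aff (hx : x ≠ 0) (hy : y ∉ ℂ ∙ x) (hz : z ∉ pen x y) (α β : ℂ) :
    dm (pen (y + α • x) (z + β • x)) = 2 := by
  refine dm_pen (fun e => one_ne_zero (ind3 hx hy hz (a := α) (b := 1) (c := 0) ?_).2.1) fun e => ?_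
  · linear_combination (norm := module) e
  · obtain ⟨c, e⟩ := Submodule.mem_span_singleton.1 e
    refine one_ne_zero (ind3 hx hy hz (a := β - c * α) (b := -c) (c := 1) ?_).2.2
    linear_combination (norm := module) -e

theorem bad_finite (hX : finrank ℂ X = 3) (hx : x ≠ 0) :
    {P : Submodule ℂ X | dm P = 2 ∧ ∀ w ∈ P, dm (ker (T x)) < dm (ker (T w))}.Finite := by
  obtain ⟨y, hy⟩ := exists_off hX x x
  have hy : y ∉ ℂ ∙ x := fun e => hy (Submodule.mem_sup_left e)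
  obtain ⟨z, hz⟩ := exists_off hX x y
  have hz' : z ∉ ℂ ∙ x := fun e => hz (Submodule.mem_sup_left e)
  have fin : ∀ y, {α : ℂ | dm (ker (T x)) < dm (ker (T (y + α • x)))}.Finite := fun y => by
    refine (((fin_bad (T x) (T y)).image fun s => s⁻¹).insert 0).subset fun α hα => ?_
    by_cases h0 : α = 0
    · exact Or.inl h0
    refine Or.inr ⟨α⁻¹, ?_, inv_inv α⟩
    have : T (y + α • x) = α • (T x + α⁻¹ • T y) := by
      rw [map_add, map_smul, smul_add, smul_smul, mul_inv_cancel₀ h0, one_smul, add_comm]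
    rwa [Set.mem_ofPred_eq, this, LinearMap.ker_smul _ _ h0] at hα
  refine ((fin y).image2 (fun α β => pen (y + α • x) (z + β • x)) (fin z)).subset ?_
  rintro P ⟨hP, hb⟩
  have key : ∀ y ∉ ℂ ∙ x, ∃ α : ℂ, y + α • x ∈ P := fun y hy => by
    obtain ⟨w, h1, h2, h3⟩ := meet hX hP (dm_pen hx hy)
    obtain ⟨a, b, rfl⟩ := mem_pen.1 h2
    have hb0 : b ≠ 0 := by
      rintro rfl
      rw [zero_smul, add_zero] at h1 h3
      exact lt_irrefl _ (hb x ((P.smul_mem_iff (left_ne_zero_of_smul h3)).1 h1))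
    refine ⟨a / b, (P.smul_mem_iff hb0).1 ?_⟩
    rwa [smul_add, smul_smul, mul_div_cancel₀ _ hb0, add_comm]
  obtain ⟨α, hα⟩ := key y hy
  obtain ⟨β, hβ⟩ := key z hz'
  exact ⟨α, hb _ hα, β, hb _ hβ,
    eq_of_dm_le (pen_le hα hβ) (by rw [hP, dm_pen_aff hx hy hz])⟩

theorem inf_pts (hX : finrank ℂ X = 3) : {P : Submodule ℂ X | dm P = 2}.Infinite := by
  obtain ⟨x, hx⟩ := exists_off hX 0 0
  have hx : x ≠ 0 := fun e => hx (by rw [e]; exact Submodule.zero_mem _)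
  obtain ⟨y, hy⟩ := exists_off hX x x
  have hy : y ∉ ℂ ∙ x := fun e => hy (Submodule.mem_sup_left e)
  obtain ⟨z, hz⟩ := exists_off hX x y
  refine Set.infinite_of_injective_forall_mem (f := fun α : ℂ => pen (y + α • x) (z + (0 : ℂ) • x))
    (fun α β e => ?_) fun α => dm_pen_aff hx hy hz α 0
  have h1 := left_pen (y + α • x) (z + (0 : ℂ) • x)
  dsimp only at e
  rw [e] at h1
  obtain ⟨a, b, e1⟩ := mem_pen.1 h1
  obtain ⟨h2, h3, _⟩ := ind3 hx hy hz (a := a * β - α) (b := a - 1) (c := b)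
    (by linear_combination (norm := module) e1)
  linear_combination β * h3 - h2

variable {T}

theorem triangle (hX : finrank ℂ X = 3) {h : ℕ} (hn : Fintype.card n = 4 * h) (hh : 4 ≤ h)
    (c1 : Conc T) (cor : ∀ x ≠ 0, dm (ker (T x)) ≤ 2 * h) (L : ℕ)
    (hF : {P : Submodule ℂ X | dm P = 2 ∧ L < dm (KK (trT T) P)}.Finite)
    (hZ : {P : Submodule ℂ X | dm P = 2 ∧ L ≤ dm (KK T P)}.Infinite) : RK T (7 * h + 16) := by
  obtain ⟨x0, hx0, m0⟩ := exists_max (S := {x : X | x ≠ 0}) (by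
    obtain ⟨x, hx⟩ := exists_off hX 0 0
    exact ⟨x, fun e => hx (by rw [e]; exact Submodule.zero_mem _)⟩)
    (fun x => dm (range (T x))) _ fun _ => dm_le _
  have mn : ∀ x ≠ 0, dm (ker (T x0)) ≤ dm (ker (T x)) := fun x hx => by
    have h1 : dm (range (T x)) ≤ _ := m0 x hx
    have h2 := dm_range_ker (T x)
    have h3 := dm_range_ker (T x0)
    omega
  obtain ⟨e0, ⟨⟨d0, k0⟩, n0⟩, e1, ⟨⟨d1, k1⟩, n1⟩, hne⟩ :=
    (hZ.sdiff (hF.union (bad_finite T hX hx0))).nontrivial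
  set Fs := {P : Submodule ℂ X | dm P = 2 ∧ L < dm (KK (trT T) P)}
  have nl : ∀ {P Q : Submodule ℂ X}, dm P = 2 → dm Q = 2 → P ≠ Q → ¬ P ≤ Q :=
    fun h1 h2 h3 h4 => h3 (eq_of_dm_le h4 (by omega))
  have good : ∀ e : Submodule ℂ X, dm e = 2 → e ∉ Fs ∪ {P : Submodule ℂ X | dm P = 2 ∧
      ∀ w ∈ P, dm (ker (T x0)) < dm (ker (T w))} → ∀ Q R : Submodule ℂ X, ¬ e ≤ Q → ¬ e ≤ R →
      ∃ w ∈ e, dm (ker (T w)) ≤ dm (ker (T x0)) ∧ w ∉ Q ∧ w ∉ R ∧
        ∀ v ∉ ℂ ∙ w, dm (ker (tr (T w)) ⊓ ker (tr (T v))) ≤ L := fun e de he Q R hQ hR => by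
    simp only [Set.mem_union, Set.mem_ofPred_eq, not_or, not_and, not_forall, not_lt] at he
    obtain ⟨x, hx, h1⟩ := he.2 de
    obtain ⟨w, hw, h2, h3⟩ := avoid T hx ((hF.insert R).insert Q) (by
      rintro S (rfl | rfl | hS)
      · exact hQ
      · exact hR
      · exact nl de hS.1 fun e => he.1 (e ▸ hS))
    have h4 := h3 Q (Or.inl rfl)
    refine ⟨w, hw, h2.trans h1, h4, h3 R (Or.inr (Or.inl rfl)), fun v hv => ?_⟩
    refine (le_KK (trT T) w v).trans (not_lt.1 fun h5 => h3 _ (Or.inr (Or.inr ⟨dm_pen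
      (fun e => h4 (by rw [e]; exact Q.zero_mem)) hv, h5⟩)) (left_pen w v))
  obtain ⟨x1, m1, g1, o1, -, l1⟩ := good e0 d0 n0 e1 e1 (nl d0 d1 hne) (nl d0 d1 hne)
  have z1 : x1 ≠ 0 := fun e => o1 (by rw [e]; exact e1.zero_mem)
  obtain ⟨e2, ⟨d2, m2⟩, mx⟩ := exists_max (S := {P : Submodule ℂ X | dm P = 2 ∧ x1 ∈ P})
    ⟨e0, d0, m1⟩ (fun P => dm (KK T P)) _ fun _ => dm_le _
  have n12 : ¬ e1 ≤ e2 := nl d1 d2 fun e => o1 (e ▸ m2)
  obtain ⟨x2, p2, g2, o2, -, l2⟩ := good e1 d1 n1 e2 e2 n12 n12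
  have z2 : x2 ≠ 0 := fun e => o2 (by rw [e]; exact e2.zero_mem)
  obtain ⟨x3, p3, g3, o3, s3, l3⟩ := good e1 d1 n1 e2 (ℂ ∙ x2) n12 fun e => by
    have := (dm_mono e).trans (dm_span_le x2)
    omega
  have he : pen x2 x3 = e1 := eq_of_dm_le (pen_le p2 p3) (by rw [d1, dm_pen z2 s3])
  have o1' : x1 ∉ pen x2 x3 := he ▸ o1
  have ind : ∀ a b c : ℂ, a • x1 + b • x2 + c • x3 = 0 → a = 0 ∧ b = 0 ∧ c = 0 := fun a b c e => by
    have := ind3 z2 s3 o1' (a := b) (b := c) (c := a) (by linear_combination (norm := module) e)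
    tauto
  obtain ⟨w, w1, w2, w0⟩ := meet hX d1 d2
  obtain ⟨a', b', rfl⟩ := mem_pen.1 (he ▸ w1 : w ∈ pen x2 x3)
  have off : ∀ a b : ℂ, a ≠ 0 ∨ b ≠ 0 → a • x2 + b • x3 ∉ ℂ ∙ x1 := fun a b hab e => by
    obtain ⟨c, e⟩ := Submodule.mem_span_singleton.1 e
    have := ind (-c) a b (by linear_combination (norm := module) -e)
    tauto
  have k2 := KK_le T m2 w2
  rw [map_add, map_smul, map_smul] at k2
  have := tri_base (T x1) (T x2) (T x3) h _ L hn hh (fun a b c habc => ?_) rfl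
    (g2.trans (mn x1 z1)) (g3.trans (mn x1 z1))
    (fun v h1 h2 h3 => c1.three hX z2 s3 o1' v h2 h3 h1) (k1.trans (KK_le T p2 p3))
    (fun a b hab => ?_) (fun a b c hab => ?_) (fun a b c hab => ?_) (a' := a') (b' := b')
    (fun e => ?_) (fun e => ?_) (fun a b hab => ?_) (k0.trans ((mx e0 ⟨d0, m1⟩).trans k2))
  · refine rk_of3 hX z2 s3 o1' (RK.re this (fun p => (p.2.2, p.1, p.2.1)) fun p v => ?_)
    simp only [LinearMap.add_apply, LinearMap.smul_apply]
    module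
  · have := cor (a • x1 + b • x2 + c • x3) fun e => by
      have := ind a b c e
      tauto
    simpa only [map_add, map_smul] using this
  · simpa only [map_add, map_smul] using l1 _ (off a b hab)
  · have := l2 (a • x1 + b • x2 + c • x3) fun e => by
      obtain ⟨d, e⟩ := Submodule.mem_span_singleton.1 e
      have := ind a (b - d) c (by linear_combination (norm := module) -e)
      tauto
    simpa only [map_add, map_smul] using this
  · have := l3 (a • x1 + b • x2 + c • x3) fun e => by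
      obtain ⟨d, e⟩ := Submodule.mem_span_singleton.1 e
      have := ind a b (c - d) (by linear_combination (norm := module) -e)
      tauto
    simpa only [map_add, map_smul] using this
  · rw [e, zero_smul, zero_add] at w2 w0
    exact o3 ((e2.smul_mem_iff (left_ne_zero_of_smul w0)).1 w2)
  · rw [e, zero_smul, add_zero] at w2 w0
    exact o2 ((e2.smul_mem_iff (left_ne_zero_of_smul w0)).1 w2)
  · have := (le_KK T x1 (a • x2 + b • x3)).trans
      ((mx _ ⟨dm_pen z1 (off a b hab), left_pen _ _⟩).trans k2)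
    rwa [map_add, map_smul, map_smul] at this

theorem upper_conc (hX : finrank ℂ X = 3) {h : ℕ} (hn : Fintype.card n = 4 * h)
    (c1 : Conc T) (c2 : Conc (trT T)) : RK T (7 * h + 16) := by
  classical
  by_cases hb : ∃ x ≠ 0, 2 * h < dm (ker (T x))
  · obtain ⟨x, hx, hc⟩ := hb
    exact (caseBig hX hx hn c1 c2 hc.le).mono (by omega)
  push Not at hb
  by_cases hh : h < 4
  · obtain ⟨x, hx⟩ := exists_off hX 0 0
    have hx : x ≠ 0 := fun e => hx (by rw [e]; exact Submodule.zero_mem _)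
    obtain ⟨y, hy⟩ := exists_off hX x x
    obtain ⟨z, hz⟩ := exists_off hX x y
    have h1 : finrank ℂ (n → ℂ) = 4 * h := by rw [card_fun, hn]
    have h2 : RK3 0 (T y) (T z) (6 * h + 1) :=
      (rk2_square (T y) (T z) h h1).re Prod.snd fun x v => by simp
    exact rk_of3 hX hx (fun e => hy (Submodule.mem_sup_left e)) hz
      (RK.mono (rk3_first (dm_le _) h2) (by omega))
  have ex : ∀ S : X →ₗ[ℂ] (n → ℂ) →ₗ[ℂ] (n → ℂ), ∃ L : ℕ,
      {P : Submodule ℂ X | dm P = 2 ∧ L < dm (KK S P)}.Finite ∧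
      {P : Submodule ℂ X | dm P = 2 ∧ L ≤ dm (KK S P)}.Infinite := fun S => by
    have h1 : ∃ L : ℕ, {P : Submodule ℂ X | dm P = 2 ∧ L < dm (KK S P)}.Finite :=
      ⟨_, Set.finite_empty.subset fun P hP => absurd (dm_le _) (not_le.2 hP.2)⟩
    refine ⟨Nat.find h1, Nat.find_spec h1, ?_⟩
    rcases h0 : Nat.find h1 with _ | m
    · simpa using inf_pts hX
    · exact Nat.find_min h1 (show m < Nat.find h1 by omega)
  obtain ⟨k, f1, i1⟩ := ex T
  obtain ⟨l, f2, i2⟩ := ex (trT T)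
  rcases le_total l k with hl | hl
  · exact triangle hX hn (by omega) c1 hb l f2 (i1.mono fun P hP => ⟨hP.1, hl.trans hP.2⟩)
  · refine RK.of_tr (triangle (T := trT T) hX hn (by omega) c2
      (fun x hx => (dm_ker_tr (T x)).trans_le (hb x hx)) k (by rwa [trT_trT])
      (i2.mono fun P hP => ⟨hP.1, hl.trans hP.2⟩))

end Pool.Agent.P.MP_098a67_ag.T3
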